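import Pool.Agent.MalP.PSkew
import Pool.Agent.MalP.P5.Fv

/-! # p = 5: the generator `fv` of `Q`, the element `cc`, the algebras in which `cc = 0` -/

set_option autoImplicit false

namespace Pool.Agent.MalP.W5

open Pool.Agent.MalP

universe u v w

section defs

variable {A : Type v} [NonUnitalNonAssocRing A]

variable (A) in
/-- Malcev algebras in which `cc = 0`, with the identities which follow from it for `p = 5` -/
structure IsA5 : Prop extends IsMalcev A where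
  s0 : ∀ x0 x1 x2 x3 x4 v : A, fv x0 x1 x2 x4 x3 v = - fv x0 x1 x2 x3 x4 v
  c0 : ∀ x0 x1 x2 x3 x4 x5 : A, cc x0 x1 x2 x3 x4 x5 = 0
  w1 : ∀ x0 x1 x2 x3 x4 u v : A, fv x0 x1 x2 x3 x4 (u * v) = 0
  w2 : ∀ u v y1 y2 y3 a : A, fv (u * v) y1 y2 y3 a a = 0
  w3 : ∀ y1 y2 y3 a x : A, fv y1 y2 y3 a x a * x = 0
  w4 : ∀ u v y1 y2 y3 y4 : A, fv (u * v) v y1 y2 y3 y4 = fv u v y1 y2 y3 y4 * v

end defs

section hom

variable {F : Type u} [Field F] {A : Type v} [NonUnitalNonAssocRing A] [Module F A]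
  {B : Type w} [NonUnitalNonAssocRing B] [Module F B] (f : A →ₙₐ[F] B)

theorem hom_P (a b c d x : A) : f (P108 a b c d x) = P108 (f a) (f b) (f c) (f d) (f x) := by
  unfold P108 Jac
  simp only [map_sub, map_add, map_mul, map_nsmul]

theorem hom_fv (x0 x1 x2 x3 x4 v : A) :
    f (fv x0 x1 x2 x3 x4 v) = fv (f x0) (f x1) (f x2) (f x3) (f x4) (f v) := by
  unfold fv
  rw [map_sub, map_mul, hom_P, hom_P, map_mul]

theorem hom_cc (x0 x1 x2 x3 x4 x5 : A) :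
    f (cc x0 x1 x2 x3 x4 x5) = cc (f x0) (f x1) (f x2) (f x3) (f x4) (f x5) := by
  unfold cc
  simp only [map_sub, map_add, hom_fv]

end hom

section lin

variable {A : Type v} [NonUnitalNonAssocRing A]

theorem P_addx (a b c d x y : A) : P108 a b c d (x + y) = P108 a b c d x + P108 a b c d y := by
  unfold P108
  simp only [PSkewAux.Jac_add1, PSkewAux.Jac_add2, PSkewAux.Jac_add3, add_mul, mul_add, smul_add,
    smul_sub]
  abel

theorem P_addd (a b c d d' x : A) : P108 a b c (d + d') x = P108 a b c d x + P108 a b c d' x := by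
  unfold P108
  simp only [PSkewAux.Jac_add1, PSkewAux.Jac_add2, PSkewAux.Jac_add3, add_mul, mul_add, smul_add,
    smul_sub]
  abel

theorem P_addb (a b b' c d x : A) : P108 a (b + b') c d x = P108 a b c d x + P108 a b' c d x := by
  unfold P108
  simp only [PSkewAux.Jac_add1, PSkewAux.Jac_add2, PSkewAux.Jac_add3, add_mul, mul_add, smul_add,
    smul_sub]
  abel

theorem P_adda (a a' b c d x : A) : P108 (a + a') b c d x = P108 a b c d x + P108 a' b c d x := by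
  unfold P108
  simp only [PSkewAux.Jac_add1, PSkewAux.Jac_add2, PSkewAux.Jac_add3, add_mul, mul_add, smul_add,
    smul_sub]
  abel

theorem fv_add5 (x0 x1 x2 x3 x4 v w : A) :
    fv x0 x1 x2 x3 x4 (v + w) = fv x0 x1 x2 x3 x4 v + fv x0 x1 x2 x3 x4 w := by
  unfold fv
  rw [add_mul, P_addx, P_addx, add_mul]
  abel

theorem fv_add4 (x0 x1 x2 x3 x y v : A) :
    fv x0 x1 x2 x3 (x + y) v = fv x0 x1 x2 x3 x v + fv x0 x1 x2 x3 y v := by
  unfold fv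
  rw [mul_add, P_addx, mul_add]
  abel

theorem fv_add3 (x0 x1 x2 x y x4 v : A) :
    fv x0 x1 x2 (x + y) x4 v = fv x0 x1 x2 x x4 v + fv x0 x1 x2 y x4 v := by
  unfold fv
  rw [P_addd, P_addd, add_mul]
  abel

theorem fv_add1 (x0 x y x2 x3 x4 v : A) :
    fv x0 (x + y) x2 x3 x4 v = fv x0 x x2 x3 x4 v + fv x0 y x2 x3 x4 v := by
  unfold fv
  rw [P_addb, P_addb, add_mul]
  abel

theorem fv_add0 (x y x1 x2 x3 x4 v : A) :
    fv (x + y) x1 x2 x3 x4 v = fv x x1 x2 x3 x4 v + fv y x1 x2 x3 x4 v := by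
  unfold fv
  rw [P_adda, P_adda, add_mul]
  abel

theorem fv_neg0 (x x1 x2 x3 x4 v : A) : fv (-x) x1 x2 x3 x4 v = - fv x x1 x2 x3 x4 v := by
  have h1 := fv_add0 x (-x) x1 x2 x3 x4 v
  have h2 := fv_add0 (0 : A) 0 x1 x2 x3 x4 v
  rw [add_zero] at h2
  rw [add_neg_cancel, left_eq_add.1 h2] at h1
  exact (neg_eq_of_add_eq_zero_right h1.symm).symm

end lin

namespace IsA5

variable {A : Type v} [NonUnitalNonAssocRing A] (h : IsA5 A)

include h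

theorem sw01 (x0 x1 x2 x3 x4 v : A) : fv x1 x0 x2 x3 x4 v = - fv x0 x1 x2 x3 x4 v := by
  unfold fv
  rw [h.toIsMalcev.P12 x0, h.toIsMalcev.P12 x0, neg_mul]
  abel

theorem sw12 (x0 x1 x2 x3 x4 v : A) : fv x0 x2 x1 x3 x4 v = - fv x0 x1 x2 x3 x4 v := by
  unfold fv
  rw [h.toIsMalcev.P23 x0 x1, h.toIsMalcev.P23 x0 x1, neg_mul]
  abel

theorem sw23 (x0 x1 x2 x3 x4 v : A) : fv x0 x1 x3 x2 x4 v = - fv x0 x1 x2 x3 x4 v := by
  unfold fv
  rw [h.toIsMalcev.P34 x0 x1 x2, h.toIsMalcev.P34 x0 x1 x2, neg_mul]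
  abel

theorem sw34 (x0 x1 x2 x3 x4 v : A) : fv x0 x1 x2 x4 x3 v = - fv x0 x1 x2 x3 x4 v :=
  h.s0 x0 x1 x2 x3 x4 v

theorem sw02 (x0 x1 x2 x3 x4 v : A) : fv x2 x1 x0 x3 x4 v = - fv x0 x1 x2 x3 x4 v := by
  rw [h.sw01 x1 x2 x0 x3 x4 v, h.sw12 x1 x0 x2 x3 x4 v, h.sw01 x0 x1 x2 x3 x4 v]
  simp only [neg_neg]

theorem sw03 (x0 x1 x2 x3 x4 v : A) : fv x3 x1 x2 x0 x4 v = - fv x0 x1 x2 x3 x4 v := by
  rw [h.sw02 x2 x1 x3 x0 x4 v, h.sw23 x2 x1 x0 x3 x4 v, h.sw02 x0 x1 x2 x3 x4 v]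
  simp only [neg_neg]

theorem sw04 (x0 x1 x2 x3 x4 v : A) : fv x4 x1 x2 x3 x0 v = - fv x0 x1 x2 x3 x4 v := by
  rw [h.sw03 x3 x1 x2 x4 x0 v, h.sw34 x3 x1 x2 x0 x4 v, h.sw03 x0 x1 x2 x3 x4 v]
  simp only [neg_neg]

/-- (w2), linearised -/
theorem w2' (u v y1 y2 y3 a b : A) : fv (u * v) y1 y2 y3 b a = - fv (u * v) y1 y2 y3 a b := by
  have h1 := h.w2 u v y1 y2 y3 (a + b)
  rw [fv_add4, fv_add5, fv_add5, h.w2, h.w2, zero_add, add_zero] at h1
  exact eq_neg_of_add_eq_zero_right h1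

/-- (w3), linearised -/
theorem w3' (y1 y2 y3 a x b : A) : fv y1 y2 y3 a x a * b = - (fv y1 y2 y3 a b a * x) := by
  have h1 := h.w3 y1 y2 y3 a (x + b)
  rw [fv_add4, add_mul, mul_add, mul_add, h.w3, h.w3, zero_add, add_zero] at h1
  exact eq_neg_of_add_eq_zero_left h1

theorem w3'' (y1 y2 y3 a a' x b : A) : fv y1 y2 y3 a' x a * b + fv y1 y2 y3 a' b a * x =
    - (fv y1 y2 y3 a x a' * b + fv y1 y2 y3 a b a' * x) := by
  have h1 := h.w3' y1 y2 y3 (a + a') x b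
  rw [fv_add5, fv_add5, fv_add3, fv_add3, fv_add3, fv_add3] at h1
  simp only [add_mul] at h1
  rw [h.w3' y1 y2 y3 a x b, h.w3' y1 y2 y3 a' x b] at h1
  rw [eq_neg_iff_add_eq_zero]
  rw [← sub_eq_zero] at h1
  rw [← h1]
  abel

/-- (w4), linearised -/
theorem w4' (u v w y1 y2 y3 y4 : A) :
    fv (u * v) w y1 y2 y3 y4 + fv (u * w) v y1 y2 y3 y4 =
      fv u v y1 y2 y3 y4 * w + fv u w y1 y2 y3 y4 * v := by
  have h1 := h.w4 u (v + w) y1 y2 y3 y4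
  rw [mul_add, fv_add0, fv_add1, fv_add1, fv_add1, mul_add, add_mul, add_mul, h.w4, h.w4] at h1
  rw [← sub_eq_zero] at h1 ⊢
  rw [← h1]
  abel

end IsA5

end Pool.Agent.MalP.W5
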