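import Pool.Agent.MalP.W5.N

/-! # p = 5: **W5**, six letters -/

set_option autoImplicit false
set_option linter.unusedSimpArgs false

open Equiv Finset

namespace Pool.Agent.MalP.W5

open Pool.Agent.MalP

universe u v w

variable {F : Type u} [Field F]

theorem wphi_fv (a b c d e v i : ℕ) :
    wphi F (fv (FreeMalcev.of a) (FreeMalcev.of b) (FreeMalcev.of c) (FreeMalcev.of d)
      (FreeMalcev.of e) (FreeMalcev.of v)) i =
    (24 : F) • ((if i = a then xe F v * (xe F b * (xe F c * (xe F d * xe F e))) else 0) -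
      (if i = b then xe F v * (xe F a * (xe F c * (xe F d * xe F e))) else 0) +
      (if i = c then xe F v * (xe F a * (xe F b * (xe F d * xe F e))) else 0) -
      (if i = d then xe F v * (xe F a * (xe F b * (xe F c * xe F e))) else 0) +
      (if i = e then xe F v * (xe F a * (xe F b * (xe F c * xe F d))) else 0)) := by
  rw [wphi_apply, hom_fv, phi_of, phi_of, phi_of, phi_of, phi_of, phi_of, w_of_ht (fv_v _ _ _ _ _ _),
    ht_fv]
  simp only [ht_lt, lt_v]
  have key : ∀ (n : ℕ) (P : Ex F), (if i = n then (-1 : Ex F) else 0) * P = - (if i = n then P else 0) := by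
    intro n P
    split_ifs
    · rw [neg_one_mul]
    · rw [zero_mul, neg_zero]
  rw [key, key, key, key, key]
  module

/-- the six elements -/
noncomputable def g6 (n0 n1 n2 n3 n4 n5 : ℕ) : Fin 6 → FreeMalcev F ℕ :=
  ![fv (.of n1) (.of n2) (.of n3) (.of n4) (.of n5) (.of n0),
    fv (.of n0) (.of n2) (.of n3) (.of n4) (.of n5) (.of n1),
    fv (.of n0) (.of n1) (.of n3) (.of n4) (.of n5) (.of n2),
    fv (.of n0) (.of n1) (.of n2) (.of n4) (.of n5) (.of n3),
    fv (.of n0) (.of n1) (.of n2) (.of n3) (.of n5) (.of n4),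
    fv (.of n0) (.of n1) (.of n2) (.of n3) (.of n4) (.of n5)]

theorem six_coeff (h5 : (5 : F) = 0) {n0 n1 n2 n3 n4 n5 : ℕ} (hn : [n0, n1, n2, n3, n4, n5].Nodup)
    (c : Fin 6 → F) (h0 : wphi F (∑ k, c k • g6 n0 n1 n2 n3 n4 n5 k) = 0) :
    ∑ k, c k • g6 n0 n1 n2 n3 n4 n5 k = c 0 • cc (FreeMalcev.of n0 : FreeMalcev F ℕ) (.of n1) (.of n2)
      (.of n3) (.of n4) (.of n5) := by
  have hn' := hn
  simp only [List.nodup_cons, List.mem_cons, List.not_mem_nil, or_false, not_or, List.nodup_nil,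
    not_false_eq_true, and_true] at hn'
  obtain ⟨⟨a01, a02, a03, a04, a05⟩, ⟨a12, a13, a14, a15⟩, ⟨a23, a24, a25⟩, ⟨a34, a35⟩, a45⟩ := hn'
  have b01 := Ne.symm a01
  have b02 := Ne.symm a02
  have b03 := Ne.symm a03
  have b04 := Ne.symm a04
  have b05 := Ne.symm a05
  have b12 := Ne.symm a12
  have b13 := Ne.symm a13
  have b14 := Ne.symm a14
  have b15 := Ne.symm a15
  have b23 := Ne.symm a23
  have b24 := Ne.symm a24
  have b25 := Ne.symm a25
  have b34 := Ne.symm a34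
  have b35 := Ne.symm a35
  have b45 := Ne.symm a45
  have sw : ∀ (i j : ℕ) (t : Ex F), xe F i * (xe F j * t) = - (xe F j * (xe F i * t)) := by
    intro i j t
    rw [← mul_assoc, xe_anti, neg_mul, mul_assoc]
  have hsum : ∀ i, c 0 • wphi F (g6 n0 n1 n2 n3 n4 n5 0) i + c 1 • wphi F (g6 n0 n1 n2 n3 n4 n5 1) i +
      c 2 • wphi F (g6 n0 n1 n2 n3 n4 n5 2) i + c 3 • wphi F (g6 n0 n1 n2 n3 n4 n5 3) i +
      c 4 • wphi F (g6 n0 n1 n2 n3 n4 n5 4) i + c 5 • wphi F (g6 n0 n1 n2 n3 n4 n5 5) i = 0 := by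
    intro i
    have h1 := congrFun h0 i
    rw [map_sum] at h1
    simp only [Fin.sum_univ_six, map_smul, Pi.add_apply, Pi.smul_apply, Pi.zero_apply] at h1
    exact h1
  simp only [g6, Matrix.cons_val_zero, Matrix.cons_val_one, Matrix.cons_val, wphi_fv] at hsum
  have cancel : ∀ (s : F) (l : List ℕ) (P : Ex F), P = px F l → l.Nodup → s • ((24 : F) • P) = 0 →
      s = 0 := by
    intro s l P hP hl h1
    rw [hP] at h1
    exact (smul_eq_zero.1 h1).resolve_right (smul_ne_zero (n24 h5) (px_ne_zero F hl))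
  have px5 : ∀ a b c d e : ℕ, xe F a * (xe F b * (xe F c * (xe F d * xe F e))) =
      px F [a, b, c, d, e] := by
    intro a b c d e
    simp only [px_cons, px_nil, mul_one]
  have e0 : - c 1 + c 2 - c 3 + c 4 - c 5 = 0 := by
    apply cancel _ [n1, n2, n3, n4, n5] _ (px5 n1 n2 n3 n4 n5)
    · simp [a12, a13, a14, a15, a23, a24, a25, a34, a35, a45]
    have h1 := hsum n0
    simp only [if_true, if_neg a01, if_neg a02, if_neg a03, if_neg a04, if_neg a05, sub_zero,
      add_zero, zero_sub, zero_add, smul_zero] at h1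
    simp only [sw n1 n0, sw n2 n0, sw n3 n0, sw n4 n0, sw n5 n0, sw n2 n1, sw n3 n1, sw n4 n1, sw n5 n1, sw n3 n2, sw n4 n2, sw n5 n2, sw n4 n3, sw n5 n3, sw n5 n4,
      xe_anti F n1 n0, xe_anti F n2 n0, xe_anti F n3 n0, xe_anti F n4 n0, xe_anti F n5 n0, xe_anti F n2 n1, xe_anti F n3 n1, xe_anti F n4 n1, xe_anti F n5 n1, xe_anti F n3 n2, xe_anti F n4 n2, xe_anti F n5 n2, xe_anti F n4 n3, xe_anti F n5 n3, xe_anti F n5 n4,
      mul_neg, neg_neg] at h1
    rw [← neg_eq_zero, ← h1]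
    module
  have e1 : c 0 + c 2 - c 3 + c 4 - c 5 = 0 := by
    apply cancel _ [n0, n2, n3, n4, n5] _ (px5 n0 n2 n3 n4 n5)
    · simp [a02, a03, a04, a05, a23, a24, a25, a34, a35, a45]
    have h1 := hsum n1
    simp only [if_true, if_neg b01, if_neg a12, if_neg a13, if_neg a14, if_neg a15, sub_zero,
      add_zero, zero_sub, zero_add, smul_zero] at h1
    simp only [sw n1 n0, sw n2 n0, sw n3 n0, sw n4 n0, sw n5 n0, sw n2 n1, sw n3 n1, sw n4 n1, sw n5 n1, sw n3 n2, sw n4 n2, sw n5 n2, sw n4 n3, sw n5 n3, sw n5 n4,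
      xe_anti F n1 n0, xe_anti F n2 n0, xe_anti F n3 n0, xe_anti F n4 n0, xe_anti F n5 n0, xe_anti F n2 n1, xe_anti F n3 n1, xe_anti F n4 n1, xe_anti F n5 n1, xe_anti F n3 n2, xe_anti F n4 n2, xe_anti F n5 n2, xe_anti F n4 n3, xe_anti F n5 n3, xe_anti F n5 n4,
      mul_neg, neg_neg] at h1
    rw [← h1]
    module
  have e2 : c 0 - c 1 - c 3 + c 4 - c 5 = 0 := by
    apply cancel _ [n0, n1, n3, n4, n5] _ (px5 n0 n1 n3 n4 n5)
    · simp [a01, a03, a04, a05, a13, a14, a15, a34, a35, a45]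
    have h1 := hsum n2
    simp only [if_true, if_neg b02, if_neg b12, if_neg a23, if_neg a24, if_neg a25, sub_zero,
      add_zero, zero_sub, zero_add, smul_zero] at h1
    simp only [sw n1 n0, sw n2 n0, sw n3 n0, sw n4 n0, sw n5 n0, sw n2 n1, sw n3 n1, sw n4 n1, sw n5 n1, sw n3 n2, sw n4 n2, sw n5 n2, sw n4 n3, sw n5 n3, sw n5 n4,
      xe_anti F n1 n0, xe_anti F n2 n0, xe_anti F n3 n0, xe_anti F n4 n0, xe_anti F n5 n0, xe_anti F n2 n1, xe_anti F n3 n1, xe_anti F n4 n1, xe_anti F n5 n1, xe_anti F n3 n2, xe_anti F n4 n2, xe_anti F n5 n2, xe_anti F n4 n3, xe_anti F n5 n3, xe_anti F n5 n4,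
      mul_neg, neg_neg] at h1
    rw [← neg_eq_zero, ← h1]
    module
  have e3 : c 0 - c 1 + c 2 + c 4 - c 5 = 0 := by
    apply cancel _ [n0, n1, n2, n4, n5] _ (px5 n0 n1 n2 n4 n5)
    · simp [a01, a02, a04, a05, a12, a14, a15, a24, a25, a45]
    have h1 := hsum n3
    simp only [if_true, if_neg b03, if_neg b13, if_neg b23, if_neg a34, if_neg a35, sub_zero,
      add_zero, zero_sub, zero_add, smul_zero] at h1
    simp only [sw n1 n0, sw n2 n0, sw n3 n0, sw n4 n0, sw n5 n0, sw n2 n1, sw n3 n1, sw n4 n1, sw n5 n1, sw n3 n2, sw n4 n2, sw n5 n2, sw n4 n3, sw n5 n3, sw n5 n4,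
      xe_anti F n1 n0, xe_anti F n2 n0, xe_anti F n3 n0, xe_anti F n4 n0, xe_anti F n5 n0, xe_anti F n2 n1, xe_anti F n3 n1, xe_anti F n4 n1, xe_anti F n5 n1, xe_anti F n3 n2, xe_anti F n4 n2, xe_anti F n5 n2, xe_anti F n4 n3, xe_anti F n5 n3, xe_anti F n5 n4,
      mul_neg, neg_neg] at h1
    rw [← h1]
    module
  have e4 : c 0 - c 1 + c 2 - c 3 - c 5 = 0 := by
    apply cancel _ [n0, n1, n2, n3, n5] _ (px5 n0 n1 n2 n3 n5)
    · simp [a01, a02, a03, a05, a12, a13, a15, a23, a25, a35]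
    have h1 := hsum n4
    simp only [if_true, if_neg b04, if_neg b14, if_neg b24, if_neg b34, if_neg a45, sub_zero,
      add_zero, zero_sub, zero_add, smul_zero] at h1
    simp only [sw n1 n0, sw n2 n0, sw n3 n0, sw n4 n0, sw n5 n0, sw n2 n1, sw n3 n1, sw n4 n1, sw n5 n1, sw n3 n2, sw n4 n2, sw n5 n2, sw n4 n3, sw n5 n3, sw n5 n4,
      xe_anti F n1 n0, xe_anti F n2 n0, xe_anti F n3 n0, xe_anti F n4 n0, xe_anti F n5 n0, xe_anti F n2 n1, xe_anti F n3 n1, xe_anti F n4 n1, xe_anti F n5 n1, xe_anti F n3 n2, xe_anti F n4 n2, xe_anti F n5 n2, xe_anti F n4 n3, xe_anti F n5 n3, xe_anti F n5 n4,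
      mul_neg, neg_neg] at h1
    rw [← neg_eq_zero, ← h1]
    module
  have e5 : c 0 - c 1 + c 2 - c 3 + c 4 = 0 := by
    apply cancel _ [n0, n1, n2, n3, n4] _ (px5 n0 n1 n2 n3 n4)
    · simp [a01, a02, a03, a04, a12, a13, a14, a23, a24, a34]
    have h1 := hsum n5
    simp only [if_true, if_neg b05, if_neg b15, if_neg b25, if_neg b35, if_neg b45, sub_zero,
      add_zero, zero_sub, zero_add, smul_zero] at h1
    simp only [sw n1 n0, sw n2 n0, sw n3 n0, sw n4 n0, sw n5 n0, sw n2 n1, sw n3 n1, sw n4 n1, sw n5 n1, sw n3 n2, sw n4 n2, sw n5 n2, sw n4 n3, sw n5 n3, sw n5 n4,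
      xe_anti F n1 n0, xe_anti F n2 n0, xe_anti F n3 n0, xe_anti F n4 n0, xe_anti F n5 n0, xe_anti F n2 n1, xe_anti F n3 n1, xe_anti F n4 n1, xe_anti F n5 n1, xe_anti F n3 n2, xe_anti F n4 n2, xe_anti F n5 n2, xe_anti F n4 n3, xe_anti F n5 n3, xe_anti F n5 n4,
      mul_neg, neg_neg] at h1
    rw [← h1]
    module
  have c1 : c 1 = - c 0 := by linear_combination e1 - e0
  have c2 : c 2 = c 0 := by linear_combination e0 - e2
  have c3 : c 3 = - c 0 := by linear_combination e3 - e0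
  have c4 : c 4 = c 0 := by linear_combination e0 - e4
  have c5 : c 5 = - c 0 := by linear_combination e5 - e0
  rw [Fin.sum_univ_six, c1, c2, c3, c4, c5]
  simp only [g6, Matrix.cons_val_zero, Matrix.cons_val_one, Matrix.cons_val, cc]
  module

theorem cons_sum6 (n0 n1 n2 n3 n4 n5 : ℕ) : (([n0, n1, n2, n3, n4, n5] : List ℕ) : Multiset ℕ) =
    {n0} + {n1} + {n2} + {n3} + {n4} + {n5} := rfl

theorem cons_sum5 (n0 n1 n2 n3 n4 : ℕ) : (([n0, n1, n2, n3, n4] : List ℕ) : Multiset ℕ) =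
    {n0} + {n1} + {n2} + {n3} + {n4} := rfl

section

variable (hB : IsA5 (BQ F)) (h5 : (5 : F) = 0)

include hB

theorem gen_six {n0 n1 n2 n3 n4 n5 : ℕ} {U : List ℕ} {y : ℕ}
    (hU : (U : Multiset ℕ) + {y} = (([n0, n1, n2, n3, n4, n5] : List ℕ) : Multiset ℕ)) :
    pq F (fw (U.map FreeMalcev.of) (FreeMalcev.of y)) ∈
      (Submodule.span F (Set.range (g6 (F := F) n0 n1 n2 n3 n4 n5))).map
      ((pq F : FreeMalcev F ℕ →ₙₐ[F] BQ F) : FreeMalcev F ℕ →ₗ[F] BQ F) := by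
  have key : ∀ (V : List ℕ) (k : Fin 6), (U : Multiset ℕ) = V →
      g6 (F := F) n0 n1 n2 n3 n4 n5 k = fw (V.map FreeMalcev.of) (FreeMalcev.of y) →
      V.length = 5 →
      pq F (fw (U.map FreeMalcev.of) (FreeMalcev.of y)) ∈
      (Submodule.span F (Set.range (g6 (F := F) n0 n1 n2 n3 n4 n5))).map
      ((pq F : FreeMalcev F ℕ →ₙₐ[F] BQ F) : FreeMalcev F ℕ →ₗ[F] BQ F) := by
    intro V k hUV hg hV
    have hp : U.Perm V := Multiset.coe_eq_coe.1 hUV
    have e1 : ∀ W : List ℕ, pq F (fw (W.map FreeMalcev.of) (FreeMalcev.of y)) =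
        fw (W.map (zq F)) (zq F y) := by
      intro W
      rw [hom_fw, List.map_map]
      rfl
    have h3 := SkewL.perm (fw_skew5 hB (zq F y)) (hp.map (zq F))
      (by rw [List.length_map, hp.length_eq, hV])
    have h4 : g6 (F := F) n0 n1 n2 n3 n4 n5 k ∈
      Submodule.span F (Set.range (g6 (F := F) n0 n1 n2 n3 n4 n5)) := Submodule.subset_span ⟨k, rfl⟩
    rw [e1]
    rcases h3 with h3 | h3
    · refine ⟨_, h4, ?_⟩
      have h6 : pq F (g6 (F := F) n0 n1 n2 n3 n4 n5 k) = fw (U.map (zq F)) (zq F y) := by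
        rw [hg, e1]
        exact h3.symm
      exact h6
    · refine ⟨_, Submodule.neg_mem _ h4, ?_⟩
      have h6 : pq F (- g6 (F := F) n0 n1 n2 n3 n4 n5 k) = fw (U.map (zq F)) (zq F y) := by
        rw [map_neg, hg, e1]
        exact h3.symm
      exact h6
  have hy : y ∈ [n0, n1, n2, n3, n4, n5] := by
    have : y ∈ (([n0, n1, n2, n3, n4, n5] : List ℕ) : Multiset ℕ) := by
      rw [← hU]
      simp
    exact this
  simp only [List.mem_cons, List.not_mem_nil, or_false] at hy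
  rw [cons_sum6] at hU
  rcases hy with rfl | rfl | rfl | rfl | rfl | rfl
  · refine key [n1, n2, n3, n4, n5] 0 ?_ rfl rfl
    rw [cons_sum5]
    apply add_right_cancel (b := {y})
    rw [hU]
    abel
  · refine key [n0, n2, n3, n4, n5] 1 ?_ rfl rfl
    rw [cons_sum5]
    apply add_right_cancel (b := {y})
    rw [hU]
    abel
  · refine key [n0, n1, n3, n4, n5] 2 ?_ rfl rfl
    rw [cons_sum5]
    apply add_right_cancel (b := {y})
    rw [hU]
    abel
  · refine key [n0, n1, n2, n4, n5] 3 ?_ rfl rfl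
    rw [cons_sum5]
    apply add_right_cancel (b := {y})
    rw [hU]
    abel
  · refine key [n0, n1, n2, n3, n5] 4 ?_ rfl rfl
    rw [cons_sum5]
    apply add_right_cancel (b := {y})
    rw [hU]
    abel
  · refine key [n0, n1, n2, n3, n4] 5 ?_ rfl rfl
    rw [cons_sum5]
    apply add_right_cancel (b := {y})
    rw [hU]

include h5

theorem W5_six [C23 F] {L : Finset ℕ} (hL : L.card = 6) {q : FreeMalcev F ℕ}
    (hq : q ∈ QV F (FreeMalcev F ℕ)) (hm : q ∈ GM F L.val) (h0 : ∀ i, (phi F q).w i = 0) :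
    q ∈ Qc F (FreeMalcev F ℕ) := by
  obtain ⟨n0, n1, n2, n3, n4, n5, hl⟩ : ∃ n0 n1 n2 n3 n4 n5, L.toList = [n0, n1, n2, n3, n4, n5] := by
    have h1 : L.toList.length = 6 := by rw [Finset.length_toList, hL]
    obtain ⟨x1, x2, x3, x4, x5, x6, t, h2⟩ := ex_cons6 (xs := L.toList) (by omega)
    rw [h2] at h1
    have ht : t = [] := by
      simp only [List.length_cons] at h1
      exact List.length_eq_zero_iff.1 (by omega)
    exact ⟨x1, x2, x3, x4, x5, x6, by rw [h2, ht]⟩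
  have hLv : L.val = (([n0, n1, n2, n3, n4, n5] : List ℕ) : Multiset ℕ) := by
    rw [← hl, Finset.coe_toList]
  have hnd : [n0, n1, n2, n3, n4, n5].Nodup := by
    rw [← hl]
    exact Finset.nodup_toList _
  have h1 := Fm_six (m := L.val) hL (QV_GM hq hm)
  have h2 : pq F q ∈ (Submodule.span F (Set.range (g6 (F := F) n0 n1 n2 n3 n4 n5))).map
      ((pq F : FreeMalcev F ℕ →ₙₐ[F] BQ F) : FreeMalcev F ℕ →ₗ[F] BQ F) := by
    clear hq hm h0
    induction h1 using Submodule.span_induction with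
    | mem q hq =>
      obtain ⟨U, y, _, hc, rfl⟩ := hq
      rw [hLv] at hc
      exact gen_six hB hc
    | zero => rw [map_zero]; exact Submodule.zero_mem _
    | add x y _ _ hx hy => rw [map_add]; exact Submodule.add_mem _ hx hy
    | smul r x _ hx => rw [map_smul]; exact Submodule.smul_mem _ _ hx
  obtain ⟨q', hq', hqq⟩ := h2
  have hqq' : pq F q' = pq F q := hqq
  have h3 : q - q' ∈ Qc F (FreeMalcev F ℕ) := by
    rw [← pq_eq_zero, map_sub, hqq', sub_self]
  have h4 : wphi F q' = 0 := by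
    funext i
    have e1 := (phi_Qc h5 h3).2 i
    rw [map_sub, Bh.w_sub, h0, zero_sub, neg_eq_zero] at e1
    exact e1
  obtain ⟨c, rfl⟩ := (Submodule.mem_span_range_iff_exists_fun F).1 hq'
  have h6 := six_coeff h5 hnd c h4
  have h7 : ∑ k, c k • g6 n0 n1 n2 n3 n4 n5 k ∈ Qc F (FreeMalcev F ℕ) := by
    rw [h6]
    exact Submodule.smul_mem _ _ (cc_mem_Qc F _ _ _ _ _ _)
  have h8 := Submodule.add_mem _ h3 h7
  rwa [sub_add_cancel] at h8

/-- **W5**, main theorem -/
theorem W5_main [C23 F] {L : Finset ℕ} {q : FreeMalcev F ℕ}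
    (hq : q ∈ QV F (FreeMalcev F ℕ)) (hm : q ∈ GM F L.val) (h0 : ∀ i, (phi F q).w i = 0) :
    q ∈ Qc F (FreeMalcev F ℕ) := by
  rcases Nat.lt_or_ge L.card 7 with h7 | h7
  · rcases Nat.lt_or_ge L.card 6 with h6 | h6
    · have h1 := QV_GM hq hm
      rw [Fm_small h6, Submodule.mem_bot] at h1
      rw [h1]
      exact Submodule.zero_mem _
    · exact W5_six hB h5 (by omega) hq hm h0
  · exact W5_seven hB h5 h7 hq hm h0

end

end Pool.Agent.MalP.W5
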