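import Pool.Agent.MalP.W5.M

/-! # p = 5: **W5**, the multilinear elements of `QV` without `w`-part are in `Qc` -/

set_option autoImplicit false

open Equiv Finset

namespace Pool.Agent.MalP.W5

open Pool.Agent.MalP

universe u v w

variable {F : Type u} [Field F]

variable (F) in
/-- the elements of the model algebra without `v`- and `w`-part -/
noncomputable def Kw : Submodule F (Bh F) where
  carrier := {x | x.v = 0 ∧ ∀ i, x.w i = 0}
  add_mem' := fun {x y} hx hy => ⟨by rw [Bh.v_add, hx.1, hy.1, add_zero], fun i => by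
    rw [Bh.w_add, hx.2, hy.2, add_zero]⟩
  zero_mem' := ⟨rfl, fun _ => rfl⟩
  smul_mem' := fun r x hx => ⟨by rw [Bh.v_smul, hx.1, smul_zero], fun i => by
    rw [Bh.w_smul, hx.2, smul_zero]⟩

theorem Kw_mul {x : Bh F} (hx : x ∈ Kw F) (y : Bh F) : x * y = 0 ∧ y * x = 0 := by
  have hv : x.v = 0 := hx.1
  have hw : ∀ i, x.w i = 0 := hx.2
  constructor
  · apply Bh.ext
    · simp
    · intro i; simp [Bh.w_mul, hv, hw]
    · intro i j; simp [Bh.z_mul, hv, hw]
  · apply Bh.ext
    · simp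
    · intro i; simp [Bh.w_mul, hv, hw]
    · intro i j; simp [Bh.z_mul, hv, hw]

/-- the elements of `Qc` have no `v`- and no `w`-part -/
theorem phi_Qc (h5 : (5 : F) = 0) {q : FreeMalcev F ℕ} (hq : q ∈ Qc F (FreeMalcev F ℕ)) :
    phi F q ∈ Kw F := by
  have h1 : Qc F (FreeMalcev F ℕ) ≤ (Kw F).comap ((phi F : FreeMalcev F ℕ →ₙₐ[F] Bh F) :
      FreeMalcev F ℕ →ₗ[F] Bh F) := by
    apply Qc_le
    · intro a ha b
      have ha' : phi F a ∈ Kw F := ha
      constructor
      · show phi F (a * b) ∈ Kw F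
        rw [map_mul, (Kw_mul ha' _).1]
        exact Submodule.zero_mem _
      · show phi F (b * a) ∈ Kw F
        rw [map_mul, (Kw_mul ha' _).2]
        exact Submodule.zero_mem _
    · intro x0 x1 x2 x3 x4 x5
      show phi F (cc x0 x1 x2 x3 x4 x5) ∈ Kw F
      rw [hom_cc]
      exact ⟨cc_v _ _ _ _ _ _, fun i => cc_w h5 _ _ _ _ _ _ i⟩
  exact h1 hq

theorem ht_lt (n i : ℕ) : ht (Bh.lt F n) i = if i = n then -1 else 0 := by
  unfold ht Bh.lt
  rw [Bh.w_vl, Bh.v_vl, Finsupp.single_apply]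
  by_cases h : i = n
  · rw [if_pos h, if_pos h.symm, one_smul, zero_sub]
  · rw [if_neg h, if_neg (fun e => h e.symm), zero_smul, sub_zero]

theorem lt_v (n : ℕ) : ix (Bh.lt F n).v = xe F n := rfl

theorem foldl_w (y : ℕ) (t : List ℕ) : ∀ (q : Bh F) (l0 : List ℕ), q.v = 0 →
    (∀ i, q.w i = if i = y then (24 : F) • px F l0 else 0) →
    ∀ i, ((t.map (Bh.lt F)).foldl (· * ·) q).w i =
      if i = y then (24 : F) • px F (l0 ++ t) else 0 := by
  induction t with
  | nil =>
    intro q l0 _ h i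
    simpa using h i
  | cons b t ih =>
    intro q l0 hq h i
    have h1 := ih (q * Bh.lt F b) (l0 ++ [b]) rfl (by
      intro i
      have e1 : (q * Bh.lt F b).w i = q.w i * xe F b := by
        rw [Bh.w_mul, hq]
        simp [Bh.lt, xe]
      rw [e1, h i, px_append, px_singleton]
      split_ifs
      · rw [smul_mul_assoc]
      · rw [zero_mul]) i
    rw [List.append_assoc, List.singleton_append] at h1
    exact h1

/-- the `w`-part of `w(letters;letter)` -/
theorem wL_lt_w (h2 : (2 : F) ≠ 0) {U : List ℕ} (hU : 6 ≤ U.length) (y i : ℕ) :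
    (wL F (U.map (Bh.lt F)) (Bh.lt F y)).w i = if i = y then (24 : F) • px F U else 0 := by
  obtain ⟨x1, x2, x3, x4, x5, x6, t, rfl⟩ := ex_cons6 hU
  simp only [List.map_cons, wL_cons]
  refine foldl_w y t _ [x1, x2, x3, x4, x5, x6] (W7_v _) (fun i => ?_) i
  rw [w_of_ht (W7_v _), ht_W7 h2]
  show -((24 : F) • (ht (Bh.lt F y) i * (xe F x1 * (xe F x2 * (xe F x3 * (xe F x4 *
    (xe F x5 * xe F x6))))))) = _
  rw [ht_lt]
  split_ifs
  · rw [neg_one_mul, smul_neg, neg_neg]
    simp only [px_cons, px_nil, mul_one]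
  · rw [zero_mul, smul_zero, neg_zero]

theorem wL_lt_v {U : List ℕ} (y : ℕ) : (wL F (U.map (Bh.lt F)) (Bh.lt F y)).v = 0 := by
  generalize U.map (Bh.lt F) = m
  match m with
  | x1 :: x2 :: x3 :: x4 :: x5 :: x6 :: t =>
    rw [wL_cons]
    have key : ∀ (t : List (Bh F)) (q : Bh F), q.v = 0 → (t.foldl (· * ·) q).v = 0 := by
      intro t
      induction t with
      | nil => exact fun q hq => hq
      | cons b t ih => exact fun q _ => ih (q * b) rfl
    exact key t _ (W7_v _)
  | [] => rfl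
  | [_] => rfl
  | [_, _] => rfl
  | [_, _, _] => rfl
  | [_, _, _, _] => rfl
  | [_, _, _, _, _] => rfl

theorem n24 (h5 : (5 : F) = 0) : (24 : F) ≠ 0 := by
  have e : (24 : F) = 2 * 2 * 2 * 3 := by norm_num
  rw [e]
  exact mul_ne_zero (mul_ne_zero (mul_ne_zero (two_ne h5) (two_ne h5)) (two_ne h5)) (three_ne h5)

variable (F) in
/-- the `w`-part of the image in the model algebra -/
noncomputable def wphi : FreeMalcev F ℕ →ₗ[F] (ℕ → Ex F) where
  toFun q := (phi F q).w
  map_add' p q := by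
    rw [map_add]
    rfl
  map_smul' r q := by
    rw [map_smul]
    rfl

theorem wphi_apply (q : FreeMalcev F ℕ) (i : ℕ) : wphi F q i = (phi F q).w i := rfl

section

variable (hB : IsA5 (BQ F)) (h5 : (5 : F) = 0)

include hB h5

theorem W5_seven [C23 F] {L : Finset ℕ} (hL : 7 ≤ L.card) {q : FreeMalcev F ℕ}
    (hq : q ∈ QV F (FreeMalcev F ℕ)) (hm : q ∈ GM F L.val) (h0 : ∀ i, (phi F q).w i = 0) :
    q ∈ Qc F (FreeMalcev F ℕ) := by
  classical
  let g : {a // a ∈ L} → FreeMalcev F ℕ := fun a =>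
    wL F ((L.erase a.1).toList.map FreeMalcev.of) (FreeMalcev.of a.1)
  have hlen : ∀ a : {a // a ∈ L}, 6 ≤ (L.erase a.1).toList.length := by
    intro a
    rw [Finset.length_toList, Finset.card_erase_of_mem a.2]
    omega
  have h1 := Fm_SP hB h5 (m := L.val) hL (QV_GM hq hm)
  have h2 : SP F (zq F) L.val ≤ (Submodule.span F (Set.range g)).map
      ((pq F : FreeMalcev F ℕ →ₙₐ[F] BQ F) : FreeMalcev F ℕ →ₗ[F] BQ F) := by
    unfold SP
    rw [Submodule.span_le]
    rintro _ ⟨U, y, hU, hUy, rfl⟩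
    have hy : y ∈ L := by
      rw [← Finset.mem_val, ← hUy]
      simp
    have hp : U.Perm (L.erase y).toList := by
      rw [← Multiset.coe_eq_coe, Finset.coe_toList, Finset.erase_val, ← hUy]
      rw [add_comm, Multiset.singleton_add, Multiset.erase_cons_head]
    have h3 := SkewL.perm (wL_skew hB h5 (U.map (zq F)).length (by simpa using hU) (zq F y))
      (hp.map (zq F)) rfl
    have h4 : pq F (g ⟨y, hy⟩) = wL F ((L.erase y).toList.map (zq F)) (zq F y) := by
      show pq F (wL F _ _) = _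
      rw [hom_wL, List.map_map]
      rfl
    have h5' : g ⟨y, hy⟩ ∈ Submodule.span F (Set.range g) := Submodule.subset_span ⟨_, rfl⟩
    rcases h3 with h3 | h3
    · exact ⟨g ⟨y, hy⟩, h5', h4.trans h3.symm⟩
    · refine ⟨- g ⟨y, hy⟩, Submodule.neg_mem _ h5', ?_⟩
      have h6 : pq F (- g ⟨y, hy⟩) = wL F (U.map (zq F)) (zq F y) := by
        rw [map_neg, h4]
        exact h3.symm
      exact h6
  obtain ⟨q', hq', hqq⟩ := h2 h1
  have hqq' : pq F q' = pq F q := hqq
  have h3 : q - q' ∈ Qc F (FreeMalcev F ℕ) := by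
    rw [← pq_eq_zero, map_sub, hqq', sub_self]
  have h4 : wphi F q' = 0 := by
    funext i
    have e1 := (phi_Qc h5 h3).2 i
    rw [map_sub, Bh.w_sub, h0, zero_sub, neg_eq_zero] at e1
    exact e1
  have hval : ∀ (a : {a // a ∈ L}) (i : ℕ), wphi F (g a) i =
      if i = a.1 then (24 : F) • px F (L.erase a.1).toList else 0 := by
    intro a i
    rw [wphi_apply]
    show (phi F (wL F _ _)).w i = _
    rw [hom_wL, List.map_map, phi_of]
    have e1 : (L.erase a.1).toList.map ((phi F : FreeMalcev F ℕ → Bh F) ∘ FreeMalcev.of) =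
        (L.erase a.1).toList.map (Bh.lt F) := List.map_congr_left fun k _ => phi_of F k
    rw [e1, wL_lt_w (two_ne h5) (hlen a)]
  have h6 : q' = 0 := by
    refine inj_of_dual (F := F) (ι := {a // a ∈ L}) (M := FreeMalcev F ℕ) (N := ℕ → Ex F) (E := Ex F)
      g (wphi F) (fun a => LinearMap.proj a.1) ?_ ?_ hq' h4
    · intro k k' hk
      show wphi F (g k') k.1 = 0
      rw [hval, if_neg (fun e => hk (Subtype.ext e))]
    · intro k
      show wphi F (g k) k.1 ≠ 0
      rw [hval, if_pos rfl]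
      exact smul_ne_zero (n24 h5) (px_ne_zero F (Finset.nodup_toList _))
  rw [h6, sub_zero] at h3
  exact h3

end

end Pool.Agent.MalP.W5
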