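import Mathlib

/-! # The combinatorial lemma of (a) -/

set_option autoImplicit false

open Finset

namespace Pool.Agent.MalP.W5

universe u v w

theorem five_zero {F : Type u} [Field F] (h5 : (5 : F) = 0) {B : Type w} [AddCommGroup B] [Module F B]
    (b : B) : (5 : ℕ) • b = 0 := by
  have h1 : (5 : F) • b = (5 : ℕ) • b := ofNat_smul_eq_nsmul F 5 b
  rw [← h1, h5, zero_smul]

theorem two_ne {F : Type u} [Field F] (h5 : (5 : F) = 0) : (2 : F) ≠ 0 := by
  intro h
  have h1 : (1 : F) = 5 - 2 * 2 := by norm_num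
  rw [h5, h, mul_zero, sub_zero] at h1
  exact one_ne_zero h1

theorem three_ne {F : Type u} [Field F] (h5 : (5 : F) = 0) : (3 : F) ≠ 0 := by
  intro h
  have h1 : (1 : F) = 2 * 3 - 5 := by norm_num
  rw [h5, h, mul_zero, sub_zero] at h1
  exact one_ne_zero h1

section

variable {ι : Type u} [Fintype ι] [DecidableEq ι] {B : Type w} [AddCommGroup B]

theorem sum_erase2 (f : ι → B) {v b : ι} (h : v ≠ b) :
    ∑ w ∈ univ.erase b, f w = f v + ∑ w ∈ (univ.erase b).erase v, f w := by
  rw [← Finset.add_sum_erase _ _ (mem_erase.2 ⟨h, mem_univ v⟩)]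

theorem card_erase2 (hι : Fintype.card ι = 7) {v b : ι} (h : v ≠ b) :
    ((univ.erase b).erase v).card = 5 := by
  rw [card_erase_of_mem (mem_erase.2 ⟨h, mem_univ v⟩), card_erase_of_mem (mem_univ b), card_univ, hι]

theorem exists_out (hι : Fintype.card ι = 7) (s : Finset ι) (hs : s.card ≤ 6) : ∃ a, a ∉ s := by
  by_contra h
  push_neg at h
  have h1 : s = univ := eq_univ_of_forall h
  rw [h1, card_univ, hι] at hs
  omega

theorem exists_out2 (hι : Fintype.card ι = 7) (u v : ι) : ∃ a, a ≠ u ∧ a ≠ v := by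
  obtain ⟨a, ha⟩ := exists_out hι {u, v} (by
    have := card_le_two (a := u) (b := v)
    omega)
  rw [mem_insert, mem_singleton, not_or] at ha
  exact ⟨a, ha.1, ha.2⟩

theorem exists_out3 (hι : Fintype.card ι = 7) (u v w : ι) : ∃ a, a ≠ u ∧ a ≠ v ∧ a ≠ w := by
  obtain ⟨a, ha⟩ := exists_out hι {u, v, w} (by
    have := card_le_three (a := u) (b := v) (c := w)
    omega)
  rw [mem_insert, mem_insert, mem_singleton, not_or, not_or] at ha
  exact ⟨a, ha.1, ha.2.1, ha.2.2⟩

end

/-- the combinatorial core of (a) -/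
theorem absA {F : Type*} [Field F] (h5 : (5 : F) = 0) {ι : Type u} [Fintype ι] [DecidableEq ι]
    {B : Type w} [AddCommGroup B] [Module F B] (hι : Fintype.card ι = 7) (Phi S : ι → ι → B)
    (hD : ∀ a a' x b, a ≠ x → a ≠ b → a' ≠ x → a' ≠ b → x ≠ b →
      Phi a b - Phi a x = Phi a' b - Phi a' x)
    (hc : ∀ b, ∑ w ∈ univ.erase b, Phi w b = 0)
    (hS : ∀ u v, u ≠ v → S u v = S v u)
    (hSD : ∀ u v w y, u ≠ v → u ≠ w → v ≠ w → y ≠ u → y ≠ v → y ≠ w →
      S u v - S u w = Phi y w - Phi y v) :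
    ∃ om : ι → B, (∀ u v, u ≠ v → S u v = om u + om v) ∧
      ∀ v b, v ≠ b → Phi v b = ∑ w ∈ (univ.erase b).erase v, om w := by
  have h5' : ∀ b : B, (5 : ℕ) • b = 0 := five_zero h5
  have h2 := two_ne h5
  -- symmetry
  have hsym : ∀ x b, x ≠ b → Phi x b = Phi b x := by
    intro x b hxb
    have e1 := hc b
    have e2 := hc x
    rw [sum_erase2 _ hxb] at e1
    rw [sum_erase2 _ hxb.symm, erase_right_comm] at e2
    obtain ⟨a, ha1, ha2⟩ := exists_out2 hι x b
    have e3 : ∑ w ∈ (univ.erase b).erase x, (Phi w b - Phi w x) = 0 := by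
      rw [sum_congr rfl (g := fun _ => Phi a b - Phi a x), sum_const, card_erase2 hι hxb, h5']
      intro w hw
      rw [mem_erase, mem_erase] at hw
      exact hD w a x b hw.1 hw.2.1 ha1 ha2 hxb
    rw [sum_sub_distrib] at e3
    have e4 := sub_eq_zero.1 e3
    rw [e4] at e1
    have e5 := e1.trans e2.symm
    exact add_right_cancel e5
  -- the differences
  choose pk hpk using exists_out2 hι
  have hDd : ∀ a u v, a ≠ u → a ≠ v → u ≠ v → Phi a v - Phi a u = Phi (pk u v) v - Phi (pk u v) u :=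
    fun a u v h1 h3 h4 => hD a _ u v h1 h3 (hpk u v).1 (hpk u v).2 h4
  -- Phi in terms of the differences
  have hPhi : ∀ v b, v ≠ b → Phi v b = ∑ w ∈ (univ.erase b).erase v, (Phi (pk w v) v - Phi (pk w v) w) := by
    intro v b hvb
    have e1 := hc b
    rw [sum_erase2 _ hvb] at e1
    have e2 : ∑ w ∈ (univ.erase b).erase v, (Phi w b - Phi v b) =
        - ∑ w ∈ (univ.erase b).erase v, (Phi (pk w v) v - Phi (pk w v) w) := by
      rw [← sum_neg_distrib]
      refine sum_congr rfl fun w hw => ?_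
      rw [mem_erase, mem_erase] at hw
      rw [hsym w b hw.2.1, hsym v b hvb, ← hDd b w v hw.2.1.symm hvb.symm hw.1]
      abel
    rw [sum_sub_distrib, sum_const, card_erase2 hι hvb, h5', sub_zero] at e2
    rw [e2, add_neg_eq_zero] at e1
    exact e1
  -- T u v does not depend on v
  have hT : ∀ u v w, u ≠ v → u ≠ w → S u v + (Phi (pk u v) v - Phi (pk u v) u) =
      S u w + (Phi (pk u w) w - Phi (pk u w) u) := by
    intro u v w huv huw
    by_cases hvw : v = w
    · rw [hvw]
    obtain ⟨a, ha1, ha2, ha3⟩ := exists_out3 hι u v w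
    have e1 := hSD u v w a huv huw hvw ha1 ha2 ha3
    rw [← hDd a u v ha1 ha2 huv, ← hDd a u w ha1 ha3 huw]
    have e2 : S u v = S u w + (Phi a w - Phi a v) := by rw [← e1]; abel
    rw [e2]
    abel
  have hcancel : ∀ p : B, (2 : F)⁻¹ • (p + p) = p := by
    intro p
    rw [← two_smul F p, smul_smul, inv_mul_cancel₀ h2, one_smul]
  choose pk1 hpk1 using fun u : ι => exists_out2 hι u u
  let om : ι → B := fun u => (2 : F)⁻¹ • (S u (pk1 u) + (Phi (pk u (pk1 u)) (pk1 u) - Phi (pk u (pk1 u)) u))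
  have hom : ∀ u v, u ≠ v → om u = (2 : F)⁻¹ • (S u v + (Phi (pk u v) v - Phi (pk u v) u)) := by
    intro u v huv
    show (2 : F)⁻¹ • _ = _
    rw [hT u (pk1 u) v (hpk1 u).1.symm huv]
  have hanti : ∀ u v, u ≠ v → Phi (pk v u) u - Phi (pk v u) v = - (Phi (pk u v) v - Phi (pk u v) u) := by
    intro u v huv
    obtain ⟨a, ha1, ha2⟩ := exists_out2 hι u v
    rw [← hDd a u v ha1 ha2 huv, ← hDd a v u ha2 ha1 huv.symm]
    abel
  refine ⟨om, ?_, ?_⟩
  · intro u v huv
    rw [hom u v huv, hom v u huv.symm, ← smul_add, hanti u v huv, hS v u huv.symm]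
    have e : ∀ p q : B, p + q + (p + -q) = p + p := fun p q => by abel
    rw [e, hcancel]
  · intro v b hvb
    have e1 : ∀ w ∈ (univ.erase b).erase v, Phi (pk w v) v - Phi (pk w v) w = om w - om v := by
      intro w hw
      rw [mem_erase, mem_erase] at hw
      rw [hom w v hw.1, hom v w hw.1.symm, ← smul_sub, hanti w v hw.1, hS v w hw.1.symm]
      have e : ∀ p q : B, p + q - (p + -q) = q + q := fun p q => by abel
      rw [e, hcancel]
    rw [hPhi v b hvb, sum_congr rfl e1, sum_sub_distrib, sum_const, card_erase2 hι hvb, h5', sub_zero]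

end Pool.Agent.MalP.W5
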