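import Mathlib

/-! # Twisted values of functions of tuples

`tw G x s = sign s • G (x ∘ s)`; if `G` is skew in the positions of `P` then this depends only on the values of
`s` outside `P`. -/

set_option autoImplicit false

open Equiv Finset

namespace Pool.Agent.MalP.W5

universe u v w

section Tw

variable {n : ℕ} {A : Type v} {B : Type w} [AddCommGroup B]

/-- the twisted values -/
def tw (G : (Fin n → A) → B) (x : Fin n → A) (s : Perm (Fin n)) : B := Perm.sign s • G (x ∘ s)

theorem tw_one (G : (Fin n → A) → B) (x : Fin n → A) : tw G x 1 = G x := by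
  unfold tw
  rw [Perm.sign_one, one_smul]
  rfl

theorem tw_comp (G : (Fin n → A) → B) (x : Fin n → A) (t s : Perm (Fin n)) :
    tw G (x ∘ t) s = Perm.sign t • tw G x (t * s) := by
  unfold tw
  rw [smul_smul, Perm.sign_mul, ← mul_assoc, Int.units_mul_self, one_mul]
  rfl

theorem tw_add (G H : (Fin n → A) → B) (x : Fin n → A) (s : Perm (Fin n)) :
    tw (fun y => G y + H y) x s = tw G x s + tw H x s := by
  unfold tw
  rw [smul_add]

/-- skew in the positions of `P` -/
def SkP (P : Fin n → Prop) (G : (Fin n → A) → B) : Prop :=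
  ∀ i j, P i → P j → i ≠ j → ∀ x, G (x ∘ swap i j) = - G x

theorem SkP.perm {P : Fin n → Prop} [DecidablePred P] {G : (Fin n → A) → B} (hG : SkP P G)
    (s : Perm (Fin n)) (hs : ∀ i, ¬ P i → s i = i) (x : Fin n → A) :
    G (x ∘ s) = Perm.sign s • G x := by
  have key : ∀ f : Perm {i // P i}, ∀ x : Fin n → A, G (x ∘ (Perm.ofSubtype f : Perm (Fin n))) =
      Perm.sign (Perm.ofSubtype f : Perm (Fin n)) • G x := by
    intro f
    induction f using Perm.swap_induction_on with
    | one =>
      intro x
      rw [map_one, Perm.sign_one, one_smul]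
      rfl
    | swap_mul f a b hab ih =>
      intro x
      rw [map_mul, Perm.ofSubtype_swap_eq]
      have h1 : x ∘ (swap (a : Fin n) b * Perm.ofSubtype f : Perm (Fin n)) =
          (x ∘ swap (a : Fin n) b) ∘ (Perm.ofSubtype f : Perm (Fin n)) := rfl
      have hab' : (a : Fin n) ≠ b := fun h => hab (Subtype.ext h)
      rw [h1, ih, hG a b a.2 b.2 hab', Perm.sign_mul, Perm.sign_swap hab', smul_neg, neg_one_mul,
        Units.neg_smul]
  have hP : ∀ i, P (s i) ↔ P i := by
    intro i
    constructor
    · intro h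
      by_contra h'
      rw [hs i h'] at h
      exact h' h
    · intro h
      by_contra h'
      have h2 := hs _ h'
      have h3 := s.injective h2
      rw [h3] at h'
      exact h' h
  have h1 := key (s.subtypePerm hP) x
  rw [Perm.ofSubtype_subtypePerm] at h1
  · exact h1
  · intro i hi
    by_contra h'
    exact hi (hs i h')

theorem SkP.tw_eq {P : Fin n → Prop} [DecidablePred P] {G : (Fin n → A) → B} (hG : SkP P G)
    {s t : Perm (Fin n)} (h : ∀ i, ¬ P i → s i = t i) (x : Fin n → A) : tw G x s = tw G x t := by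
  have h1 : s = t * (t⁻¹ * s) := by group
  have h2 := hG.perm (t⁻¹ * s) (fun i hi => by
    rw [Perm.mul_apply, h i hi]
    exact Equiv.symm_apply_apply t i) (x ∘ t)
  have h3 : x ∘ s = (x ∘ t) ∘ (t⁻¹ * s : Perm (Fin n)) := by
    funext i
    simp
  unfold tw
  rw [h3, h2, smul_smul, Perm.sign_mul, Perm.sign_inv, mul_comm (Perm.sign t), ← mul_assoc,
    Int.units_mul_self, one_mul]

/-- permutations with prescribed values -/
theorem exists_perm {k : ℕ} (f g : Fin k → Fin n) (hf : Function.Injective f)
    (hg : Function.Injective g) : ∃ s : Perm (Fin n), ∀ i, s (f i) = g i := by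
  classical
  let e : {x // x ∈ Set.range f} ≃ {x // x ∈ Set.range g} :=
    (Equiv.ofInjective f hf).symm.trans (Equiv.ofInjective g hg)
  refine ⟨e.extendSubtype, fun i => ?_⟩
  rw [Equiv.extendSubtype_apply_of_mem e (f i) ⟨i, rfl⟩]
  show ((Equiv.ofInjective g hg) ((Equiv.ofInjective f hf).symm ⟨f i, ⟨i, rfl⟩⟩) : Fin n) = g i
  have h1 : (Equiv.ofInjective f hf).symm ⟨f i, ⟨i, rfl⟩⟩ = i := by
    rw [Equiv.symm_apply_eq]
    rfl
  rw [h1]
  rfl

/-- the permutation which sends `i, j` to `a, b` -/
def pm2 (i j a b : Fin n) : Perm (Fin n) := swap j b * swap i (swap j b a)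

theorem pm2_i {i j a b : Fin n} : pm2 i j a b i = a := by
  unfold pm2
  rw [Perm.mul_apply, swap_apply_left, swap_apply_self]

theorem pm2_j {i j a b : Fin n} (hij : i ≠ j) (hab : a ≠ b) : pm2 i j a b j = b := by
  unfold pm2
  rw [Perm.mul_apply, swap_apply_of_ne_of_ne hij.symm, swap_apply_left]
  intro h
  rw [eq_comm, swap_apply_eq_iff, swap_apply_left] at h
  exact hab h

/-- skewness from adjacent transpositions along a chain of positions -/
theorem SkP_of_chain {m : ℕ} (p : Fin (m + 1) → Fin n) (hp : Function.Injective p)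
    {G : (Fin n → A) → B}
    (h : ∀ k : Fin m, ∀ x, G (x ∘ swap (p k.castSucc) (p k.succ)) = - G x) :
    SkP (fun i => ∃ k, p k = i) G := by
  have key : ∀ (d : ℕ) (i j : Fin (m + 1)), j.1 = i.1 + d + 1 → ∀ x,
      G (x ∘ swap (p i) (p j)) = - G x := by
    intro d
    induction d with
    | zero =>
      intro i j hij x
      have hi : i.1 < m := by have := j.2; omega
      have h1 := h ⟨i.1, hi⟩ x
      have e1 : (⟨i.1, hi⟩ : Fin m).castSucc = i := rfl
      have e2 : (⟨i.1, hi⟩ : Fin m).succ = j := Fin.ext hij.symm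
      rw [e1, e2] at h1
      exact h1
    | succ d ih =>
      intro i j hij x
      have hj : i.1 + d + 1 < m := by have := j.2; omega
      have h1 := h ⟨i.1 + d + 1, hj⟩
      set j' : Fin (m + 1) := (⟨i.1 + d + 1, hj⟩ : Fin m).castSucc with hj'
      have e2 : (⟨i.1 + d + 1, hj⟩ : Fin m).succ = j := Fin.ext (by
        show i.1 + d + 1 + 1 = j.1
        omega)
      rw [e2] at h1
      have h2 := ih i j' rfl
      have hij' : p i ≠ p j' := fun e => by
        have := congrArg Fin.val (hp e)
        rw [hj'] at this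
        simp only [Fin.val_castSucc] at this
        omega
      have hij2 : p i ≠ p j := fun e => by
        have := congrArg Fin.val (hp e)
        omega
      have e3 : swap (p i) (p j) = swap (p j') (p j) * swap (p i) (p j') * swap (p j') (p j) := by
        rw [Equiv.swap_mul_swap_mul_swap hij' hij2, swap_comm]
      have e4 : x ∘ (swap (p i) (p j) : Perm (Fin n)) =
          ((x ∘ swap (p j') (p j)) ∘ swap (p i) (p j')) ∘ swap (p j') (p j) := by
        rw [e3]
        rfl
      rw [e4, h1, h2, h1, neg_neg]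
  rintro _ _ ⟨i, rfl⟩ ⟨j, rfl⟩ hij x
  rcases lt_trichotomy i.1 j.1 with h1 | h1 | h1
  · exact key (j.1 - i.1 - 1) i j (by omega) x
  · exact absurd (congrArg p (Fin.ext h1)) hij
  · rw [swap_comm]
    exact key (i.1 - j.1 - 1) j i (by omega) x

theorem SkP.mono {P Q : Fin n → Prop} {G : (Fin n → A) → B} (hG : SkP P G) (h : ∀ i, Q i → P i) :
    SkP Q G :=
  fun i j hi hj hij x => hG i j (h i hi) (h j hj) hij x

end Tw

end Pool.Agent.MalP.W5
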