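import Pool.Agent.MalP.W5.Fw
import Pool.Agent.MalP.W5.Tw
import Pool.Agent.MalP.W5.Abs

/-! # p = 5, part (a): degree seven -/

set_option autoImplicit false

open Equiv Finset

namespace Pool.Agent.MalP.W5

open Pool.Agent.MalP

universe u v w

section

variable {A : Type v} [NonUnitalNonAssocRing A]

/-- `f(x0..x4;x5) x6` -/
def G1 (x : Fin 7 → A) : A := fv (x 0) (x 1) (x 2) (x 3) (x 4) (x 5) * x 6

/-- `f(x0 x1,x2,x3,x4,x5;x6)` -/
def G2 (x : Fin 7 → A) : A := fv (x 0 * x 1) (x 2) (x 3) (x 4) (x 5) (x 6)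

/-- `G1 x + G1 (x ∘ swap 4 6)` -/
def EE (x : Fin 7 → A) : A := G1 x + G1 (x ∘ swap 4 6)

/-- the twisted value of `f(..;v) b` -/
def Phi (x : Fin 7 → A) (v b : Fin 7) : A := tw G1 x (pm2 5 6 v b)

/-- the twisted value of `f(u v,..)` -/
def S2 (x : Fin 7 → A) (u v : Fin 7) : A := tw G2 x (pm2 0 1 u v)

variable (h : IsA5 A)

include h

theorem G1_skP : SkP (fun i : Fin 7 => ∃ k, (![0, 1, 2, 3, 4] : Fin 5 → Fin 7) k = i)
    (G1 : (Fin 7 → A) → A) := by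
  apply SkP_of_chain (m := 4) ![0, 1, 2, 3, 4] (by decide)
  intro k x
  fin_cases k
  · show fv (x 1) (x 0) (x 2) (x 3) (x 4) (x 5) * x 6 = - (fv (x 0) (x 1) (x 2) (x 3) (x 4) (x 5) * x 6)
    rw [h.sw01 (x 0), neg_mul]
  · show fv (x 0) (x 2) (x 1) (x 3) (x 4) (x 5) * x 6 = - (fv (x 0) (x 1) (x 2) (x 3) (x 4) (x 5) * x 6)
    rw [h.sw12 (x 0) (x 1), neg_mul]
  · show fv (x 0) (x 1) (x 3) (x 2) (x 4) (x 5) * x 6 = - (fv (x 0) (x 1) (x 2) (x 3) (x 4) (x 5) * x 6)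
    rw [h.sw23 (x 0) (x 1) (x 2), neg_mul]
  · show fv (x 0) (x 1) (x 2) (x 4) (x 3) (x 5) * x 6 = - (fv (x 0) (x 1) (x 2) (x 3) (x 4) (x 5) * x 6)
    rw [h.sw34 (x 0) (x 1) (x 2) (x 3), neg_mul]

theorem G2_skP : SkP (fun i : Fin 7 => ∃ k, (![2, 3, 4, 5, 6] : Fin 5 → Fin 7) k = i)
    (G2 : (Fin 7 → A) → A) := by
  apply SkP_of_chain (m := 4) ![2, 3, 4, 5, 6] (by decide)
  intro k x
  fin_cases k
  · show fv (x 0 * x 1) (x 3) (x 2) (x 4) (x 5) (x 6) = - fv (x 0 * x 1) (x 2) (x 3) (x 4) (x 5) (x 6)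
    rw [h.sw12 (x 0 * x 1) (x 2)]
  · show fv (x 0 * x 1) (x 2) (x 4) (x 3) (x 5) (x 6) = - fv (x 0 * x 1) (x 2) (x 3) (x 4) (x 5) (x 6)
    rw [h.sw23 (x 0 * x 1) (x 2) (x 3)]
  · show fv (x 0 * x 1) (x 2) (x 3) (x 5) (x 4) (x 6) = - fv (x 0 * x 1) (x 2) (x 3) (x 4) (x 5) (x 6)
    rw [h.sw34 (x 0 * x 1) (x 2) (x 3) (x 4)]
  · show fv (x 0 * x 1) (x 2) (x 3) (x 4) (x 6) (x 5) = - fv (x 0 * x 1) (x 2) (x 3) (x 4) (x 5) (x 6)
    rw [h.w2' (x 0) (x 1) (x 2) (x 3) (x 4) (x 5)]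

theorem EE_skP : SkP (fun i : Fin 7 => ∃ k, (![0, 1, 2, 3, 5] : Fin 5 → Fin 7) k = i)
    (EE : (Fin 7 → A) → A) := by
  apply SkP_of_chain (m := 4) ![0, 1, 2, 3, 5] (by decide)
  intro k x
  fin_cases k
  · show fv (x 1) (x 0) (x 2) (x 3) (x 4) (x 5) * x 6 + fv (x 1) (x 0) (x 2) (x 3) (x 6) (x 5) * x 4 =
      - (fv (x 0) (x 1) (x 2) (x 3) (x 4) (x 5) * x 6 + fv (x 0) (x 1) (x 2) (x 3) (x 6) (x 5) * x 4)
    rw [h.sw01 (x 0), h.sw01 (x 0), neg_mul, neg_mul]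
    abel
  · show fv (x 0) (x 2) (x 1) (x 3) (x 4) (x 5) * x 6 + fv (x 0) (x 2) (x 1) (x 3) (x 6) (x 5) * x 4 =
      - (fv (x 0) (x 1) (x 2) (x 3) (x 4) (x 5) * x 6 + fv (x 0) (x 1) (x 2) (x 3) (x 6) (x 5) * x 4)
    rw [h.sw12 (x 0) (x 1), h.sw12 (x 0) (x 1), neg_mul, neg_mul]
    abel
  · show fv (x 0) (x 1) (x 3) (x 2) (x 4) (x 5) * x 6 + fv (x 0) (x 1) (x 3) (x 2) (x 6) (x 5) * x 4 =
      - (fv (x 0) (x 1) (x 2) (x 3) (x 4) (x 5) * x 6 + fv (x 0) (x 1) (x 2) (x 3) (x 6) (x 5) * x 4)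
    rw [h.sw23 (x 0) (x 1) (x 2), h.sw23 (x 0) (x 1) (x 2), neg_mul, neg_mul]
    abel
  · show fv (x 0) (x 1) (x 2) (x 5) (x 4) (x 3) * x 6 + fv (x 0) (x 1) (x 2) (x 5) (x 6) (x 3) * x 4 =
      - (fv (x 0) (x 1) (x 2) (x 3) (x 4) (x 5) * x 6 + fv (x 0) (x 1) (x 2) (x 3) (x 6) (x 5) * x 4)
    exact h.w3'' (x 0) (x 1) (x 2) (x 3) (x 5) (x 4) (x 6)

/-- twisted values of `G1` -/
theorem tw_G1 (x : Fin 7 → A) (s : Perm (Fin 7)) : tw G1 x s = Phi x (s 5) (s 6) := by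
  unfold Phi
  apply (G1_skP h).tw_eq
  intro i hi
  have hi' : i = 5 ∨ i = 6 := by
    revert i
    decide
  rcases hi' with rfl | rfl
  · rw [pm2_i]
  · rw [pm2_j (by decide) (fun e => absurd (s.injective e) (by decide))]

theorem tw_G2 (x : Fin 7 → A) (s : Perm (Fin 7)) : tw G2 x s = S2 x (s 0) (s 1) := by
  unfold S2
  apply (G2_skP h).tw_eq
  intro i hi
  have hi' : i = 0 ∨ i = 1 := by
    revert i
    decide
  rcases hi' with rfl | rfl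
  · rw [pm2_i]
  · rw [pm2_j (by decide) (fun e => absurd (s.injective e) (by decide))]

theorem Phi_comp (x : Fin 7 → A) (t : Perm (Fin 7)) {v b : Fin 7} (hvb : v ≠ b) :
    Phi (x ∘ t) v b = Perm.sign t • Phi x (t v) (t b) := by
  have h1 : Phi (x ∘ t) v b = tw G1 (x ∘ t) (pm2 5 6 v b) := rfl
  rw [h1, tw_comp, tw_G1 h, Perm.mul_apply, Perm.mul_apply, pm2_i, pm2_j (by decide) hvb]

theorem S2_comp (x : Fin 7 → A) (t : Perm (Fin 7)) {u v : Fin 7} (huv : u ≠ v) :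
    S2 (x ∘ t) u v = Perm.sign t • S2 x (t u) (t v) := by
  have h1 : S2 (x ∘ t) u v = tw G2 (x ∘ t) (pm2 0 1 u v) := rfl
  rw [h1, tw_comp, tw_G2 h, Perm.mul_apply, Perm.mul_apply, pm2_i, pm2_j (by decide) huv]

omit h in
theorem exists_perm3 (i j k a b c : Fin 7) (hij : i ≠ j) (hik : i ≠ k) (hjk : j ≠ k) (hab : a ≠ b)
    (hac : a ≠ c) (hbc : b ≠ c) : ∃ s : Perm (Fin 7), s i = a ∧ s j = b ∧ s k = c := by
  obtain ⟨s, hs⟩ := exists_perm (n := 7) ![i, j, k] ![a, b, c]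
    (by
      intro p q hpq
      fin_cases p <;> fin_cases q <;> simp_all)
    (by
      intro p q hpq
      fin_cases p <;> fin_cases q <;> simp_all)
  exact ⟨s, hs 0, hs 1, hs 2⟩

omit h in
theorem exists_perm4 (i j k l a b c d : Fin 7) (hij : i ≠ j) (hik : i ≠ k) (hil : i ≠ l)
    (hjk : j ≠ k) (hjl : j ≠ l) (hkl : k ≠ l) (hab : a ≠ b) (hac : a ≠ c) (had : a ≠ d)
    (hbc : b ≠ c) (hbd : b ≠ d) (hcd : c ≠ d) :
    ∃ s : Perm (Fin 7), s i = a ∧ s j = b ∧ s k = c ∧ s l = d := by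
  obtain ⟨s, hs⟩ := exists_perm (n := 7) ![i, j, k, l] ![a, b, c, d]
    (by
      intro p q hpq
      fin_cases p <;> fin_cases q <;> simp_all)
    (by
      intro p q hpq
      fin_cases p <;> fin_cases q <;> simp_all)
  exact ⟨s, hs 0, hs 1, hs 2, hs 3⟩

/-- the first relation: `Phi a b - Phi a x` does not depend on `a` -/
theorem Phi_D (x : Fin 7 → A) (a a' y b : Fin 7) (h1 : a ≠ y) (h2 : a ≠ b) (h3 : a' ≠ y)
    (h4 : a' ≠ b) (h5 : y ≠ b) : Phi x a b - Phi x a y = Phi x a' b - Phi x a' y := by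
  have key : ∀ s : Perm (Fin 7), tw EE x s = Phi x (s 5) (s 6) - Phi x (s 5) (s 4) := by
    intro s
    have e1 : tw (EE : (Fin 7 → A) → A) x s = tw G1 x s + Perm.sign s • G1 ((x ∘ s) ∘ swap 4 6) := by
      unfold tw EE
      rw [smul_add]
    have e2 : tw G1 x (s * swap 4 6) = - (Perm.sign s • G1 ((x ∘ s) ∘ swap 4 6)) := by
      unfold tw
      rw [Perm.sign_mul, Perm.sign_swap (by decide), mul_neg_one, Units.neg_smul]
      rfl
    rw [e1, ← neg_eq_iff_eq_neg.2 e2, tw_G1 h, tw_G1 h, Perm.mul_apply, Perm.mul_apply,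
      swap_apply_of_ne_of_ne (by decide) (by decide), swap_apply_right, sub_eq_add_neg]
  obtain ⟨s, s5, s6, s4⟩ := exists_perm3 5 6 4 a b y (by decide) (by decide) (by decide) h2 h1 h5.symm
  obtain ⟨t, t5, t6, t4⟩ := exists_perm3 5 6 4 a' b y (by decide) (by decide) (by decide) h4 h3 h5.symm
  have e3 := key s
  have e4 := key t
  rw [s5, s6, s4] at e3
  rw [t5, t6, t4] at e4
  rw [← e3, ← e4]
  apply (EE_skP h).tw_eq
  intro i hi
  have hi' : i = 4 ∨ i = 6 := by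
    revert i
    decide
  rcases hi' with rfl | rfl
  · rw [s4, t4]
  · rw [s6, t6]

/-- `Phi x i 6` -/
theorem Phi_6 (x : Fin 7 → A) (s : Perm (Fin 7)) (hs : s 6 = 6) :
    Phi x (s 5) 6 = Perm.sign s • G1 (x ∘ s) := by
  have h1 := tw_G1 h x s
  rw [hs] at h1
  rw [← h1]
  rfl

omit h in
/-- the cycles used for `cc` -/
def cy (k : Fin 5) : Perm (Fin 7) :=
  ![⟨![1, 2, 3, 4, 5, 0, 6], ![5, 0, 1, 2, 3, 4, 6], by decide, by decide⟩,
    ⟨![0, 2, 3, 4, 5, 1, 6], ![0, 5, 1, 2, 3, 4, 6], by decide, by decide⟩,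
    ⟨![0, 1, 3, 4, 5, 2, 6], ![0, 1, 5, 2, 3, 4, 6], by decide, by decide⟩,
    ⟨![0, 1, 2, 4, 5, 3, 6], ![0, 1, 2, 5, 3, 4, 6], by decide, by decide⟩,
    ⟨![0, 1, 2, 3, 5, 4, 6], ![0, 1, 2, 3, 5, 4, 6], by decide, by decide⟩] k

omit h in
theorem cy_sign (k : Fin 5) : Perm.sign (cy k) = ![-1, 1, -1, 1, -1] k := by
  revert k
  decide +kernel

theorem Phi_c6 (x : Fin 7 → A) :
    Phi x 0 6 + Phi x 1 6 + Phi x 2 6 + Phi x 3 6 + Phi x 4 6 + Phi x 5 6 = 0 := by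
  have e0 := Phi_6 h x (cy 0) rfl
  have e1 := Phi_6 h x (cy 1) rfl
  have e2 := Phi_6 h x (cy 2) rfl
  have e3 := Phi_6 h x (cy 3) rfl
  have e4 := Phi_6 h x (cy 4) rfl
  have e5 := Phi_6 h x 1 rfl
  rw [cy_sign] at e0 e1 e2 e3 e4
  rw [Perm.sign_one, one_smul] at e5
  have f0 : Phi x 0 6 = - (fv (x 1) (x 2) (x 3) (x 4) (x 5) (x 0) * x 6) := by
    refine e0.trans ?_
    show (-1 : ℤˣ) • (fv (x 1) (x 2) (x 3) (x 4) (x 5) (x 0) * x 6) = _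
    rw [Units.neg_smul, one_smul]
  have f1 : Phi x 1 6 = fv (x 0) (x 2) (x 3) (x 4) (x 5) (x 1) * x 6 := by
    refine e1.trans ?_
    show (1 : ℤˣ) • (fv (x 0) (x 2) (x 3) (x 4) (x 5) (x 1) * x 6) = _
    rw [one_smul]
  have f2 : Phi x 2 6 = - (fv (x 0) (x 1) (x 3) (x 4) (x 5) (x 2) * x 6) := by
    refine e2.trans ?_
    show (-1 : ℤˣ) • (fv (x 0) (x 1) (x 3) (x 4) (x 5) (x 2) * x 6) = _
    rw [Units.neg_smul, one_smul]
  have f3 : Phi x 3 6 = fv (x 0) (x 1) (x 2) (x 4) (x 5) (x 3) * x 6 := by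
    refine e3.trans ?_
    show (1 : ℤˣ) • (fv (x 0) (x 1) (x 2) (x 4) (x 5) (x 3) * x 6) = _
    rw [one_smul]
  have f4 : Phi x 4 6 = - (fv (x 0) (x 1) (x 2) (x 3) (x 5) (x 4) * x 6) := by
    refine e4.trans ?_
    show (-1 : ℤˣ) • (fv (x 0) (x 1) (x 2) (x 3) (x 5) (x 4) * x 6) = _
    rw [Units.neg_smul, one_smul]
  have f5 : Phi x 5 6 = fv (x 0) (x 1) (x 2) (x 3) (x 4) (x 5) * x 6 := e5
  have hc := congrArg (fun z => - (z * x 6)) (h.c0 (x 0) (x 1) (x 2) (x 3) (x 4) (x 5))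
  simp only [cc, add_mul, sub_mul, zero_mul, neg_zero] at hc
  rw [f0, f1, f2, f3, f4, f5, ← hc]
  abel

theorem Phi_c (x : Fin 7 → A) (b : Fin 7) : ∑ w ∈ univ.erase b, Phi x w b = 0 := by
  have h1 := Phi_c6 h (x ∘ swap 6 b)
  have h2 : ∑ w ∈ univ.erase (6 : Fin 7), Phi (x ∘ swap 6 b) w 6 = 0 := by
    rw [← h1]
    have : (univ.erase (6 : Fin 7)) = {0, 1, 2, 3, 4, 5} := by decide
    rw [this, sum_insert (by decide), sum_insert (by decide), sum_insert (by decide),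
      sum_insert (by decide), sum_insert (by decide), sum_singleton]
    abel
  have h3 : ∑ w ∈ univ.erase (6 : Fin 7), Phi (x ∘ swap 6 b) w 6 =
      Perm.sign (swap 6 b) • ∑ w ∈ univ.erase b, Phi x w b := by
    rw [smul_sum]
    refine sum_bij (fun w _ => swap 6 b w) ?_ ?_ ?_ ?_
    · intro w hw
      rw [mem_erase] at hw ⊢
      refine ⟨fun e => hw.1 ?_, mem_univ _⟩
      rw [swap_apply_eq_iff, swap_apply_right] at e
      exact e
    · intro w _ w' _ e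
      exact (swap 6 b).injective e
    · intro w hw
      rw [mem_erase] at hw
      refine ⟨swap 6 b w, ?_, swap_apply_self _ _ _⟩
      rw [mem_erase]
      refine ⟨fun e => hw.1 ?_, mem_univ _⟩
      rw [swap_apply_eq_iff, swap_apply_left] at e
      exact e
    · intro w hw
      rw [mem_erase] at hw
      rw [Phi_comp h x _ hw.1, swap_apply_left]
  rw [h3] at h2
  exact (smul_eq_zero_iff_eq _).1 h2

theorem S2_symm (x : Fin 7 → A) (u v : Fin 7) (huv : u ≠ v) : S2 x u v = S2 x v u := by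
  have h1 := tw_G2 h x (pm2 0 1 u v)
  have h2 := tw_G2 h x (pm2 0 1 u v * swap 0 1)
  rw [pm2_i, pm2_j (by decide) huv] at h1
  rw [Perm.mul_apply, Perm.mul_apply, swap_apply_left, swap_apply_right, pm2_i,
    pm2_j (by decide) huv] at h2
  rw [← h1, ← h2]
  unfold tw
  rw [Perm.sign_mul, Perm.sign_swap (by decide), mul_neg_one, Units.neg_smul, ← smul_neg]
  congr 1
  set y := x ∘ (pm2 0 1 u v : Perm (Fin 7))
  show fv (y 0 * y 1) (y 2) (y 3) (y 4) (y 5) (y 6) = - fv (y 1 * y 0) (y 2) (y 3) (y 4) (y 5) (y 6)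
  rw [h.toIsMalcev.anti (y 0) (y 1), fv_neg0]

omit h in
/-- the permutations used for `w4` -/
def cz (k : Fin 2) : Perm (Fin 7) :=
  ![⟨![0, 1, 3, 4, 5, 6, 2], ![0, 1, 6, 2, 3, 4, 5], by decide, by decide⟩,
    ⟨![0, 2, 3, 4, 5, 6, 1], ![0, 6, 1, 2, 3, 4, 5], by decide, by decide⟩] k

omit h in
theorem cz_sign (k : Fin 2) : Perm.sign (cz k) = ![1, -1] k := by
  revert k
  decide +kernel

theorem S2_Phi0 (x : Fin 7 → A) : S2 x 0 1 - S2 x 0 2 = Phi x 6 2 - Phi x 6 1 := by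
  have e1 : tw G2 x 1 = S2 x 0 1 := tw_G2 h x 1
  have e2 : tw G2 x (swap 1 2) = S2 x 0 2 := tw_G2 h x (swap 1 2)
  have e3 : tw G1 x (cz 0) = Phi x 6 2 := tw_G1 h x (cz 0)
  have e4 : tw G1 x (cz 1) = Phi x 6 1 := tw_G1 h x (cz 1)
  have f2 : tw G2 x (swap 1 2) = - fv (x 0 * x 2) (x 1) (x 3) (x 4) (x 5) (x 6) := by
    unfold tw
    rw [Perm.sign_swap (by decide), Units.neg_smul, one_smul]
    rfl
  have f3 : tw G1 x (cz 0) = fv (x 0) (x 1) (x 3) (x 4) (x 5) (x 6) * x 2 := by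
    unfold tw
    rw [cz_sign]
    show (1 : ℤˣ) • _ = _
    rw [one_smul]
    rfl
  have f4 : tw G1 x (cz 1) = - (fv (x 0) (x 2) (x 3) (x 4) (x 5) (x 6) * x 1) := by
    unfold tw
    rw [cz_sign]
    show (-1 : ℤˣ) • _ = _
    rw [Units.neg_smul, one_smul]
    rfl
  rw [← e1, ← e2, ← e3, ← e4, tw_one, f2, f3, f4]
  have h1 := h.w4' (x 0) (x 1) (x 2) (x 3) (x 4) (x 5) (x 6)
  rw [sub_neg_eq_add, sub_neg_eq_add]
  exact h1

theorem S2_Phi (x : Fin 7 → A) (u v w y : Fin 7) (h1 : u ≠ v) (h2 : u ≠ w) (h3 : v ≠ w)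
    (h4 : y ≠ u) (h5 : y ≠ v) (h6 : y ≠ w) : S2 x u v - S2 x u w = Phi x y w - Phi x y v := by
  obtain ⟨s, s0, s1, s2, s6⟩ := exists_perm4 0 1 2 6 u v w y (by decide) (by decide) (by decide)
    (by decide) (by decide) (by decide) h1 h2 h4.symm h3 h5.symm h6.symm
  have e1 := S2_Phi0 h (x ∘ s)
  rw [S2_comp h x s (by decide), S2_comp h x s (by decide), Phi_comp h x s (by decide),
    Phi_comp h x s (by decide), s0, s1, s2, s6, ← smul_sub, ← smul_sub] at e1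
  exact smul_left_cancel _ e1

variable {F : Type u} [Field F] [Module F A] (h5 : (5 : F) = 0)

include h5

theorem exists_om (x : Fin 7 → A) : ∃ om : Fin 7 → A, (∀ u v, u ≠ v → S2 x u v = om u + om v) ∧
    ∀ v b, v ≠ b → Phi x v b = ∑ w ∈ (univ.erase b).erase v, om w :=
  absA h5 (by decide) (Phi x) (S2 x) (Phi_D h x) (Phi_c h x) (S2_symm h x)
    (fun u v w y h1 h2 h3 h4 h6 h7 => S2_Phi h x u v w y h1 h2 h3 h4 h6 h7)

end

end Pool.Agent.MalP.W5
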