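import Pool.Agent.MalP.W5.Fw

/-! # p = 5: derivations of Malcev algebras, Sagle's identity in operator form -/

set_option autoImplicit false
set_option linter.unusedSimpArgs false

open scoped BigOperators

namespace Pool.Agent.MalP.W5

open Pool.Agent.MalP

universe u v

section

variable {A : Type v} [NonUnitalNonAssocRing A]

/-- the map `v ↦ (v b) c - (v c) b + v (b c)` -/
def dl (b c v : A) : A := (v * b) * c - (v * c) * b + v * (b * c)

/-- the linearised Malcev identity -/
theorem lin (h : IsMalcev A) (x t y z : A) :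
    Jac x y (t * z) + Jac t y (x * z) - Jac x y z * t - Jac t y z * x = 0 := by
  have h1 := h.mal (x + t) y z
  have h2 := h.mal x y z
  have h3 := h.mal t y z
  have e1 : Jac (x + t) y ((x + t) * z) = Jac x y (x * z) + Jac x y (t * z) + Jac t y (x * z) +
      Jac t y (t * z) := by
    simp only [Jac, mul_add, add_mul]
    abel
  have e2 : Jac (x + t) y z * (x + t) = Jac x y z * x + Jac x y z * t + Jac t y z * x +
      Jac t y z * t := by
    simp only [Jac, mul_add, add_mul]
    abel
  rw [e1, e2, h2, h3] at h1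
  have h4 : Jac x y z * x + Jac x y (t * z) + Jac t y (x * z) + Jac t y z * t -
      (Jac x y z * x + Jac x y z * t + Jac t y z * x + Jac t y z * t) = 0 := sub_eq_zero.2 h1
  rw [← h4]
  abel

/-- twice the identity -/
theorem dl_two (h : IsMalcev A) (b c v w : A) :
    2 • (dl b c (v * w) - dl b c v * w - v * dl b c w) = 0 := by
  have ha := h.anti
  have r0 : w * v = -(v * w) := ha _ _
  have r1 : b * v = -(v * b) := ha _ _
  have r2 : c * v = -(v * c) := ha _ _
  have r3 : b * w = -(w * b) := ha _ _
  have r4 : c * w = -(w * c) := ha _ _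
  have r5 : c * b = -(b * c) := ha _ _
  have r6 : b * (v * w) = -((v * w) * b) := ha _ _
  have r7 : c * (v * w) = -((v * w) * c) := ha _ _
  have r8 : w * (v * b) = -((v * b) * w) := ha _ _
  have r9 : c * (v * b) = -((v * b) * c) := ha _ _
  have r10 : w * (v * c) = -((v * c) * w) := ha _ _
  have r11 : b * (v * c) = -((v * c) * b) := ha _ _
  have r12 : v * (w * b) = -((w * b) * v) := ha _ _
  have r13 : c * (w * b) = -((w * b) * c) := ha _ _
  have r14 : v * (w * c) = -((w * c) * v) := ha _ _
  have r15 : b * (w * c) = -((w * c) * b) := ha _ _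
  have r16 : v * (b * c) = -((b * c) * v) := ha _ _
  have r17 : w * (b * c) = -((b * c) * w) := ha _ _
  have r18 : c * ((v * w) * b) = -(((v * w) * b) * c) := ha _ _
  have r19 : b * ((v * w) * c) = -(((v * w) * c) * b) := ha _ _
  have r20 : c * ((v * b) * w) = -(((v * b) * w) * c) := ha _ _
  have r21 : w * ((v * b) * c) = -(((v * b) * c) * w) := ha _ _
  have r22 : b * ((v * c) * w) = -(((v * c) * w) * b) := ha _ _
  have r23 : w * ((v * c) * b) = -(((v * c) * b) * w) := ha _ _
  have r24 : c * ((w * b) * v) = -(((w * b) * v) * c) := ha _ _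
  have r25 : v * ((w * b) * c) = -(((w * b) * c) * v) := ha _ _
  have r26 : b * ((w * c) * v) = -(((w * c) * v) * b) := ha _ _
  have r27 : v * ((w * c) * b) = -(((w * c) * b) * v) := ha _ _
  have r28 : w * ((b * c) * v) = -(((b * c) * v) * w) := ha _ _
  have r29 : v * ((b * c) * w) = -(((b * c) * w) * v) := ha _ _
  have r30 : (w * b) * (v * c) = -((v * c) * (w * b)) := ha _ _
  have r31 : (w * c) * (v * b) = -((v * b) * (w * c)) := ha _ _
  have r32 : (b * c) * (v * w) = -((v * w) * (b * c)) := ha _ _
  have i1 := lin h b c w v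
  have i2 := lin h v b w c
  have i3 := lin h v b c w
  have i4 := lin h w b v c
  have key : 2 • (dl b c (v * w) - dl b c v * w - v * dl b c w) =
      (Jac b w (c * v) + Jac c w (b * v) - Jac b w v * c - Jac c w v * b) +
      2 • (Jac v w (b * c) + Jac b w (v * c) - Jac v w c * b - Jac b w c * v) +
      (Jac v c (b * w) + Jac b c (v * w) - Jac v c w * b - Jac b c w * v) -
      (Jac w v (b * c) + Jac b v (w * c) - Jac w v c * b - Jac b v c * w) := by
    simp only [Jac, dl, mul_add, add_mul, mul_sub, sub_mul, mul_neg, neg_mul, neg_neg, r0, r1, r2, r3, r4, r5, r6, r7, r8, r9, r10, r11, r12, r13, r14, r15, r16, r17, r18, r19, r20, r21, r22, r23, r24, r25, r26, r27, r28, r29, r30, r31, r32]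
    abel
  rw [key, i1, i2, i3, i4]
  simp

/-- the Leibniz rule for the Jacobian -/
theorem der_Jac (D : A → A) (hadd : ∀ a b, D (a + b) = D a + D b)
    (hmul : ∀ a b, D (a * b) = D a * b + a * D b) (x y z : A) :
    D (Jac x y z) = Jac (D x) y z + Jac x (D y) z + Jac x y (D z) := by
  unfold Jac
  rw [hadd, hadd, hmul, hmul, hmul, hmul, hmul, hmul]
  simp only [add_mul]
  abel

/-- the Leibniz rule for `P108` -/
theorem der_P (D : A → A) (hadd : ∀ a b, D (a + b) = D a + D b)
    (hmul : ∀ a b, D (a * b) = D a * b + a * D b) (a b c d x : A) :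
    D (P108 a b c d x) = P108 (D a) b c d x + P108 a (D b) c d x + P108 a b (D c) d x +
      P108 a b c (D d) x + P108 a b c d (D x) := by
  let E : A →+ A := AddMonoidHom.mk' D hadd
  have hE : ∀ a, D a = E a := fun _ => rfl
  have hm : ∀ a b, E (a * b) = E a * b + a * E b := hmul
  have hJ : ∀ x y z, E (Jac x y z) = Jac (E x) y z + Jac x (E y) z + Jac x y (E z) :=
    der_Jac D hadd hmul
  unfold P108
  simp only [hE, map_add, map_sub, map_nsmul, hm, hJ, PSkewAux.Jac_add1, PSkewAux.Jac_add2,
    PSkewAux.Jac_add3, mul_add, add_mul, smul_add, smul_sub]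
  abel

/-- the Leibniz rule for `fv` -/
theorem der_fv (D : A → A) (hadd : ∀ a b, D (a + b) = D a + D b)
    (hmul : ∀ a b, D (a * b) = D a * b + a * D b) (x0 x1 x2 x3 x4 v : A) :
    D (fv x0 x1 x2 x3 x4 v) = fv (D x0) x1 x2 x3 x4 v + fv x0 (D x1) x2 x3 x4 v +
      fv x0 x1 (D x2) x3 x4 v + fv x0 x1 x2 (D x3) x4 v + fv x0 x1 x2 x3 (D x4) v +
      fv x0 x1 x2 x3 x4 (D v) := by
  have hneg : ∀ a b, D (a - b) = D a - D b := fun a b => map_sub (AddMonoidHom.mk' D hadd) a b
  unfold fv
  rw [hneg, hmul, der_P D hadd hmul, der_P D hadd hmul, hmul, P_addx]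
  simp only [add_mul]
  abel

end

section

variable (F : Type u) [Field F] {A : Type v} [NonUnitalNonAssocRing A] [Module F A]

theorem cancel2 (h2 : (2 : F) ≠ 0) {a : A} (h : a + a = 0) : a = 0 := by
  have h3 : (2 : F) • a = 0 := by rw [two_smul]; exact h
  exact (smul_eq_zero.mp h3).resolve_left h2

/-- `dl b c` is a derivation of every Malcev algebra -/
theorem dl_mul (h2 : (2 : F) ≠ 0) (h : IsMalcev A) (b c v w : A) :
    dl b c (v * w) = dl b c v * w + v * dl b c w := by
  have h1 := dl_two h b c v w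
  rw [two_nsmul] at h1
  have h3 := cancel2 F h2 h1
  rw [sub_sub, sub_eq_zero] at h3
  exact h3

/-- **Sagle's identity** -/
theorem sagle4 (h2 : (2 : F) ≠ 0) (h : IsMalcev A) (x y z t : A) :
    (x * z) * (y * t) = ((x * y) * z) * t + ((y * z) * t) * x + ((z * t) * x) * y +
      ((t * x) * y) * z := by
  rw [← sub_eq_zero]
  apply cancel2 F h2
  have key : ((x * z) * (y * t) - (((x * y) * z) * t + ((y * z) * t) * x + ((z * t) * x) * y +
      ((t * x) * y) * z)) + ((x * z) * (y * t) - (((x * y) * z) * t + ((y * z) * t) * x +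
      ((z * t) * x) * y + ((t * x) * y) * z)) =
      (Jac x z (y * t) + Jac y z (x * t) - Jac x z t * y - Jac y z t * x) -
      (Jac x t (z * y) + Jac z t (x * y) - Jac x t y * z - Jac z t y * x) +
      (Jac t y (x * z) + Jac x y (t * z) - Jac t y z * x - Jac x y z * t) := by
    have r1 := h.anti y x
    have r2 := h.anti z x
    have r3 := h.anti t x
    have r4 := h.anti z y
    have r5 := h.anti t y
    have r6 := h.anti t z
    simp only [Jac, r1, r2, r3, r4, r5, r6, add_mul, neg_mul, mul_neg, neg_neg,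
      h.anti t (x * y), h.anti y (x * z), h.anti z (x * t), h.anti t (y * z), h.anti z (y * t),
      h.anti y (z * t), h.anti (z * t) (x * y), h.anti (y * t) (x * z), h.anti (y * z) (x * t)]
    abel
  rw [key, lin h x y z t, lin h x z t y, lin h t x y z]
  simp

/-- the operator form -/
theorem opSagle (h2 : (2 : F) ≠ 0) (h : IsMalcev A) (q y z t : A) :
    (q * z) * (y * t) + (q * (z * t)) * y =
      ((q * y) * z) * t - ((q * t) * y) * z - q * ((y * z) * t) := by
  rw [sagle4 F h2 h q y z t, h.anti ((y * z) * t) q, h.anti (z * t) q, h.anti t q]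
  simp only [neg_mul]
  abel

end

end Pool.Agent.MalP.W5
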