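import Pool.Agent.MalP.W5.Om
import Pool.Agent.MalP.W5.Der

/-! # p = 5, part (c): degree eight, part (d) -/

set_option autoImplicit false

open Equiv Finset

namespace Pool.Agent.MalP.W5

open Pool.Agent.MalP

universe u v w

variable (F : Type u) [Field F] {A : Type v} [NonUnitalNonAssocRing A] [Module F A]

/-- `w(x1..x6;x0) x7` -/
noncomputable def G3 (x : Fin 8 → A) : A := W7 F (fun i : Fin 7 => x i.castSucc) * x 7

/-- the twisted values -/
noncomputable def Be (x : Fin 8 → A) (y z : Fin 8) : A := tw (G3 F) x (pm2 0 7 y z)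

variable {F} (h : IsA5 A) (h5 : (5 : F) = 0)

include h h5

theorem W7_swap (x : Fin 7 → A) {i j : Fin 7} (hi : i ≠ 0) (hj : j ≠ 0) (hij : i ≠ j) :
    W7 F (x ∘ swap i j) = - W7 F x := by
  rw [W7_comp h h5, swap_apply_of_ne_of_ne hi.symm hj.symm, Perm.sign_swap hij, Units.neg_smul,
    one_smul]
  rfl

omit h h5 [Module F A] [NonUnitalNonAssocRing A] in
theorem cast_swap (x : Fin 8 → A) (i j : Fin 7) : (fun k : Fin 7 => (x ∘ swap i.castSucc j.castSucc) k.castSucc) =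
    (fun k : Fin 7 => x k.castSucc) ∘ swap i j := by
  funext k
  simp only [Function.comp_apply, swap_apply_def, Fin.castSucc_inj]
  split_ifs <;> rfl

theorem G3_skP : SkP (fun i : Fin 8 => ∃ k, (![1, 2, 3, 4, 5, 6] : Fin 6 → Fin 8) k = i)
    (G3 F : (Fin 8 → A) → A) := by
  apply SkP_of_chain (m := 5) ![1, 2, 3, 4, 5, 6] (by decide)
  have key : ∀ i j : Fin 7, i ≠ 0 → j ≠ 0 → i ≠ j → ∀ x : Fin 8 → A,
      G3 F (x ∘ swap i.castSucc j.castSucc) = - G3 F x := by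
    intro i j hi hj hij x
    unfold G3
    rw [cast_swap, W7_swap h h5 _ hi hj hij, neg_mul]
    congr 2
    rw [Function.comp_apply, swap_apply_of_ne_of_ne]
    · exact (Fin.castSucc_lt_last i).ne'
    · exact (Fin.castSucc_lt_last j).ne'
  intro k x
  fin_cases k
  · exact key 1 2 (by decide) (by decide) (by decide) x
  · exact key 2 3 (by decide) (by decide) (by decide) x
  · exact key 3 4 (by decide) (by decide) (by decide) x
  · exact key 4 5 (by decide) (by decide) (by decide) x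
  · exact key 5 6 (by decide) (by decide) (by decide) x

theorem tw_G3 (x : Fin 8 → A) (s : Perm (Fin 8)) : tw (G3 F) x s = Be F x (s 0) (s 7) := by
  unfold Be
  apply (G3_skP h h5).tw_eq
  intro i hi
  have hi' : i = 0 ∨ i = 7 := by
    revert i
    decide
  rcases hi' with rfl | rfl
  · rw [pm2_i]
  · rw [pm2_j (by decide) (fun e => absurd (s.injective e) (by decide))]

theorem Be_comp (x : Fin 8 → A) (t : Perm (Fin 8)) {y z : Fin 8} (hyz : y ≠ z) :
    Be F (x ∘ t) y z = Perm.sign t • Be F x (t y) (t z) := by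
  have h1 : Be F (x ∘ t) y z = tw (G3 F) (x ∘ t) (pm2 0 7 y z) := rfl
  rw [h1, tw_comp, tw_G3 h h5, Perm.mul_apply, Perm.mul_apply, pm2_i, pm2_j (by decide) hyz]

/-- `om` of the first seven arguments, times the last one -/
theorem om_mul (x : Fin 8 → A) (i : Fin 7) :
    om F (fun k : Fin 7 => x k.castSucc) i * x 7 = Be F x i.castSucc 7 := by
  by_cases hi : i = 0
  · have e1 := tw_G3 h h5 x 1
    rw [tw_one] at e1
    rw [hi]
    exact e1
  · have e1 := tw_G3 h h5 x (swap 0 i.castSucc)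
    have e2 : (swap 0 i.castSucc : Perm (Fin 8)) 7 = 7 := by
      rw [swap_apply_of_ne_of_ne (by decide)]
      exact (Fin.castSucc_lt_last i).ne'
    have hi' : (0 : Fin 8) ≠ i.castSucc := fun e => hi (Fin.castSucc_injective 7 e.symm)
    rw [swap_apply_left, e2] at e1
    rw [← e1]
    unfold tw
    rw [Perm.sign_swap hi', Units.neg_smul, one_smul]
    unfold G3
    have e3 := cast_swap x 0 i
    have e4 : (0 : Fin 7).castSucc = (0 : Fin 8) := rfl
    rw [e4] at e3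
    rw [e3, W7_comp h h5, swap_apply_left, Perm.sign_swap (Ne.symm hi), Units.neg_smul, one_smul,
      neg_mul, neg_neg]
    congr 1
    exact (congrArg x e2).symm

/-- `f(x0..x4;x5) x6 x7` -/
theorem P_Be (x : Fin 8 → A) : (fv (x 0) (x 1) (x 2) (x 3) (x 4) (x 5) * x 6) * x 7 =
    Be F x 0 7 + Be F x 1 7 + Be F x 2 7 + Be F x 3 7 + Be F x 4 7 := by
  have e1 := G1_om h h5 (fun k : Fin 7 => x k.castSucc)
  have e2 : G1 (fun k : Fin 7 => x k.castSucc) = fv (x 0) (x 1) (x 2) (x 3) (x 4) (x 5) * x 6 := rfl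
  rw [← e2, e1, add_mul, add_mul, add_mul, add_mul, om_mul h h5, om_mul h h5, om_mul h h5,
    om_mul h h5, om_mul h h5]
  rfl

/-- `f(x0 x1,x2,..,x5;x6) x7` -/
theorem T_Be (x : Fin 8 → A) : fv (x 0 * x 1) (x 2) (x 3) (x 4) (x 5) (x 6) * x 7 =
    Be F x 0 7 + Be F x 1 7 := by
  have e1 := G2_om h h5 (fun k : Fin 7 => x k.castSucc)
  have e2 : G2 (fun k : Fin 7 => x k.castSucc) = fv (x 0 * x 1) (x 2) (x 3) (x 4) (x 5) (x 6) := rfl
  rw [← e2, e1, add_mul, om_mul h h5, om_mul h h5]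
  rfl

omit h h5 in
/-- the permutations of the three terms -/
def cw (k : Fin 3) : Perm (Fin 8) :=
  ![⟨![0, 6, 1, 2, 3, 4, 5, 7], ![0, 2, 3, 4, 5, 6, 1, 7], by decide, by decide⟩,
    ⟨![0, 7, 1, 2, 3, 4, 5, 6], ![0, 2, 3, 4, 5, 6, 7, 1], by decide, by decide⟩,
    ⟨![6, 7, 1, 2, 3, 4, 5, 0], ![7, 2, 3, 4, 5, 6, 0, 1], by decide, by decide⟩] k

omit h h5 in
theorem cw_sign (k : Fin 3) : Perm.sign (cw k) = ![-1, 1, -1] k := by
  revert k
  decide +kernel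

/-- `f(x0 D, x1,..,x4; v)`, `D = [R_b,R_c] + R_{bc}`, `b = x6`, `c = x7` -/
theorem term0 (x : Fin 8 → A) : fv (dl (x 6) (x 7) (x 0)) (x 1) (x 2) (x 3) (x 4) (x 5) =
    (Be F x 0 7 + Be F x 6 7) + (Be F x 0 6 + Be F x 7 6) - (Be F x 6 0 + Be F x 7 0) := by
  have e0 : dl (x 6) (x 7) (x 0) =
      (x 0 * x 6) * x 7 + (-((x 0 * x 7) * x 6)) + (-((x 6 * x 7) * x 0)) := by
    unfold dl
    rw [h.toIsMalcev.anti (x 0) (x 6 * x 7), sub_eq_add_neg]
  have f1 := T_Be h h5 (x ∘ cw 0)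
  have f2 := T_Be h h5 (x ∘ cw 1)
  have f3 := T_Be h h5 (x ∘ cw 2)
  rw [Be_comp h h5 _ _ (by decide), Be_comp h h5 _ _ (by decide), cw_sign, ← smul_add] at f1 f2 f3
  have g1 : fv (x 0 * x 6) (x 1) (x 2) (x 3) (x 4) (x 5) * x 7 = - (Be F x 0 7 + Be F x 6 7) := by
    refine f1.trans ?_
    show (-1 : ℤˣ) • (Be F x 0 7 + Be F x 6 7) = _
    rw [Units.neg_smul, one_smul]
  have g2 : fv (x 0 * x 7) (x 1) (x 2) (x 3) (x 4) (x 5) * x 6 = Be F x 0 6 + Be F x 7 6 := by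
    refine f2.trans ?_
    show (1 : ℤˣ) • (Be F x 0 6 + Be F x 7 6) = _
    rw [one_smul]
  have g3 : fv (x 6 * x 7) (x 1) (x 2) (x 3) (x 4) (x 5) * x 0 = - (Be F x 6 0 + Be F x 7 0) := by
    refine f3.trans ?_
    show (-1 : ℤˣ) • (Be F x 6 0 + Be F x 7 0) = _
    rw [Units.neg_smul, one_smul]
  rw [e0, fv_add0, fv_add0, fv_neg0, fv_neg0, fv_prod_mul h h5, fv_prod_mul h h5, fv_prod_mul h h5,
    g1, g2, g3]
  abel

/-- the terms of the derivation identity -/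
theorem termi (x : Fin 8 → A) (i : Fin 8) (hi0 : i ≠ 0) (hi5 : i ≠ 5) (hi6 : i ≠ 6) (hi7 : i ≠ 7) :
    - fv (dl (x 6) (x 7) (x i)) ((x ∘ swap 0 i) 1) ((x ∘ swap 0 i) 2) ((x ∘ swap 0 i) 3)
      ((x ∘ swap 0 i) 4) (x 5) =
    (Be F x i 7 + Be F x 6 7) + (Be F x i 6 + Be F x 7 6) - (Be F x 6 i + Be F x 7 i) := by
  have e1 := term0 h h5 (x ∘ swap 0 i)
  have s0 : (swap 0 i : Perm (Fin 8)) 0 = i := swap_apply_left _ _
  have s5 : (swap 0 i : Perm (Fin 8)) 5 = 5 := swap_apply_of_ne_of_ne (by decide) hi5.symm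
  have s6 : (swap 0 i : Perm (Fin 8)) 6 = 6 := swap_apply_of_ne_of_ne (by decide) hi6.symm
  have s7 : (swap 0 i : Perm (Fin 8)) 7 = 7 := swap_apply_of_ne_of_ne (by decide) hi7.symm
  rw [Be_comp h h5 _ _ (by decide), Be_comp h h5 _ _ (by decide), Be_comp h h5 _ _ (by decide),
    Be_comp h h5 _ _ (by decide), Be_comp h h5 _ _ (by decide), Be_comp h h5 _ _ (by decide),
    s0, s6, s7, Perm.sign_swap hi0.symm] at e1
  simp only [Units.neg_smul, one_smul] at e1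
  have t0 : (x ∘ swap 0 i) 0 = x i := congrArg x s0
  have t5 : (x ∘ swap 0 i) 5 = x 5 := congrArg x s5
  have t6 : (x ∘ swap 0 i) 6 = x 6 := congrArg x s6
  have t7 : (x ∘ swap 0 i) 7 = x 7 := congrArg x s7
  rw [t0, t5, t6, t7] at e1
  rw [e1]
  abel

/-- the derivation identity -/
theorem der_Be (x : Fin 8 → A) :
    (Be F x 6 0 + Be F x 7 0) + (Be F x 6 1 + Be F x 7 1) + (Be F x 6 2 + Be F x 7 2) +
      (Be F x 6 3 + Be F x 7 3) + (Be F x 6 4 + Be F x 7 4) = 0 := by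
  have h2 := two_ne h5
  have hadd : ∀ p q : A, dl (x 6) (x 7) (p + q) = dl (x 6) (x 7) p + dl (x 6) (x 7) q := by
    intro p q
    simp only [dl, add_mul]
    abel
  have e1 := der_fv (dl (x 6) (x 7)) hadd (dl_mul F h2 h.toIsMalcev (x 6) (x 7)) (x 0) (x 1) (x 2)
    (x 3) (x 4) (x 5)
  -- the left side
  have eL : dl (x 6) (x 7) (fv (x 0) (x 1) (x 2) (x 3) (x 4) (x 5)) =
      (Be F x 0 7 + Be F x 1 7 + Be F x 2 7 + Be F x 3 7 + Be F x 4 7) +
      (Be F x 0 6 + Be F x 1 6 + Be F x 2 6 + Be F x 3 6 + Be F x 4 6) := by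
    have f1 := P_Be h h5 x
    have f2 := P_Be h h5 (x ∘ swap 6 7)
    rw [Be_comp h h5 _ _ (by decide), Be_comp h h5 _ _ (by decide), Be_comp h h5 _ _ (by decide),
      Be_comp h h5 _ _ (by decide), Be_comp h h5 _ _ (by decide), Perm.sign_swap (by decide)] at f2
    simp only [Units.neg_smul, one_smul] at f2
    have f3 : (fv (x 0) (x 1) (x 2) (x 3) (x 4) (x 5) * x 7) * x 6 =
        -Be F x 0 6 + -Be F x 1 6 + -Be F x 2 6 + -Be F x 3 6 + -Be F x 4 6 := f2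
    unfold dl
    rw [f1, f3, fv_mul_prod h h5]
    abel
  -- the last term
  have e5 : fv (x 0) (x 1) (x 2) (x 3) (x 4) (dl (x 6) (x 7) (x 5)) = 0 := by
    have : dl (x 6) (x 7) (x 5) = (x 5 * x 6) * x 7 + (-(x 5 * x 7)) * x 6 + x 5 * (x 6 * x 7) := by
      unfold dl
      rw [neg_mul, sub_eq_add_neg]
    rw [this, fv_add5, fv_add5, h.w1, h.w1, h.w1, add_zero, add_zero]
  have t0 := term0 h h5 x
  have t1 := termi h h5 x 1 (by decide) (by decide) (by decide) (by decide)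
  have t2 := termi h h5 x 2 (by decide) (by decide) (by decide) (by decide)
  have t3 := termi h h5 x 3 (by decide) (by decide) (by decide) (by decide)
  have t4 := termi h h5 x 4 (by decide) (by decide) (by decide) (by decide)
  have u1 : fv (x 0) (dl (x 6) (x 7) (x 1)) (x 2) (x 3) (x 4) (x 5) =
      (Be F x 1 7 + Be F x 6 7) + (Be F x 1 6 + Be F x 7 6) - (Be F x 6 1 + Be F x 7 1) := by
    rw [← t1]
    show _ = - fv (dl (x 6) (x 7) (x 1)) (x 0) (x 2) (x 3) (x 4) (x 5)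
    rw [← h.sw01]
  have u2 : fv (x 0) (x 1) (dl (x 6) (x 7) (x 2)) (x 3) (x 4) (x 5) =
      (Be F x 2 7 + Be F x 6 7) + (Be F x 2 6 + Be F x 7 6) - (Be F x 6 2 + Be F x 7 2) := by
    rw [← t2]
    show _ = - fv (dl (x 6) (x 7) (x 2)) (x 1) (x 0) (x 3) (x 4) (x 5)
    rw [← h.sw02]
  have u3 : fv (x 0) (x 1) (x 2) (dl (x 6) (x 7) (x 3)) (x 4) (x 5) =
      (Be F x 3 7 + Be F x 6 7) + (Be F x 3 6 + Be F x 7 6) - (Be F x 6 3 + Be F x 7 3) := by
    rw [← t3]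
    show _ = - fv (dl (x 6) (x 7) (x 3)) (x 1) (x 2) (x 0) (x 4) (x 5)
    rw [← h.sw03]
  have u4 : fv (x 0) (x 1) (x 2) (x 3) (dl (x 6) (x 7) (x 4)) (x 5) =
      (Be F x 4 7 + Be F x 6 7) + (Be F x 4 6 + Be F x 7 6) - (Be F x 6 4 + Be F x 7 4) := by
    rw [← t4]
    show _ = - fv (dl (x 6) (x 7) (x 4)) (x 1) (x 2) (x 3) (x 0) (x 5)
    rw [← h.sw04]
  rw [eL, e5, t0, u1, u2, u3, u4] at e1
  have e6 := sub_eq_zero.2 e1
  have h67 := five_zero h5 (Be F x 6 7 + Be F x 7 6)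
  have e7 : (5 : ℕ) • (Be F x 6 7 + Be F x 7 6) = (Be F x 6 7 + Be F x 7 6) + (Be F x 6 7 + Be F x 7 6) +
      (Be F x 6 7 + Be F x 7 6) + (Be F x 6 7 + Be F x 7 6) + (Be F x 6 7 + Be F x 7 6) := by
    abel
  rw [e7] at h67
  rw [← sub_eq_zero] at h67
  have e8 := congrArg₂ (· + ·) e6 h67
  simp only [add_zero, sub_zero] at e8
  rw [← e8]
  abel

end Pool.Agent.MalP.W5
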