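import Pool.Agent.MalP.W5.C

/-! # p = 5, end of part (c), part (d) -/

set_option autoImplicit false

open Equiv Finset

namespace Pool.Agent.MalP.W5

open Pool.Agent.MalP

universe u v w

theorem exists_perm4' (i j k l a b c d : Fin 8) (hij : i ≠ j) (hik : i ≠ k) (hil : i ≠ l)
    (hjk : j ≠ k) (hjl : j ≠ l) (hkl : k ≠ l) (hab : a ≠ b) (hac : a ≠ c) (had : a ≠ d)
    (hbc : b ≠ c) (hbd : b ≠ d) (hcd : c ≠ d) :
    ∃ s : Perm (Fin 8), s i = a ∧ s j = b ∧ s k = c ∧ s l = d := by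
  obtain ⟨s, hs⟩ := exists_perm (n := 8) ![i, j, k, l] ![a, b, c, d]
    (by
      intro p q hpq
      fin_cases p <;> fin_cases q <;> simp_all)
    (by
      intro p q hpq
      fin_cases p <;> fin_cases q <;> simp_all)
  exact ⟨s, hs 0, hs 1, hs 2, hs 3⟩

theorem exists_out4 (u v w z : Fin 8) : ∃ a, a ≠ u ∧ a ≠ v ∧ a ≠ w ∧ a ≠ z := by
  by_contra h
  have h1 : ({u, v, w, z} : Finset (Fin 8)) = univ := by
    apply eq_univ_of_forall
    intro a
    by_contra ha
    simp only [mem_insert, mem_singleton, not_or] at ha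
    exact h ⟨a, ha.1, ha.2.1, ha.2.2.1, ha.2.2.2⟩
  have h2 : ({u, v, w, z} : Finset (Fin 8)).card ≤ 4 := card_le_four
  rw [h1, card_univ, Fintype.card_fin] at h2
  omega

section

variable {F : Type u} [Field F] {A : Type v} [NonUnitalNonAssocRing A] [Module F A]
  (h : IsA5 A) (h5 : (5 : F) = 0)

include h h5

theorem Be_g (x : Fin 8 → A) : Be F x 6 4 + Be F x 7 4 = Be F x 6 5 + Be F x 7 5 := by
  have e1 := der_Be h h5 x
  have e2 := der_Be h h5 (x ∘ swap 4 5)
  rw [Be_comp h h5 x _ (y := 6) (z := 0) (by decide), Be_comp h h5 x _ (y := 7) (z := 0) (by decide),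
    Be_comp h h5 x _ (y := 6) (z := 1) (by decide), Be_comp h h5 x _ (y := 7) (z := 1) (by decide),
    Be_comp h h5 x _ (y := 6) (z := 2) (by decide), Be_comp h h5 x _ (y := 7) (z := 2) (by decide),
    Be_comp h h5 x _ (y := 6) (z := 3) (by decide), Be_comp h h5 x _ (y := 7) (z := 3) (by decide),
    Be_comp h h5 x _ (y := 6) (z := 4) (by decide), Be_comp h h5 x _ (y := 7) (z := 4) (by decide),
    Perm.sign_swap (by decide)] at e2
  simp only [Units.neg_smul, one_smul] at e2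
  have e3 : -Be F x 6 0 + -Be F x 7 0 + (-Be F x 6 1 + -Be F x 7 1) + (-Be F x 6 2 + -Be F x 7 2) +
      (-Be F x 6 3 + -Be F x 7 3) + (-Be F x 6 5 + -Be F x 7 5) = 0 := e2
  have e4 := congrArg₂ (· + ·) e1 e3
  simp only [add_zero] at e4
  rw [← sub_eq_zero, ← e4]
  abel

theorem Be_g' (x : Fin 8 → A) (b c v v' : Fin 8) (h1 : b ≠ c) (h2 : b ≠ v) (h3 : b ≠ v')
    (h4 : c ≠ v) (h6 : c ≠ v') (h7 : v ≠ v') :
    Be F x b v + Be F x c v = Be F x b v' + Be F x c v' := by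
  obtain ⟨s, s6, s7, s4, s5⟩ := exists_perm4' 6 7 4 5 b c v v' (by decide) (by decide) (by decide)
    (by decide) (by decide) (by decide) h1 h2 h3 h4 h6 h7
  have e1 := Be_g h h5 (x ∘ s)
  rw [Be_comp h h5 x _ (y := 6) (z := 4) (by decide), Be_comp h h5 x _ (y := 7) (z := 4) (by decide),
    Be_comp h h5 x _ (y := 6) (z := 5) (by decide), Be_comp h h5 x _ (y := 7) (z := 5) (by decide),
    s4, s5, s6, s7, ← smul_add, ← smul_add] at e1
  exact smul_left_cancel _ e1

theorem Be_eq (x : Fin 8 → A) (b v v' : Fin 8) (h2 : b ≠ v) (h3 : b ≠ v') :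
    Be F x b v = Be F x b v' := by
  by_cases h7 : v = v'
  · rw [h7]
  obtain ⟨c, c1, c2, c3, _⟩ := exists_out4 b v v' v'
  obtain ⟨d, d1, d2, d3, d4⟩ := exists_out4 b v v' c
  have e1 := Be_g' h h5 x b c v v' c1.symm h2 h3 c2 c3 h7
  have e2 := Be_g' h h5 x b d v v' d1.symm h2 h3 d2 d3 h7
  have e3 := Be_g' h h5 x c d v v' d4.symm c2 c3 d2 d3 h7
  rw [← sub_eq_zero]
  apply cancel2 F (two_ne h5)
  have e4 := congrArg₂ (· - ·) (congrArg₂ (· + ·) e1 e2) e3
  rw [← sub_eq_zero] at e4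
  rw [← e4]
  abel

theorem G3_swap (x : Fin 8 → A) : G3 F (x ∘ swap 6 7) = - G3 F x := by
  have e1 := tw_G3 h h5 x 1
  rw [tw_one] at e1
  have e2 := tw_G3 h h5 x (swap 6 7)
  have e3 : tw (G3 F) x (swap 6 7) = - G3 F (x ∘ swap 6 7) := by
    unfold tw
    rw [Perm.sign_swap (by decide), Units.neg_smul, one_smul]
  rw [e3] at e2
  rw [e1, ← neg_eq_iff_eq_neg, e2]
  exact Be_eq h h5 x 0 6 7 (by decide) (by decide)

/-- twisted values of `f(x0..x4;x5) (x6 x7 + x7 x6)` -/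
theorem fv_anti (x0 x1 x2 x3 x4 v b c : A) :
    (fv x0 x1 x2 x3 x4 v * b) * c + (fv x0 x1 x2 x3 x4 v * c) * b = 0 := by
  have e1 := P_Be h h5 ![x0, x1, x2, x3, x4, v, b, c]
  have e2 := P_Be h h5 (![x0, x1, x2, x3, x4, v, b, c] ∘ swap 6 7)
  generalize hx : (![x0, x1, x2, x3, x4, v, b, c] : Fin 8 → A) = x at e1 e2
  have f1 : (fv x0 x1 x2 x3 x4 v * b) * c = (fv (x 0) (x 1) (x 2) (x 3) (x 4) (x 5) * x 6) * x 7 := by
    rw [← hx]
    rfl
  have f2 : (fv x0 x1 x2 x3 x4 v * c) * b = (fv ((x ∘ swap 6 7) 0) ((x ∘ swap 6 7) 1)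
      ((x ∘ swap 6 7) 2) ((x ∘ swap 6 7) 3) ((x ∘ swap 6 7) 4) ((x ∘ swap 6 7) 5) *
      (x ∘ swap 6 7) 6) * (x ∘ swap 6 7) 7 := by
    rw [← hx]
    rfl
  rw [f1, f2, e1, e2, Be_comp h h5 x _ (y := 0) (z := 7) (by decide),
    Be_comp h h5 x _ (y := 1) (z := 7) (by decide), Be_comp h h5 x _ (y := 2) (z := 7) (by decide),
    Be_comp h h5 x _ (y := 3) (z := 7) (by decide), Be_comp h h5 x _ (y := 4) (z := 7) (by decide),
    Perm.sign_swap (by decide)]
  simp only [Units.neg_smul, one_smul]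
  have g : ∀ i : Fin 8, i ≠ 6 → i ≠ 7 → Be F x ((swap 6 7 : Perm (Fin 8)) i)
      ((swap 6 7 : Perm (Fin 8)) 7) = Be F x i 7 := by
    intro i h1 h2
    rw [swap_apply_of_ne_of_ne h1 h2, swap_apply_right]
    exact Be_eq h h5 x i 6 7 h1 h2
  rw [g 0 (by decide) (by decide), g 1 (by decide) (by decide), g 2 (by decide) (by decide),
    g 3 (by decide) (by decide), g 4 (by decide) (by decide)]
  abel

end

/-- the property of the elements of `Q` -/
def PP {A : Type v} [NonUnitalNonAssocRing A] (q : A) : Prop :=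
  (∀ u v : A, q * (u * v) = 0) ∧ ∀ a b : A, (q * a) * b + (q * b) * a = 0

section PP

variable (F : Type u) [Field F] {A : Type v} [NonUnitalNonAssocRing A] [Module F A]

omit [Module F A] in
theorem PP_zero : PP (0 : A) := by
  constructor
  · intro u v
    rw [zero_mul]
  · intro a b
    simp

omit [Module F A] in
theorem PP_add {p q : A} (hp : PP p) (hq : PP q) : PP (p + q) := by
  constructor
  · intro u v
    rw [add_mul, hp.1, hq.1, add_zero]
  · intro a b
    have h1 := congrArg₂ (· + ·) (hp.2 a b) (hq.2 a b)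
    simp only [add_zero] at h1
    rw [← h1]
    simp only [add_mul]
    abel

theorem PP_smul [IsScalarTower F A A] (r : F) {q : A} (hq : PP q) : PP (r • q) := by
  constructor
  · intro u v
    rw [smul_mul_assoc, hq.1, smul_zero]
  · intro a b
    simp only [smul_mul_assoc]
    rw [← smul_add, hq.2, smul_zero]

/-- (d) -/
theorem PP_mul (h2 : (2 : F) ≠ 0) (h : IsMalcev A) {q : A} (hq : PP q) (z : A) : PP (q * z) := by
  have key : ∀ z u v : A, (q * z) * (u * v) = 0 := by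
    intro z u v
    have h1 := hq.2 z (u * v)
    rw [hq.1, zero_mul, add_zero] at h1
    exact h1
  refine ⟨key z, ?_⟩
  intro a b
  have h1 := opSagle F h2 h q z a b
  rw [key, hq.1, hq.1, zero_mul, add_zero, sub_zero] at h1
  have h3 := hq.2 b z
  have e1 : (q * b) * z = - ((q * z) * b) := eq_neg_of_add_eq_zero_left h3
  rw [e1, neg_mul, sub_neg_eq_add] at h1
  exact h1.symm

end PP

end Pool.Agent.MalP.W5
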