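import Pool.Agent.MalP.W5.D
import Pool.Agent.MalP.CList

/-! # p = 5: the elements `w(x1..xn;y)` -/

set_option autoImplicit false

open Equiv Finset

namespace Pool.Agent.MalP.W5

open Pool.Agent.MalP

universe u v w

section

variable {A : Type v} [NonUnitalNonAssocRing A]

/-- `f(x0,..,x4;a) b1 ⋯ bk` -/
def fw : List A → A → A
  | x0 :: x1 :: x2 :: x3 :: x4 :: t, a => t.foldl (· * ·) (fv x0 x1 x2 x3 x4 a)
  | _, _ => 0

theorem fw_cons (x0 x1 x2 x3 x4 : A) (t : List A) (a : A) :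
    fw (x0 :: x1 :: x2 :: x3 :: x4 :: t) a = t.foldl (· * ·) (fv x0 x1 x2 x3 x4 a) := rfl

omit [NonUnitalNonAssocRing A] in
theorem ex_cons5 {xs : List A} (h : 5 ≤ xs.length) : ∃ x0 x1 x2 x3 x4 t,
    xs = x0 :: x1 :: x2 :: x3 :: x4 :: t := by
  match xs, h with
  | x0 :: x1 :: x2 :: x3 :: x4 :: t, _ => exact ⟨x0, x1, x2, x3, x4, t, rfl⟩
  | [], h => simp at h
  | [_], h => simp at h
  | [_, _], h => simp at h
  | [_, _, _], h => simp at h
  | [_, _, _, _], h => simp at h

omit [NonUnitalNonAssocRing A] in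
theorem ex_cons6 {xs : List A} (h : 6 ≤ xs.length) : ∃ x0 x1 x2 x3 x4 x5 t,
    xs = x0 :: x1 :: x2 :: x3 :: x4 :: x5 :: t := by
  obtain ⟨x0, x1, x2, x3, x4, t, rfl⟩ := ex_cons5 (xs := xs) (by omega)
  rcases t with _ | ⟨x5, t⟩
  · simp at h
  · exact ⟨x0, x1, x2, x3, x4, x5, t, rfl⟩

theorem fw_append {xs : List A} (h : 5 ≤ xs.length) (b a : A) :
    fw (xs ++ [b]) a = fw xs a * b := by
  obtain ⟨x0, x1, x2, x3, x4, t, rfl⟩ := ex_cons5 h
  simp [fw_cons, List.foldl_append]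

end

variable (F : Type u) [Field F] {A : Type v} [NonUnitalNonAssocRing A] [Module F A]

/-- the element `w(x1,..,x6;y) x7 ⋯ xn` -/
noncomputable def wL : List A → A → A
  | x1 :: x2 :: x3 :: x4 :: x5 :: x6 :: t, y => t.foldl (· * ·) (W7 F ![y, x1, x2, x3, x4, x5, x6])
  | _, _ => 0

theorem wL_cons (x1 x2 x3 x4 x5 x6 : A) (t : List A) (y : A) :
    wL F (x1 :: x2 :: x3 :: x4 :: x5 :: x6 :: t) y =
      t.foldl (· * ·) (W7 F ![y, x1, x2, x3, x4, x5, x6]) := rfl

theorem wL_append {xs : List A} (h : 6 ≤ xs.length) (b a : A) :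
    wL F (xs ++ [b]) a = wL F xs a * b := by
  obtain ⟨x1, x2, x3, x4, x5, x6, t, rfl⟩ := ex_cons6 h
  simp [wL_cons, List.foldl_append]

theorem wL_append_list {xs : List A} (h : 6 ≤ xs.length) (bs : List A) (a : A) :
    wL F (xs ++ bs) a = bs.foldl (· * ·) (wL F xs a) := by
  obtain ⟨x1, x2, x3, x4, x5, x6, t, rfl⟩ := ex_cons6 h
  simp [wL_cons, List.foldl_append]

variable {F}

section

variable (h : IsA5 A) (h5 : (5 : F) = 0)

include h h5

theorem PP_fv (x0 x1 x2 x3 x4 v : A) : PP (fv x0 x1 x2 x3 x4 v) :=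
  ⟨fun p q => fv_mul_prod h h5 x0 x1 x2 x3 x4 v p q,
    fun b c => fv_anti h h5 x0 x1 x2 x3 x4 v b c⟩

theorem PP_neg {q : A} (hq : PP q) : PP (-q) := by
  constructor
  · intro u v
    rw [neg_mul, hq.1, neg_zero]
  · intro a b
    have := hq.2 a b
    rw [neg_mul, neg_mul, neg_mul, neg_mul, ← neg_add, this, neg_zero]

theorem PP_tw2 (x : Fin 7 → A) (s : Perm (Fin 7)) : PP (tw G2 x s) := by
  unfold tw
  rcases Int.units_eq_one_or (Perm.sign s) with h1 | h1
  · rw [h1, one_smul]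
    exact PP_fv h h5 _ _ _ _ _ _
  · rw [h1, Units.neg_smul, one_smul]
    exact PP_neg h h5 (PP_fv h h5 _ _ _ _ _ _)

variable [IsScalarTower F A A]

theorem PP_W7 (x : Fin 7 → A) : PP (W7 F x) := by
  unfold W7 om
  apply PP_smul
  rw [sub_eq_add_neg]
  exact PP_add (PP_add (PP_tw2 h h5 _ _) (PP_tw2 h h5 _ _)) (PP_neg h h5 (PP_tw2 h h5 _ _))

theorem PP_foldl (t : List A) : ∀ q : A, PP q → PP (t.foldl (· * ·) q) := by
  induction t with
  | nil => exact fun q hq => hq
  | cons b t ih => exact fun q hq => ih (q * b) (PP_mul F (two_ne h5) h.toIsMalcev hq b)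

theorem PP_wL (xs : List A) (y : A) : PP (wL F xs y) := by
  match xs with
  | x1 :: x2 :: x3 :: x4 :: x5 :: x6 :: t =>
    rw [wL_cons]
    exact PP_foldl h h5 t _ (PP_W7 h h5 _)
  | [] => exact PP_zero
  | [_] => exact PP_zero
  | [_, _] => exact PP_zero
  | [_, _, _] => exact PP_zero
  | [_, _, _, _] => exact PP_zero
  | [_, _, _, _, _] => exact PP_zero

theorem PP_fw (xs : List A) (y : A) : PP (fw xs y) := by
  match xs with
  | x1 :: x2 :: x3 :: x4 :: x5 :: t =>
    rw [fw_cons]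
    exact PP_foldl h h5 t _ (PP_fv h h5 _ _ _ _ _ _)
  | [] => exact PP_zero
  | [_] => exact PP_zero
  | [_, _] => exact PP_zero
  | [_, _, _] => exact PP_zero
  | [_, _, _, _] => exact PP_zero

omit h h5 [Module F A] [IsScalarTower F A A] in
theorem foldl_neg5 (t : List A) (q : A) : t.foldl (· * ·) (-q) = - t.foldl (· * ·) q := by
  induction t generalizing q with
  | nil => rfl
  | cons b t ih =>
    rw [List.foldl_cons, List.foldl_cons, neg_mul, ih]

omit [IsScalarTower F A A] in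
theorem W7_sw (y x1 x2 x3 x4 x5 x6 : A) (i j : Fin 7) (hi : i ≠ 0) (hj : j ≠ 0) (hij : i ≠ j)
    (x' : Fin 7 → A) (hx : x' = ![y, x1, x2, x3, x4, x5, x6] ∘ swap i j) :
    W7 F x' = - W7 F ![y, x1, x2, x3, x4, x5, x6] := by
  rw [hx, W7_swap h h5 _ hi hj hij]

/-- the elements `w(x1..xn;y)` are skew in `x1, .., xn` -/
theorem wL_swap (l1 : List A) (x y : A) (l2 : List A) (a : A)
    (hn : 6 ≤ (l1 ++ x :: y :: l2).length) :
    wL F (l1 ++ x :: y :: l2) a = - wL F (l1 ++ y :: x :: l2) a := by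
  match l1, l2, hn with
  | [], a3 :: a4 :: a5 :: a6 :: t, _ =>
    simp only [List.nil_append, wL_cons]
    rw [← foldl_neg5, W7_sw h h5 a y x a3 a4 a5 a6 1 2 (by decide) (by decide) (by decide)]
    funext k
    fin_cases k <;> rfl
  | [], [], hn => simp at hn
  | [], [_], hn => simp at hn
  | [], [_, _], hn => simp at hn
  | [], [_, _, _], hn => simp at hn
  | [x0], a4 :: a5 :: a6 :: t, _ =>
    simp only [List.cons_append, List.nil_append, wL_cons]
    rw [← foldl_neg5, W7_sw h h5 a x0 y x a4 a5 a6 2 3 (by decide) (by decide) (by decide)]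
    funext k
    fin_cases k <;> rfl
  | [x0], [], hn => simp at hn
  | [x0], [_], hn => simp at hn
  | [x0], [_, _], hn => simp at hn
  | [x0, x1], a5 :: a6 :: t, _ =>
    simp only [List.cons_append, List.nil_append, wL_cons]
    rw [← foldl_neg5, W7_sw h h5 a x0 x1 y x a5 a6 3 4 (by decide) (by decide) (by decide)]
    funext k
    fin_cases k <;> rfl
  | [x0, x1], [], hn => simp at hn
  | [x0, x1], [_], hn => simp at hn
  | [x0, x1, x2], a6 :: t, _ =>
    simp only [List.cons_append, List.nil_append, wL_cons]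
    rw [← foldl_neg5, W7_sw h h5 a x0 x1 x2 y x a6 4 5 (by decide) (by decide) (by decide)]
    funext k
    fin_cases k <;> rfl
  | [x0, x1, x2], [], hn => simp at hn
  | [x0, x1, x2, x3], t, _ =>
    simp only [List.cons_append, List.nil_append, wL_cons]
    rw [← foldl_neg5, W7_sw h h5 a x0 x1 x2 x3 y x 5 6 (by decide) (by decide) (by decide)]
    funext k
    fin_cases k <;> rfl
  | [x0, x1, x2, x3, x4], t, _ =>
    simp only [List.cons_append, List.nil_append, wL_cons, List.foldl_cons]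
    rw [← foldl_neg5]
    congr 1
    have e1 := G3_swap h h5 ![a, x0, x1, x2, x3, x4, y, x]
    have e2 : G3 F ![a, x0, x1, x2, x3, x4, y, x] = W7 F ![a, x0, x1, x2, x3, x4, y] * x := by
      unfold G3
      congr 2
      funext k
      fin_cases k <;> rfl
    have e3 : G3 F (![a, x0, x1, x2, x3, x4, y, x] ∘ swap 6 7) =
        W7 F ![a, x0, x1, x2, x3, x4, x] * y := by
      unfold G3
      congr 2
      funext k
      fin_cases k <;> rfl
    rw [← e2, ← e3, e1]
  | x0 :: x1 :: x2 :: x3 :: x4 :: x5 :: t1, t, _ =>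
    have h6 : 6 ≤ (x0 :: x1 :: x2 :: x3 :: x4 :: x5 :: t1).length := by simp
    rw [wL_append_list F h6, wL_append_list F h6]
    simp only [List.foldl_cons]
    rw [← foldl_neg5]
    congr 1
    exact eq_neg_of_add_eq_zero_left ((PP_wL h h5 (x0 :: x1 :: x2 :: x3 :: x4 :: x5 :: t1) a).2 x y)

theorem wL_skew (n : ℕ) (hn : 6 ≤ n) (a : A) : SkewL n (fun U => wL F U a) := by
  intro l1 x y l2 hl
  exact wL_swap h h5 l1 x y l2 a (by omega)

end

end Pool.Agent.MalP.W5
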