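import Pool.Agent.MalP.W5.Om
import Pool.Agent.MalP.BhatMal

/-! # p = 5: the `w`-parts of `fv`, `cc`, `W7` in the model algebra -/

set_option autoImplicit false
set_option linter.unusedSimpArgs false

open Equiv Finset

namespace Pool.Agent.MalP.W5

open Pool.Agent.MalP

universe u

variable {F : Type u} [Field F]

/-- the `w`-part minus the `v`-part -/
noncomputable def ht (x : Bh F) (i : ℕ) : Ex F := x.w i - x.v i • 1

theorem ht_mul (x y : Bh F) (i : ℕ) : ht (x * y) i = ht x i * ix y.v - ht y i * ix x.v := by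
  unfold ht
  rw [Bh.w_mul, Bh.v_mul]
  simp only [sub_mul, smul_mul_assoc, one_mul, Finsupp.coe_zero, Pi.zero_apply, zero_smul, sub_zero]
  abel

theorem ht_add (x y : Bh F) (i : ℕ) : ht (x + y) i = ht x i + ht y i := by
  unfold ht
  rw [Bh.w_add, Bh.v_add, Finsupp.add_apply, add_smul]
  abel

theorem ht_sub (x y : Bh F) (i : ℕ) : ht (x - y) i = ht x i - ht y i := by
  unfold ht
  rw [Bh.w_sub, Bh.v_sub, Finsupp.sub_apply, sub_smul]
  abel

theorem ht_nsmul (n : ℕ) (x : Bh F) (i : ℕ) : ht (n • x) i = n • ht x i := by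
  let H : Bh F →+ Ex F := AddMonoidHom.mk' (fun x => ht x i) (fun x y => ht_add x y i)
  exact map_nsmul H n x

theorem v_nsmul' (n : ℕ) (x : Bh F) : (n • x).v = n • x.v := by
  let H : Bh F →+ VL F := AddMonoidHom.mk' Bh.v (fun _ _ => rfl)
  exact map_nsmul H n x

theorem Jac_v (x y z : Bh F) : (Jac x y z).v = 0 := by
  unfold Jac
  simp

theorem ht_Jac (x y z : Bh F) (i : ℕ) : ht (Jac x y z) i =
    (2 : F) • (ht x i * (ix y.v * ix z.v) - ht y i * (ix x.v * ix z.v) +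
      ht z i * (ix x.v * ix y.v)) := by
  unfold Jac
  simp only [ht_add, ht_mul, Bh.v_mul, map_zero, mul_zero, sub_zero, sub_mul, mul_assoc,
    ix_anti z.v y.v, ix_anti z.v x.v, ix_anti y.v x.v, mul_neg]
  module

theorem P108_v (a b c d x : Bh F) : (P108 a b c d x).v = 0 := by
  unfold P108
  simp only [Bh.v_add, Bh.v_sub, Jac_v, Bh.v_mul, v_nsmul', smul_zero, add_zero, sub_zero]

theorem ht_P (a b c d x : Bh F) (i : ℕ) : ht (P108 a b c d x) i =
    (24 : F) • (ht x i * (ix a.v * (ix b.v * (ix c.v * ix d.v))) +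
      ht a i * (ix x.v * (ix b.v * (ix c.v * ix d.v))) -
      ht b i * (ix x.v * (ix a.v * (ix c.v * ix d.v))) +
      ht c i * (ix x.v * (ix a.v * (ix b.v * ix d.v))) -
      ht d i * (ix x.v * (ix a.v * (ix b.v * ix c.v)))) := by
  have a1 := fun t => show ix a.v * (ix x.v * t) = - (ix x.v * (ix a.v * t)) by
    rw [← mul_assoc, ix_anti a.v x.v, neg_mul, mul_assoc]
  have a2 := fun t => show ix b.v * (ix x.v * t) = - (ix x.v * (ix b.v * t)) by
    rw [← mul_assoc, ix_anti b.v x.v, neg_mul, mul_assoc]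
  have a3 := fun t => show ix c.v * (ix x.v * t) = - (ix x.v * (ix c.v * t)) by
    rw [← mul_assoc, ix_anti c.v x.v, neg_mul, mul_assoc]
  have a4 := fun t => show ix d.v * (ix x.v * t) = - (ix x.v * (ix d.v * t)) by
    rw [← mul_assoc, ix_anti d.v x.v, neg_mul, mul_assoc]
  have a5 := fun t => show ix b.v * (ix a.v * t) = - (ix a.v * (ix b.v * t)) by
    rw [← mul_assoc, ix_anti b.v a.v, neg_mul, mul_assoc]
  have a6 := fun t => show ix c.v * (ix a.v * t) = - (ix a.v * (ix c.v * t)) by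
    rw [← mul_assoc, ix_anti c.v a.v, neg_mul, mul_assoc]
  have a7 := fun t => show ix d.v * (ix a.v * t) = - (ix a.v * (ix d.v * t)) by
    rw [← mul_assoc, ix_anti d.v a.v, neg_mul, mul_assoc]
  have a8 := fun t => show ix c.v * (ix b.v * t) = - (ix b.v * (ix c.v * t)) by
    rw [← mul_assoc, ix_anti c.v b.v, neg_mul, mul_assoc]
  have a9 := fun t => show ix d.v * (ix b.v * t) = - (ix b.v * (ix d.v * t)) by
    rw [← mul_assoc, ix_anti d.v b.v, neg_mul, mul_assoc]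
  have a10 := fun t => show ix d.v * (ix c.v * t) = - (ix c.v * (ix d.v * t)) by
    rw [← mul_assoc, ix_anti d.v c.v, neg_mul, mul_assoc]
  unfold P108
  simp only [ht_add, ht_sub, ht_nsmul, ht_Jac, ht_mul, Jac_v, Bh.v_mul, map_zero, mul_zero, zero_mul,
    sub_zero, zero_sub, add_zero, smul_zero, sub_mul, add_mul, neg_mul, mul_neg, mul_assoc, smul_mul_assoc,
    ix_anti a.v x.v, ix_anti b.v x.v, ix_anti c.v x.v, ix_anti d.v x.v, ix_anti b.v a.v,
    ix_anti c.v a.v, ix_anti d.v a.v, ix_anti c.v b.v, ix_anti d.v b.v, ix_anti d.v c.v,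
    a1, a2, a3, a4, a5, a6, a7, a8, a9, a10, neg_neg]
  module

theorem ht_fv (x0 x1 x2 x3 x4 v : Bh F) (i : ℕ) : ht (fv x0 x1 x2 x3 x4 v) i =
    -((24 : F) • (ht x0 i * (ix v.v * (ix x1.v * (ix x2.v * (ix x3.v * ix x4.v)))) -
      ht x1 i * (ix v.v * (ix x0.v * (ix x2.v * (ix x3.v * ix x4.v)))) +
      ht x2 i * (ix v.v * (ix x0.v * (ix x1.v * (ix x3.v * ix x4.v)))) -
      ht x3 i * (ix v.v * (ix x0.v * (ix x1.v * (ix x2.v * ix x4.v)))) +
      ht x4 i * (ix v.v * (ix x0.v * (ix x1.v * (ix x2.v * ix x3.v)))))) := by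
  have h4 : ix x4.v * (ix x0.v * (ix x1.v * (ix x2.v * ix x3.v))) =
      ix x0.v * (ix x1.v * (ix x2.v * (ix x3.v * ix x4.v))) := by
    rw [← mul_assoc, ix_anti x4.v x0.v, neg_mul, mul_assoc, ← mul_assoc (ix x4.v), ix_anti x4.v x1.v,
      neg_mul, mul_assoc, ← mul_assoc (ix x4.v), ix_anti x4.v x2.v, neg_mul, mul_assoc,
      ix_anti x4.v x3.v]
    simp only [mul_neg, neg_neg]
  unfold fv
  simp only [ht_sub, ht_mul, ht_P, P108_v, Bh.v_mul, map_zero, mul_zero, zero_mul, sub_zero, add_zero,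
    sub_mul, add_mul, smul_mul_assoc, mul_assoc, h4]
  module

theorem fv_v (x0 x1 x2 x3 x4 v : Bh F) : (fv x0 x1 x2 x3 x4 v).v = 0 := by
  unfold fv
  rw [Bh.v_sub, P108_v, Bh.v_mul, sub_zero]

theorem ht_G2 (x : Fin 7 → Bh F) (i : ℕ) : ht (G2 x) i =
    -((24 : F) • ((ht (x 0) i * ix (x 1).v - ht (x 1) i * ix (x 0).v) *
      (ix (x 2).v * (ix (x 3).v * (ix (x 4).v * (ix (x 5).v * ix (x 6).v)))))) := by
  have h4 : ix (x 6).v * (ix (x 2).v * (ix (x 3).v * (ix (x 4).v * ix (x 5).v))) =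
      ix (x 2).v * (ix (x 3).v * (ix (x 4).v * (ix (x 5).v * ix (x 6).v))) := by
    rw [← mul_assoc, ix_anti (x 6).v (x 2).v, neg_mul, mul_assoc, ← mul_assoc (ix (x 6).v),
      ix_anti (x 6).v (x 3).v, neg_mul, mul_assoc, ← mul_assoc (ix (x 6).v),
      ix_anti (x 6).v (x 4).v, neg_mul, mul_assoc, ix_anti (x 6).v (x 5).v]
    simp only [mul_neg, neg_neg]
  unfold G2
  rw [ht_fv, ht_mul]
  simp only [Bh.v_mul, map_zero, zero_mul, mul_zero, add_zero, sub_zero, zero_sub, h4]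

theorem W7_eq {A : Type*} [NonUnitalNonAssocRing A] [Module F A] (x : Fin 7 → A) :
    W7 F x = (2 : F)⁻¹ • (G2 x - G2 (x ∘ swap 1 2) - G2 (x ∘ (swap 1 2 * swap 0 2 : Perm (Fin 7)))) := by
  have e1 : S2 x 0 1 = G2 x := by
    have : pm2 (n := 7) 0 1 0 1 = 1 := by decide
    unfold S2
    rw [this, tw_one]
  have e2 : S2 x 0 2 = - G2 (x ∘ swap 1 2) := by
    have : pm2 (n := 7) 0 1 0 2 = swap 1 2 := by decide
    unfold S2 tw
    rw [this, Perm.sign_swap (by decide), Units.neg_smul, one_smul]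
  have e3 : S2 x 1 2 = G2 (x ∘ (swap 1 2 * swap 0 2 : Perm (Fin 7))) := by
    have : pm2 (n := 7) 0 1 1 2 = swap 1 2 * swap 0 2 := by decide
    unfold S2 tw
    rw [this, Perm.sign_mul, Perm.sign_swap (by decide), Perm.sign_swap (by decide),
      neg_mul_neg, one_mul, one_smul]
  have e4 : W7 F x = (2 : F)⁻¹ • (S2 x 0 1 + S2 x 0 2 - S2 x 1 2) := rfl
  rw [e4, e1, e2, e3, ← sub_eq_add_neg]

theorem ht_smul (c : F) (x : Bh F) (i : ℕ) : ht (c • x) i = c • ht x i := by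
  unfold ht
  rw [Bh.w_smul, Bh.v_smul, Finsupp.smul_apply, smul_eq_mul, mul_smul, smul_sub]

theorem ht_W7 (h2 : (2 : F) ≠ 0) (x : Fin 7 → Bh F) (i : ℕ) : ht (W7 F x) i =
    -((24 : F) • (ht (x 0) i * (ix (x 1).v * (ix (x 2).v * (ix (x 3).v * (ix (x 4).v *
      (ix (x 5).v * ix (x 6).v))))))) := by
  have a1 := fun t => show ix (x 2).v * (ix (x 1).v * t) = - (ix (x 1).v * (ix (x 2).v * t)) by
    rw [← mul_assoc, ix_anti (x 2).v (x 1).v, neg_mul, mul_assoc]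
  have a2 := fun t => show ix (x 1).v * (ix (x 0).v * t) = - (ix (x 0).v * (ix (x 1).v * t)) by
    rw [← mul_assoc, ix_anti (x 1).v (x 0).v, neg_mul, mul_assoc]
  have a3 := fun t => show ix (x 2).v * (ix (x 0).v * t) = - (ix (x 0).v * (ix (x 2).v * t)) by
    rw [← mul_assoc, ix_anti (x 2).v (x 0).v, neg_mul, mul_assoc]
  rw [W7_eq, ht_smul, ht_sub, ht_sub, ht_G2, ht_G2, ht_G2]
  have f1 : ∀ k : Fin 7, (x ∘ swap 1 2) k = x ((swap 1 2 : Perm (Fin 7)) k) := fun _ => rfl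
  have f2 : ∀ k : Fin 7, (x ∘ (swap 1 2 * swap 0 2 : Perm (Fin 7))) k =
    x ((swap 1 2 * swap 0 2 : Perm (Fin 7)) k) := fun _ => rfl
  have g0 : (swap 1 2 : Perm (Fin 7)) 0 = 0 := by decide
  have g1 : (swap 1 2 : Perm (Fin 7)) 1 = 2 := by decide
  have g2 : (swap 1 2 : Perm (Fin 7)) 2 = 1 := by decide
  have g3 : (swap 1 2 : Perm (Fin 7)) 3 = 3 := by decide
  have g4 : (swap 1 2 : Perm (Fin 7)) 4 = 4 := by decide
  have g5 : (swap 1 2 : Perm (Fin 7)) 5 = 5 := by decide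
  have g6 : (swap 1 2 : Perm (Fin 7)) 6 = 6 := by decide
  have k0 : (swap 1 2 * swap 0 2 : Perm (Fin 7)) 0 = 1 := by decide
  have k1 : (swap 1 2 * swap 0 2 : Perm (Fin 7)) 1 = 2 := by decide
  have k2 : (swap 1 2 * swap 0 2 : Perm (Fin 7)) 2 = 0 := by decide
  have k3 : (swap 1 2 * swap 0 2 : Perm (Fin 7)) 3 = 3 := by decide
  have k4 : (swap 1 2 * swap 0 2 : Perm (Fin 7)) 4 = 4 := by decide
  have k5 : (swap 1 2 * swap 0 2 : Perm (Fin 7)) 5 = 5 := by decide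
  have k6 : (swap 1 2 * swap 0 2 : Perm (Fin 7)) 6 = 6 := by decide
  simp only [f1, f2, g0, g1, g2, g3, g4, g5, g6, k0, k1, k2, k3, k4, k5, k6, sub_mul, mul_assoc,
    a1, a2, a3, mul_neg]
  generalize ht (x 0) i * (ix (x 1).v * (ix (x 2).v * (ix (x 3).v * (ix (x 4).v *
      (ix (x 5).v * ix (x 6).v))))) = P
  generalize ht (x 1) i * (ix (x 0).v * (ix (x 2).v * (ix (x 3).v * (ix (x 4).v *
      (ix (x 5).v * ix (x 6).v))))) = Q
  generalize ht (x 2) i * (ix (x 0).v * (ix (x 1).v * (ix (x 3).v * (ix (x 4).v *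
      (ix (x 5).v * ix (x 6).v))))) = R
  have e : -((24 : F) • (P - Q)) - -((24 : F) • (-P - R)) - -((24 : F) • (-Q - -R)) =
      (2 : F) • (-((24 : F) • P)) := by
    module
  rw [e, smul_smul, inv_mul_cancel₀ h2, one_smul]

theorem W7_v (x : Fin 7 → Bh F) : (W7 F x).v = 0 := by
  rw [W7_eq, Bh.v_smul, Bh.v_sub, Bh.v_sub]
  unfold G2
  rw [fv_v, fv_v, fv_v, sub_zero, sub_zero, smul_zero]

theorem cc_v (x0 x1 x2 x3 x4 x5 : Bh F) : (cc x0 x1 x2 x3 x4 x5).v = 0 := by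
  unfold cc
  simp only [Bh.v_sub, Bh.v_add, fv_v, sub_zero, add_zero]

theorem w_of_ht {x : Bh F} (hx : x.v = 0) (i : ℕ) : x.w i = ht x i := by
  unfold ht
  rw [hx, Finsupp.coe_zero, Pi.zero_apply, zero_smul, sub_zero]

theorem cc_w (h5 : (5 : F) = 0) (x0 x1 x2 x3 x4 x5 : Bh F) (i : ℕ) :
    (cc x0 x1 x2 x3 x4 x5).w i = 0 := by
  have sw : ∀ (a b : VL F) (t : Ex F), ix a * (ix b * t) = - (ix b * (ix a * t)) := by
    intro a b t
    rw [← mul_assoc, ix_anti a b, neg_mul, mul_assoc]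
  rw [w_of_ht (cc_v _ _ _ _ _ _)]
  unfold cc
  simp only [ht_sub, ht_add, ht_fv]
  simp only [sw x1.v x0.v, sw x2.v x0.v, sw x3.v x0.v, sw x4.v x0.v, sw x5.v x0.v,
    sw x2.v x1.v, sw x3.v x1.v, sw x4.v x1.v, sw x5.v x1.v, sw x3.v x2.v, sw x4.v x2.v,
    sw x5.v x2.v, sw x4.v x3.v, sw x5.v x3.v, sw x5.v x4.v,
    ix_anti x5.v x4.v, ix_anti x5.v x3.v, ix_anti x5.v x2.v, ix_anti x4.v x3.v,
    mul_neg, neg_neg]
  generalize ht x0 i * (ix x1.v * (ix x2.v * (ix x3.v * (ix x4.v * ix x5.v)))) = P0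
  generalize ht x1 i * (ix x0.v * (ix x2.v * (ix x3.v * (ix x4.v * ix x5.v)))) = P1
  generalize ht x2 i * (ix x0.v * (ix x1.v * (ix x3.v * (ix x4.v * ix x5.v)))) = P2
  generalize ht x3 i * (ix x0.v * (ix x1.v * (ix x2.v * (ix x4.v * ix x5.v)))) = P3
  generalize ht x4 i * (ix x0.v * (ix x1.v * (ix x2.v * (ix x3.v * ix x5.v)))) = P4
  generalize ht x5 i * (ix x0.v * (ix x1.v * (ix x2.v * (ix x3.v * ix x4.v)))) = P5
  have e : (5 : F) • ((24 : F) • (P0 - P1 + P2 - P3 + P4 - P5)) = 0 := by rw [h5, zero_smul]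
  rw [← e]
  module

end Pool.Agent.MalP.W5
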