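import Pool.Agent.MalP.W5.Q
import Pool.Agent.MalP.W5.V
import Pool.Agent.MalP.CPhi

/-! # p = 5: the elements of `QV` modulo `Qc`, seven letters and more -/

set_option autoImplicit false

open Equiv Finset

namespace Pool.Agent.MalP.W5

open Pool.Agent.MalP

universe u v w

section dup

variable {A : Type v} {B : Type w} [AddCommGroup B]

theorem SkewL_dup {n : ℕ} {f : List A → B} (hf : SkewL n f) (h2 : ∀ b : B, b + b = 0 → b = 0)
    (l1 l2 l3 : List A) (x : A) (hn : (l1 ++ x :: (l2 ++ x :: l3)).length = n) :
    f (l1 ++ x :: (l2 ++ x :: l3)) = 0 := by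
  apply h2
  have h1 := hf.swap l1 l2 l3 x x hn
  exact eq_neg_iff_add_eq_zero.1 h1

theorem exists_dup {U : List ℕ} {i : ℕ} (h : 2 ≤ (U : Multiset ℕ).count i) :
    ∃ l1 l2 l3 : List ℕ, U = l1 ++ i :: (l2 ++ i :: l3) := by
  rw [Multiset.coe_count] at h
  have h1 : i ∈ U := List.count_pos_iff.1 (by omega)
  obtain ⟨l1, r, rfl⟩ := List.append_of_mem h1
  by_cases h2 : i ∈ l1
  · obtain ⟨l0, r', rfl⟩ := List.append_of_mem h2
    exact ⟨l0, r', r, by simp⟩
  · rw [List.count_append, List.count_cons_self, List.count_eq_zero_of_not_mem h2] at h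
    have h3 : i ∈ r := List.count_pos_iff.1 (by omega)
    obtain ⟨l2, l3, rfl⟩ := List.append_of_mem h3
    exact ⟨l1, l2, l3, rfl⟩

end dup

variable (F : Type u) [Field F]

/-- the quotient of the free Malcev algebra by `Qc` -/
abbrev BQ : Type u := IQ (Qc F (FreeMalcev F ℕ)) (Qc_idl F)

/-- the quotient map -/
noncomputable abbrev pq : FreeMalcev F ℕ →ₙₐ[F] BQ F := IQ.mkHom (Qc_idl F)

/-- the letters of the quotient -/
noncomputable def zq (i : ℕ) : BQ F := pq F (FreeMalcev.of i)

variable {F}

theorem pq_eq_zero {p : FreeMalcev F ℕ} : pq F p = 0 ↔ p ∈ Qc F (FreeMalcev F ℕ) := IQ.mk_eq_zero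

theorem pq_fw (xs : List (FreeMagma ℕ)) (a : FreeMagma ℕ) :
    pq F (fw (xs.map wdM) (wdM a)) = fw (xs.map (evw (zq F))) (evw (zq F) a) := by
  have h1 : ∀ w : FreeMagma ℕ, pq F (wdM w) = evw (zq F) w := by
    intro w
    rw [wdM_eq_evw, hom_evw]
    rfl
  rw [hom_fw, List.map_map, h1]
  congr 1
  exact List.map_congr_left fun w _ => h1 w

section

variable (hB : IsA5 (BQ F)) (h5 : (5 : F) = 0)

theorem fw_skew5 {A : Type v} [NonUnitalNonAssocRing A] (h : IsA5 A) (a : A) :
    SkewL 5 (fun l : List A => fw l a) := by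
  intro l1 x y l2 hn
  rcases l1 with _ | ⟨p, _ | ⟨q, _ | ⟨r, _ | ⟨s, l1⟩⟩⟩⟩
  · rcases l2 with _ | ⟨p, _ | ⟨q, _ | ⟨r, _ | ⟨s, l2⟩⟩⟩⟩
    · simp at hn
    · simp at hn
    · simp at hn
    · exact h.sw01 y x p q r a
    · simp only [List.nil_append, List.length_cons] at hn
      omega
  · rcases l2 with _ | ⟨q, _ | ⟨r, _ | ⟨s, l2⟩⟩⟩
    · simp at hn
    · simp at hn
    · exact h.sw12 p y x q r a
    · simp only [List.cons_append, List.nil_append, List.length_cons] at hn
      omega
  · rcases l2 with _ | ⟨r, _ | ⟨s, l2⟩⟩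
    · simp at hn
    · exact h.sw23 p q y x r a
    · simp only [List.cons_append, List.nil_append, List.length_cons] at hn
      omega
  · rcases l2 with _ | ⟨s, l2⟩
    · exact h.sw34 p q r y x a
    · simp only [List.cons_append, List.nil_append, List.length_cons] at hn
      omega
  · simp only [List.cons_append, List.length_cons, List.length_append] at hn
    omega

theorem card_content (w : FreeMagma ℕ) : 1 ≤ Multiset.card (content w) := by
  induction w using FreeMagma.recOnMul with
  | ih1 i => simp [content]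
  | ih2 a b ha hb =>
    show 1 ≤ Multiset.card (content a + content b)
    rw [Multiset.card_add]
    omega

theorem card_sum (xs : List (FreeMagma ℕ)) : xs.length ≤ Multiset.card (xs.map content).sum := by
  induction xs with
  | nil => simp
  | cons w xs ih =>
    have := card_content w
    simp only [List.length_cons, List.map_cons, List.sum_cons, Multiset.card_add]
    omega

theorem Fm_small {m : Multiset ℕ} (hm : Multiset.card m < 6) : Fm F 5 m = ⊥ := by
  unfold Fm
  rw [Submodule.span_eq_bot]
  rintro q ⟨xs, a, hl, hc, rfl⟩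
  exfalso
  have h1 := card_sum xs
  have h2 := card_content a
  rw [← hc, Multiset.card_add] at hm
  omega

/-- the letters only, six letters -/
theorem card_one {w : FreeMagma ℕ} (h : Multiset.card (content w) = 1) : ∃ n, w = FreeMagma.of n := by
  rcases word_cases w with ⟨n, rfl⟩ | ⟨u, v, rfl⟩
  · exact ⟨n, rfl⟩
  · exfalso
    have e : content (FreeMagma.mul u v) = content u + content v := rfl
    rw [e, Multiset.card_add] at h
    have h1 := card_content u
    have h2 := card_content v
    omega

theorem Fm_six {m : Multiset ℕ} (hm : Multiset.card m = 6) : Fm F 5 m ≤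
    Submodule.span F {q | ∃ (U : List ℕ) (y : ℕ), U.length = 5 ∧ (U : Multiset ℕ) + {y} = m ∧
      q = fw (U.map FreeMalcev.of) (FreeMalcev.of y)} := by
  unfold Fm
  rw [Submodule.span_le]
  rintro q ⟨xs, a, hl, hc, rfl⟩
  have c1 := card_sum xs
  have c2 := card_content a
  have c3 : Multiset.card (xs.map content).sum + Multiset.card (content a) = 6 := by
    rw [← Multiset.card_add, hc, hm]
  have hxl : xs.length = 5 := by omega
  obtain ⟨w0, w1, w2, w3, w4, t, rfl⟩ := ex_cons5 hl
  have ht : t = [] := by
    rw [List.length_cons, List.length_cons, List.length_cons, List.length_cons,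
      List.length_cons] at hxl
    exact List.length_eq_zero_iff.1 (by omega)
  subst ht
  simp only [List.map_cons, List.sum_cons, List.map_nil, List.sum_nil, add_zero,
    Multiset.card_add] at c3
  have d0 := card_content w0
  have d1 := card_content w1
  have d2 := card_content w2
  have d3 := card_content w3
  have d4 := card_content w4
  obtain ⟨n0, rfl⟩ := card_one (w := w0) (by omega)
  obtain ⟨n1, rfl⟩ := card_one (w := w1) (by omega)
  obtain ⟨n2, rfl⟩ := card_one (w := w2) (by omega)
  obtain ⟨n3, rfl⟩ := card_one (w := w3) (by omega)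
  obtain ⟨n4, rfl⟩ := card_one (w := w4) (by omega)
  obtain ⟨n5, rfl⟩ := card_one (w := a) (by omega)
  apply Submodule.subset_span
  refine ⟨[n0, n1, n2, n3, n4], n5, rfl, ?_, ?_⟩
  · rw [← hc]
    rfl
  · simp only [List.map_cons, List.map_nil, of_eq_wdM]

include hB h5

/-- at least seven letters -/
theorem Fm_SP {m : Multiset ℕ} (hm : 7 ≤ Multiset.card m) {q : FreeMalcev F ℕ} (hq : q ∈ Fm F 5 m) :
    pq F q ∈ SP F (zq F) m := by
  unfold Fm at hq
  induction hq using Submodule.span_induction with
  | mem q hq =>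
    obtain ⟨xs, a, hl, hc, rfl⟩ := hq
    rw [pq_fw]
    obtain ⟨w0, w1, w2, w3, w4, t, rfl⟩ := ex_cons5 hl
    simp only [List.map_cons, fw_cons]
    simp only [List.map_cons, List.sum_cons] at hc
    by_cases ht : t = []
    · subst ht
      simp only [List.map_nil, List.sum_nil, add_zero] at hc
      rw [List.map_nil, List.foldl_nil]
      rcases L4 hB h5 (zq F) w0 w1 w2 w3 w4 a with h1 | ⟨n0, n1, n2, n3, n4, n5, rfl, rfl, rfl, rfl, rfl, rfl⟩
      · have e : content w0 + content w1 + content w2 + content w3 + content w4 + content a = m := by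
          rw [← hc]
          abel
        rw [e] at h1
        exact h1
      · exfalso
        have e : Multiset.card m = 6 := by
          rw [← hc]
          rfl
        omega
    · have h1 := L5 hB h5 (zq F) w0 w1 w2 w3 w4 a t ht
      have e : content w0 + content w1 + content w2 + content w3 + content w4 + content a +
          (t.map content).sum = m := by
        rw [← hc]
        abel
      rw [e] at h1
      exact h1
  | zero => rw [map_zero]; exact Submodule.zero_mem _
  | add x y _ _ hx hy => rw [map_add]; exact Submodule.add_mem _ hx hy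
  | smul r x _ hx => rw [map_smul]; exact Submodule.smul_mem _ _ hx

/-- **W5'**: multidegrees with a letter which occurs at least four times -/
theorem QV_high [C23 F] {m : Multiset ℕ} {i : ℕ} (hi : 4 ≤ m.count i) {q : FreeMalcev F ℕ}
    (hq : q ∈ QV F (FreeMalcev F ℕ)) (hm : q ∈ GM F m) : q ∈ Qc F (FreeMalcev F ℕ) := by
  have h2 : ∀ b : BQ F, b + b = 0 → b = 0 := fun b hb => cancel2 F (two_ne h5) hb
  have h1 := QV_GM hq hm
  rw [← pq_eq_zero]
  have hcnt : ∀ (U : List ℕ) (y : ℕ), (U : Multiset ℕ) + {y} = m → 2 ≤ (U : Multiset ℕ).count i := by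
    intro U y hU
    rw [← hU, Multiset.count_add] at hi
    have h3 : Multiset.count i ({y} : Multiset ℕ) ≤ 1 := by
      rw [Multiset.count_singleton]
      split_ifs <;> omega
    omega
  rcases Nat.lt_or_ge (Multiset.card m) 7 with h7 | h7
  · rcases Nat.lt_or_ge (Multiset.card m) 6 with h6 | h6
    · rw [Fm_small h6, Submodule.mem_bot] at h1
      rw [h1, map_zero]
    · have hm6 : Multiset.card m = 6 := by omega
      have h3 := Fm_six hm6 h1
      clear h1 hq hm
      induction h3 using Submodule.span_induction with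
      | mem q hq =>
        obtain ⟨U, y, hl, hc, rfl⟩ := hq
        obtain ⟨l1, l2, l3, hd⟩ := exists_dup (hcnt _ _ hc)
        have e1 : pq F (fw (U.map FreeMalcev.of) (FreeMalcev.of y)) =
            fw (U.map (zq F)) (zq F y) := by
          rw [hom_fw, List.map_map]
          rfl
        rw [e1, hd]
        have e2 := SkewL_dup (fw_skew5 hB (zq F y)) h2 (l1.map (zq F)) (l2.map (zq F))
          (l3.map (zq F)) (zq F i) (by
            rw [hd] at hl
            simp only [List.length_append, List.length_map, List.length_cons] at hl ⊢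
            exact hl)
        rw [← e2]
        simp
      | zero => rw [map_zero]
      | add x y _ _ hx hy => rw [map_add, hx, hy, add_zero]
      | smul r x _ hx => rw [map_smul, hx, smul_zero]
  · have h3 := Fm_SP hB h5 h7 h1
    unfold SP at h3
    have h4 : Submodule.span F {q : BQ F | ∃ (U : List ℕ) (y : ℕ), 6 ≤ U.length ∧
        (U : Multiset ℕ) + {y} = m ∧ q = wL F (U.map (zq F)) (zq F y)} = ⊥ := by
      rw [Submodule.span_eq_bot]
      rintro q ⟨U, y, hU, hUm, rfl⟩
      obtain ⟨l1, l2, l3, hd⟩ := exists_dup (hcnt _ _ hUm)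
      have e2 := SkewL_dup (wL_skew hB h5 U.length hU (zq F y)) h2 (l1.map (zq F)) (l2.map (zq F))
        (l3.map (zq F)) (zq F i) (by rw [hd]; simp)
      rw [← e2, hd]
      simp
    rw [h4, Submodule.mem_bot] at h3
    exact h3

end

end Pool.Agent.MalP.W5
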