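import Pool.Agent.MalP.W5.A

/-! # p = 5: the elements `om`, part (b) -/

set_option autoImplicit false

open Equiv Finset

namespace Pool.Agent.MalP.W5

open Pool.Agent.MalP

universe u v w

variable (F : Type u) [Field F] {A : Type v} [NonUnitalNonAssocRing A] [Module F A]

/-- the twisted elements `[x_i]` -/
noncomputable def om (x : Fin 7 → A) (i : Fin 7) : A :=
  (2 : F)⁻¹ • (S2 x i (i + 1) + S2 x i (i + 2) - S2 x (i + 1) (i + 2))

/-- the element `w(x1..x6;x0)` -/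
noncomputable def W7 (x : Fin 7 → A) : A := om F x 0

variable {F} (h : IsA5 A) (h5 : (5 : F) = 0)

include h h5

theorem om_spec (x : Fin 7 → A) : (∀ u v, u ≠ v → S2 x u v = om F x u + om F x v) ∧
    ∀ v b, v ≠ b → Phi x v b = ∑ w ∈ (univ.erase b).erase v, om F x w := by
  obtain ⟨o, h1, h2⟩ := exists_om h h5 x
  have h3 : om F x = o := by
    funext i
    unfold om
    have d1 : i ≠ i + 1 := by revert i; decide
    have d2 : i ≠ i + 2 := by revert i; decide
    have d3 : i + 1 ≠ i + 2 := by revert i; decide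
    rw [h1 _ _ d1, h1 _ _ d2, h1 _ _ d3]
    have e : o i + o (i + 1) + (o i + o (i + 2)) - (o (i + 1) + o (i + 2)) = o i + o i := by abel
    rw [e, ← two_smul F, smul_smul, inv_mul_cancel₀ (two_ne h5), one_smul]
  rw [h3]
  exact ⟨h1, h2⟩

theorem S2_om (x : Fin 7 → A) {u v : Fin 7} (huv : u ≠ v) : S2 x u v = om F x u + om F x v :=
  (om_spec h h5 x).1 u v huv

theorem Phi_om (x : Fin 7 → A) {v b : Fin 7} (hvb : v ≠ b) :
    Phi x v b = ∑ w ∈ (univ.erase b).erase v, om F x w := (om_spec h h5 x).2 v b hvb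

theorem om_eq (x : Fin 7 → A) {u v w : Fin 7} (h1 : u ≠ v) (h2 : u ≠ w) (h3 : v ≠ w) :
    om F x u = (2 : F)⁻¹ • (S2 x u v + S2 x u w - S2 x v w) := by
  rw [S2_om h h5 x h1, S2_om h h5 x h2, S2_om h h5 x h3]
  have e : ∀ p q r : A, p + q + (p + r) - (q + r) = p + p := fun p q r => by abel
  rw [e, ← two_smul F, smul_smul, inv_mul_cancel₀ (two_ne h5), one_smul]

theorem om_comp (x : Fin 7 → A) (t : Perm (Fin 7)) (i : Fin 7) :
    om F (x ∘ t) i = Perm.sign t • om F x (t i) := by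
  have d1 : i ≠ i + 1 := by revert i; decide
  have d2 : i ≠ i + 2 := by revert i; decide
  have d3 : i + 1 ≠ i + 2 := by revert i; decide
  have e1 : om F (x ∘ t) i = (2 : F)⁻¹ • (S2 (x ∘ t) i (i + 1) + S2 (x ∘ t) i (i + 2) -
    S2 (x ∘ t) (i + 1) (i + 2)) := rfl
  rw [e1, S2_comp h x t d1, S2_comp h x t d2, S2_comp h x t d3,
    om_eq h h5 x (t.injective.ne d1) (t.injective.ne d2) (t.injective.ne d3),
    ← smul_add, ← smul_sub, smul_comm]

theorem W7_comp (x : Fin 7 → A) (t : Perm (Fin 7)) :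
    W7 F (x ∘ t) = Perm.sign t • om F x (t 0) := om_comp h h5 x t 0

theorem om_W7 (x : Fin 7 → A) (t : Perm (Fin 7)) :
    om F x (t 0) = Perm.sign t • W7 F (x ∘ t) := by
  rw [W7_comp h h5, smul_smul, Int.units_mul_self, one_smul]

/-- (w1): one of the arguments is a product -/
theorem om_prod (x : Fin 7 → A) (k : Fin 7) (p q : A) (hx : x k = p * q) {i : Fin 7} (hi : i ≠ k) :
    om F x i = 0 := by
  have key : ∀ u v : Fin 7, u ≠ v → u ≠ k → v ≠ k → S2 x u v = 0 := by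
    intro u v huv huk hvk
    obtain ⟨s, s0, s1, s6⟩ := exists_perm3 0 1 6 u v k (by decide) (by decide) (by decide) huv huk hvk
    have e1 := tw_G2 h x s
    rw [s0, s1] at e1
    rw [← e1]
    unfold tw G2
    have e2 : (x ∘ s) 6 = p * q := by
      rw [Function.comp_apply, s6, hx]
    rw [e2, h.w1, smul_zero]
  obtain ⟨v, hv1, hv2⟩ := exists_out2 (ι := Fin 7) (by decide) i k
  obtain ⟨w, hw1, hw2, hw3⟩ := exists_out3 (ι := Fin 7) (by decide) i k v
  rw [om_eq h h5 x hv1.symm hw1.symm hw3.symm, key i v hv1.symm hi hv2, key i w hw1.symm hi hw2,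
    key v w hw3.symm hv2 hw2]
  simp

omit h h5 in
theorem erase56 : ((univ.erase (6 : Fin 7)).erase 5) = {0, 1, 2, 3, 4} := by decide

theorem G1_om (x : Fin 7 → A) : G1 x = om F x 0 + om F x 1 + om F x 2 + om F x 3 + om F x 4 := by
  have e1 : G1 x = Phi x 5 6 := by
    have := tw_G1 h x 1
    rw [tw_one] at this
    exact this
  rw [e1, Phi_om h h5 x (by decide), erase56, sum_insert (by decide), sum_insert (by decide),
    sum_insert (by decide), sum_insert (by decide), sum_singleton]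
  abel

theorem G2_om (x : Fin 7 → A) : G2 x = om F x 0 + om F x 1 := by
  have e1 : G2 x = S2 x 0 1 := by
    have := tw_G2 h x 1
    rw [tw_one] at this
    exact this
  rw [e1, S2_om h h5 x (by decide)]

/-- (b1) -/
theorem fv_mul_prod (x0 x1 x2 x3 x4 v p q : A) : fv x0 x1 x2 x3 x4 v * (p * q) = 0 := by
  have e1 := G1_om h h5 ![x0, x1, x2, x3, x4, v, p * q]
  have e2 : ∀ i : Fin 7, i ≠ 6 → om F ![x0, x1, x2, x3, x4, v, p * q] i = 0 := fun i hi =>
    om_prod h h5 _ 6 p q rfl hi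
  rw [e2 0 (by decide), e2 1 (by decide), e2 2 (by decide), e2 3 (by decide), e2 4 (by decide)] at e1
  simpa [G1] using e1

/-- (b2) -/
theorem fv_prod_mul (p q c x1 x2 x3 x4 v : A) :
    fv ((p * q) * c) x1 x2 x3 x4 v = - (fv (p * q) x1 x2 x3 x4 v * c) := by
  have e1 := G2_om h h5 ![p * q, c, x1, x2, x3, x4, v]
  rw [om_prod h h5 ![p * q, c, x1, x2, x3, x4, v] 0 p q rfl (i := 1) (by decide), add_zero] at e1
  let s : Perm (Fin 7) := ⟨![0, 2, 3, 4, 5, 6, 1], ![0, 6, 1, 2, 3, 4, 5], by decide, by decide⟩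
  have hs : Perm.sign s = -1 := by decide +kernel
  have e2 := G1_om h h5 (![p * q, c, x1, x2, x3, x4, v] ∘ s)
  have e3 : ∀ i : Fin 7, i ≠ 0 → om F (![p * q, c, x1, x2, x3, x4, v] ∘ s) i = 0 := fun i hi =>
    om_prod h h5 _ 0 p q rfl hi
  rw [e3 1 (by decide), e3 2 (by decide), e3 3 (by decide), e3 4 (by decide), om_comp h h5, hs] at e2
  have e4 : s 0 = 0 := rfl
  rw [e4, Units.neg_smul, one_smul, add_zero, add_zero, add_zero, add_zero] at e2
  have e5 : G2 ![p * q, c, x1, x2, x3, x4, v] = fv ((p * q) * c) x1 x2 x3 x4 v := rfl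
  have e6 : G1 (![p * q, c, x1, x2, x3, x4, v] ∘ s) = fv (p * q) x1 x2 x3 x4 v * c := rfl
  rw [← e5, ← e6, e1, e2, neg_neg]

omit h5 in
/-- (b3) -/
theorem fv_prod2 (p q r s x2 x3 x4 v : A) : fv (p * q) (r * s) x2 x3 x4 v = 0 := by
  rw [← neg_eq_zero, ← h.sw12, ← neg_eq_zero, ← h.sw23, ← neg_eq_zero, ← h.sw34, h.w2' p q, h.w1]
  simp

end Pool.Agent.MalP.W5
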