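import Pool.Agent.MalP.W5.R
import Pool.Agent.MalP.MGrad

/-! # p = 5: the ideals `QV` and `Qc`, homogeneous elements of `QV` -/

set_option autoImplicit false

open Equiv Finset

namespace Pool.Agent.MalP.W5

open Pool.Agent.MalP

universe u v w

variable (F : Type u) [Field F]

section defs

variable (A : Type v) [NonUnitalNonAssocRing A] [Module F A]

/-- the ideal generated by the values of `fv` -/
noncomputable def QV : Submodule F A :=
  sInf {I | IsIdl I ∧ ∀ x0 x1 x2 x3 x4 v : A, fv x0 x1 x2 x3 x4 v ∈ I}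

/-- the ideal generated by the values of `cc` -/
noncomputable def Qc : Submodule F A :=
  sInf {I | IsIdl I ∧ ∀ x0 x1 x2 x3 x4 x5 : A, cc x0 x1 x2 x3 x4 x5 ∈ I}

variable {A}

theorem QV_idl : IsIdl (QV F A) := by
  intro a ha b
  unfold QV at ha ⊢
  rw [Submodule.mem_sInf] at ha
  simp only [Submodule.mem_sInf]
  exact ⟨fun I hI => (hI.1 a (ha I hI) b).1, fun I hI => (hI.1 a (ha I hI) b).2⟩

theorem fv_mem_QV (x0 x1 x2 x3 x4 v : A) : fv x0 x1 x2 x3 x4 v ∈ QV F A := by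
  unfold QV
  rw [Submodule.mem_sInf]
  exact fun I hI => hI.2 x0 x1 x2 x3 x4 v

theorem QV_le {I : Submodule F A} (h1 : IsIdl I)
    (h2 : ∀ x0 x1 x2 x3 x4 v : A, fv x0 x1 x2 x3 x4 v ∈ I) : QV F A ≤ I := by
  unfold QV
  exact sInf_le ⟨h1, h2⟩

theorem Qc_idl : IsIdl (Qc F A) := by
  intro a ha b
  unfold Qc at ha ⊢
  rw [Submodule.mem_sInf] at ha
  simp only [Submodule.mem_sInf]
  exact ⟨fun I hI => (hI.1 a (ha I hI) b).1, fun I hI => (hI.1 a (ha I hI) b).2⟩

theorem cc_mem_Qc (x0 x1 x2 x3 x4 x5 : A) : cc x0 x1 x2 x3 x4 x5 ∈ Qc F A := by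
  unfold Qc
  rw [Submodule.mem_sInf]
  exact fun I hI => hI.2 x0 x1 x2 x3 x4 x5

theorem Qc_le {I : Submodule F A} (h1 : IsIdl I)
    (h2 : ∀ x0 x1 x2 x3 x4 x5 : A, cc x0 x1 x2 x3 x4 x5 ∈ I) : Qc F A ≤ I := by
  unfold Qc
  exact sInf_le ⟨h1, h2⟩

end defs

section hom

variable {F} {A : Type v} [NonUnitalNonAssocRing A] [Module F A]
  {B : Type w} [NonUnitalNonAssocRing B] [Module F B] (f : A →ₙₐ[F] B)

theorem hom_foldl5 (t : List A) : ∀ q : A, f (t.foldl (· * ·) q) = (t.map f).foldl (· * ·) (f q) := by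
  induction t with
  | nil => intro q; rfl
  | cons b t ih =>
    intro q
    simp only [List.foldl_cons, List.map_cons]
    rw [ih, map_mul]

theorem hom_fw (xs : List A) (a : A) : f (fw xs a) = fw (xs.map f) (f a) := by
  match xs with
  | x0 :: x1 :: x2 :: x3 :: x4 :: t =>
    simp only [List.map_cons, fw_cons]
    rw [hom_foldl5, hom_fv]
  | [] => exact map_zero f
  | [_] => exact map_zero f
  | [_, _] => exact map_zero f
  | [_, _, _] => exact map_zero f
  | [_, _, _, _] => exact map_zero f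

theorem hom_W7 (x : Fin 7 → A) : f (W7 F x) = W7 F (fun i => f (x i)) := by
  have hG : ∀ y : Fin 7 → A, f (G2 y) = G2 (fun i => f (y i)) := by
    intro y
    unfold G2
    rw [hom_fv, map_mul]
  have hT : ∀ (s : Perm (Fin 7)), f (tw G2 x s) = tw G2 (fun i => f (x i)) s := by
    intro s
    unfold tw
    rcases Int.units_eq_one_or (Perm.sign s) with h1 | h1
    · rw [h1, one_smul, one_smul, hG]
      rfl
    · rw [h1, Units.neg_smul, one_smul, Units.neg_smul, one_smul, map_neg, hG]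
      rfl
  unfold W7 om S2
  rw [map_smul, map_sub, map_add, hT, hT, hT]

theorem hom_wL (xs : List A) (a : A) : f (wL F xs a) = wL F (xs.map f) (f a) := by
  match xs with
  | x1 :: x2 :: x3 :: x4 :: x5 :: x6 :: t =>
    simp only [List.map_cons, wL_cons]
    rw [hom_foldl5, hom_W7]
    congr 2
    funext i
    fin_cases i <;> rfl
  | [] => exact map_zero f
  | [_] => exact map_zero f
  | [_, _] => exact map_zero f
  | [_, _, _] => exact map_zero f
  | [_, _, _, _] => exact map_zero f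
  | [_, _, _, _, _] => exact map_zero f

theorem hom_evw (z : ℕ → A) (w : FreeMagma ℕ) : f (evw z w) = evw (fun i => f (z i)) w := by
  induction w with
  | ih1 i => rfl
  | ih2 a b ha hb =>
    show f (evw z a * evw z b) = evw (fun i => f (z i)) a * evw (fun i => f (z i)) b
    rw [map_mul, ha, hb]

end hom

theorem wdM_eq_evw (w : FreeMagma ℕ) : (wdM w : FreeMalcev F ℕ) = evw FreeMalcev.of w := by
  induction w with
  | ih1 i => exact (of_eq_wdM i).symm
  | ih2 a b ha hb =>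
    show (wdM (FreeMagma.mul a b) : FreeMalcev F ℕ) = evw FreeMalcev.of a * evw FreeMalcev.of b
    rw [← ha, ← hb, wdM_mul]

section linear

variable {A : Type v} [NonUnitalNonAssocRing A] [Module F A] [IsScalarTower F A A]
  [SMulCommClass F A A]

theorem fv_lin0 (x1 x2 x3 x4 v : A) : ∃ g : A →ₗ[F] A, ∀ x, g x = fv x x1 x2 x3 x4 v := by
  obtain ⟨f1, h1⟩ := P108_lin_a F x1 x2 x3 (v * x4)
  obtain ⟨f2, h2⟩ := P108_lin_a F x1 x2 x3 v
  refine ⟨f1 - LinearMap.mulRight F x4 ∘ₗ f2, fun x => ?_⟩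
  rw [LinearMap.sub_apply, LinearMap.comp_apply, LinearMap.mulRight_apply, h1, h2]
  rfl

theorem fv_lin1 (x0 x2 x3 x4 v : A) : ∃ g : A →ₗ[F] A, ∀ x, g x = fv x0 x x2 x3 x4 v := by
  obtain ⟨f1, h1⟩ := P108_lin_b F x0 x2 x3 (v * x4)
  obtain ⟨f2, h2⟩ := P108_lin_b F x0 x2 x3 v
  refine ⟨f1 - LinearMap.mulRight F x4 ∘ₗ f2, fun x => ?_⟩
  rw [LinearMap.sub_apply, LinearMap.comp_apply, LinearMap.mulRight_apply, h1, h2]
  rfl

theorem fv_lin2 (x0 x1 x3 x4 v : A) : ∃ g : A →ₗ[F] A, ∀ x, g x = fv x0 x1 x x3 x4 v := by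
  obtain ⟨f1, h1⟩ := P108_lin_c F x0 x1 x3 (v * x4)
  obtain ⟨f2, h2⟩ := P108_lin_c F x0 x1 x3 v
  refine ⟨f1 - LinearMap.mulRight F x4 ∘ₗ f2, fun x => ?_⟩
  rw [LinearMap.sub_apply, LinearMap.comp_apply, LinearMap.mulRight_apply, h1, h2]
  rfl

theorem fv_lin3 (x0 x1 x2 x4 v : A) : ∃ g : A →ₗ[F] A, ∀ x, g x = fv x0 x1 x2 x x4 v := by
  obtain ⟨f1, h1⟩ := P108_lin_d F x0 x1 x2 (v * x4)
  obtain ⟨f2, h2⟩ := P108_lin_d F x0 x1 x2 v
  refine ⟨f1 - LinearMap.mulRight F x4 ∘ₗ f2, fun x => ?_⟩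
  rw [LinearMap.sub_apply, LinearMap.comp_apply, LinearMap.mulRight_apply, h1, h2]
  rfl

theorem fv_lin4 (x0 x1 x2 x3 v : A) : ∃ g : A →ₗ[F] A, ∀ x, g x = fv x0 x1 x2 x3 x v := by
  obtain ⟨f1, h1⟩ := P108_lin_x F x0 x1 x2 x3
  refine ⟨f1 ∘ₗ LinearMap.mulLeft F v - LinearMap.mulLeft F (P108 x0 x1 x2 x3 v), fun x => ?_⟩
  rw [LinearMap.sub_apply, LinearMap.comp_apply, LinearMap.mulLeft_apply, LinearMap.mulLeft_apply, h1]
  rfl

theorem fv_lin5 (x0 x1 x2 x3 x4 : A) : ∃ g : A →ₗ[F] A, ∀ x, g x = fv x0 x1 x2 x3 x4 x := by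
  obtain ⟨f1, h1⟩ := P108_lin_x F x0 x1 x2 x3
  refine ⟨f1 ∘ₗ LinearMap.mulRight F x4 - LinearMap.mulRight F x4 ∘ₗ f1, fun x => ?_⟩
  rw [LinearMap.sub_apply, LinearMap.comp_apply, LinearMap.comp_apply, LinearMap.mulRight_apply,
    LinearMap.mulRight_apply, h1, h1]
  rfl

end linear

/-- the span of the `fw (words) (word)` with at least `n` words in the list and total content `m` -/
noncomputable def Fm (n : ℕ) (m : Multiset ℕ) : Submodule F (FreeMalcev F ℕ) :=
  Submodule.span F {q | ∃ (xs : List (FreeMagma ℕ)) (a : FreeMagma ℕ), n ≤ xs.length ∧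
    (xs.map content).sum + content a = m ∧ q = fw (xs.map wdM) (wdM a)}

variable {F}

theorem red (g : FreeMalcev F ℕ →ₗ[F] FreeMalcev F ℕ) (S : Submodule F (FreeMalcev F ℕ))
    (h : ∀ w : FreeMagma ℕ, g (wdM w) ∈ S) (x : FreeMalcev F ℕ) : g x ∈ S := by
  have hx : x ∈ Submodule.span F (Set.range (wdM : FreeMagma ℕ → FreeMalcev F ℕ)) := by
    rw [span_wdM]; trivial
  induction hx using Submodule.span_induction with
  | mem x hx =>
    obtain ⟨w, rfl⟩ := hx
    exact h w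
  | zero => rw [map_zero]; exact Submodule.zero_mem _
  | add x y _ _ hx hy => rw [map_add]; exact Submodule.add_mem _ hx hy
  | smul r x _ hx => rw [map_smul]; exact Submodule.smul_mem _ _ hx

variable (F) in
/-- the span of the `fw` of words -/
noncomputable def Sw : Submodule F (FreeMalcev F ℕ) :=
  Submodule.span F {q | ∃ (xs : List (FreeMagma ℕ)) (a : FreeMagma ℕ), 5 ≤ xs.length ∧
    q = fw (xs.map wdM) (wdM a)}

theorem fv_Sw (x0 x1 x2 x3 x4 v : FreeMalcev F ℕ) : fv x0 x1 x2 x3 x4 v ∈ Sw F := by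
  obtain ⟨g0, h0⟩ := fv_lin0 F x1 x2 x3 x4 v
  rw [← h0]
  apply red
  intro w0
  rw [h0]
  obtain ⟨g1, h1⟩ := fv_lin1 F (wdM w0) x2 x3 x4 v
  rw [← h1]
  apply red
  intro w1
  rw [h1]
  obtain ⟨g2, h2⟩ := fv_lin2 F (wdM w0) (wdM w1) x3 x4 v
  rw [← h2]
  apply red
  intro w2
  rw [h2]
  obtain ⟨g3, h3⟩ := fv_lin3 F (wdM w0) (wdM w1) (wdM w2) x4 v
  rw [← h3]
  apply red
  intro w3
  rw [h3]
  obtain ⟨g4, h4⟩ := fv_lin4 F (wdM w0) (wdM w1) (wdM w2) (wdM w3) v
  rw [← h4]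
  apply red
  intro w4
  rw [h4]
  obtain ⟨g5, h5⟩ := fv_lin5 F (wdM w0 : FreeMalcev F ℕ) (wdM w1) (wdM w2) (wdM w3) (wdM w4)
  rw [← h5]
  apply red
  intro w5
  rw [h5]
  exact Submodule.subset_span ⟨[w0, w1, w2, w3, w4], w5, by simp, rfl⟩

theorem mul_Sw {q : FreeMalcev F ℕ} (hq : q ∈ Sw F) (b : FreeMalcev F ℕ) : q * b ∈ Sw F := by
  unfold Sw at hq
  induction hq using Submodule.span_induction with
  | mem q hq =>
    obtain ⟨xs, a, hl, rfl⟩ := hq
    have h1 := red (LinearMap.mulLeft F (fw (xs.map wdM) (wdM a))) (Sw F) (fun w => by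
      rw [LinearMap.mulLeft_apply, ← fw_append (by simpa using hl)]
      exact Submodule.subset_span ⟨xs ++ [w], a, by simp; omega, by simp⟩) b
    exact h1
  | zero => rw [zero_mul]; exact Submodule.zero_mem _
  | add x y _ _ hx hy => rw [add_mul]; exact Submodule.add_mem _ hx hy
  | smul r x _ hx => rw [smul_mul_assoc]; exact Submodule.smul_mem _ _ hx

theorem QV_le_Sw : QV F (FreeMalcev F ℕ) ≤ Sw F := by
  apply QV_le
  · intro q hq b
    have h1 := mul_Sw hq b
    refine ⟨h1, ?_⟩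
    rw [(FreeMalcev.isMalcev (F := F) (X := ℕ)).anti]
    exact Submodule.neg_mem _ h1
  · exact fv_Sw

theorem fv_Hg {x0 x1 x2 x3 x4 v : FA F} {c0 c1 c2 c3 c4 d : Multiset ℕ}
    (h0 : x0 ∈ Hg F c0) (h1 : x1 ∈ Hg F c1) (h2 : x2 ∈ Hg F c2) (h3 : x3 ∈ Hg F c3)
    (h4 : x4 ∈ Hg F c4) (hv : v ∈ Hg F d) :
    fv x0 x1 x2 x3 x4 v ∈ Hg F (c0 + c1 + c2 + c3 + c4 + d) := by
  unfold fv
  have e1 := P108_mem h0 h1 h2 h3 (Hg_mul hv h4)
  have e2 := Hg_mul (P108_mem h0 h1 h2 h3 hv) h4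
  have f1 : c0 + c1 + c2 + c3 + (d + c4) = c0 + c1 + c2 + c3 + c4 + d := by abel
  have f2 : c0 + c1 + c2 + c3 + d + c4 = c0 + c1 + c2 + c3 + c4 + d := by abel
  rw [f1] at e1
  rw [f2] at e2
  exact Submodule.sub_mem _ e1 e2

theorem fw_Hg (xs : List (FreeMagma ℕ)) (a : FreeMagma ℕ) :
    fw (xs.map wd) (wd a) ∈ Hg F ((xs.map content).sum + content a) := by
  match xs with
  | [] => exact Submodule.zero_mem _
  | [_] => exact Submodule.zero_mem _
  | [_, _] => exact Submodule.zero_mem _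
  | [_, _, _] => exact Submodule.zero_mem _
  | [_, _, _, _] => exact Submodule.zero_mem _
  | x0 :: x1 :: x2 :: x3 :: x4 :: t =>
    have key : ∀ (t : List (FreeMagma ℕ)) (q : FA F) (m : Multiset ℕ), q ∈ Hg F m →
        (t.map wd).foldl (· * ·) q ∈ Hg F (m + (t.map content).sum) := by
      intro t
      induction t with
      | nil => intro q m hq; simpa using hq
      | cons w t ih =>
        intro q m hq
        have h := ih (q * wd w) (m + content w) (Hg_mul hq (wd_mem w))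
        simpa [add_assoc] using h
    have h := key t _ _ (fv_Hg (wd_mem (F := F) x0) (wd_mem x1) (wd_mem x2) (wd_mem x3)
      (wd_mem x4) (wd_mem a))
    simp only [List.map_cons, fw_cons, List.sum_cons]
    have e : content x0 + (content x1 + (content x2 + (content x3 + (content x4 +
        (t.map content).sum)))) + content a =
      content x0 + content x1 + content x2 + content x3 + content x4 + content a +
        (t.map content).sum := by
      abel
    rw [e]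
    exact h

theorem fw_GM (xs : List (FreeMagma ℕ)) (a : FreeMagma ℕ) :
    fw (xs.map wdM) (wdM a) ∈ GM F ((xs.map content).sum + content a) := by
  refine ⟨_, fw_Hg xs a, ?_⟩
  have h1 := hom_fw (FreeMalcev.mkHom : FA F →ₙₐ[F] FreeMalcev F ℕ) (xs.map wd) (wd a)
  refine h1.trans ?_
  rw [List.map_map]
  rfl

/-- the homogeneous elements of `QV` -/
theorem QV_GM [C23 F] {m : Multiset ℕ} {q : FreeMalcev F ℕ} (hq : q ∈ QV F (FreeMalcev F ℕ))
    (hm : q ∈ GM F m) : q ∈ Fm F 5 m := by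
  have h1 : piM F m q = q := by rw [piM_of_mem hm, if_pos rfl]
  rw [← h1]
  have h2 := QV_le_Sw hq
  clear h1 hm hq
  unfold Sw at h2
  induction h2 using Submodule.span_induction with
  | mem p hp =>
    obtain ⟨xs, a, hl, rfl⟩ := hp
    rw [piM_of_mem (fw_GM xs a)]
    split_ifs with hc
    · exact Submodule.subset_span ⟨xs, a, hl, hc, rfl⟩
    · exact Submodule.zero_mem _
  | zero => rw [map_zero]; exact Submodule.zero_mem _
  | add x y _ _ hx hy => rw [map_add]; exact Submodule.add_mem _ hx hy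
  | smul r x _ hx => rw [map_smul]; exact Submodule.smul_mem _ _ hx

end Pool.Agent.MalP.W5
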