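import Pool.Agent.MalP.W5.L
import Pool.Agent.MalP.Words

/-! # p = 5: reduction of the elements of `Q` to the elements `w(letters;letter)` -/

set_option autoImplicit false

open Equiv Finset

namespace Pool.Agent.MalP.W5

open Pool.Agent.MalP

universe u v w

variable (F : Type u) [Field F] {A : Type v} [NonUnitalNonAssocRing A] [Module F A]

/-- the span of the `w(letters;letter)` of content `m` -/
noncomputable def SP (z : ℕ → A) (m : Multiset ℕ) : Submodule F A :=
  Submodule.span F {q | ∃ (U : List ℕ) (y : ℕ), 6 ≤ U.length ∧ (U : Multiset ℕ) + {y} = m ∧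
    q = wL F (U.map z) (z y)}

theorem word_cases (w : FreeMagma ℕ) : (∃ n, w = FreeMagma.of n) ∨
    ∃ u v, w = FreeMagma.mul u v := by
  cases w with
  | of n => exact Or.inl ⟨n, rfl⟩
  | mul u v => exact Or.inr ⟨u, v, rfl⟩

variable {F}

theorem SP_mul [IsScalarTower F A A] {z : ℕ → A} {m : Multiset ℕ} {q : A} (hq : q ∈ SP F z m)
    (n : ℕ) : q * z n ∈ SP F z (m + {n}) := by
  unfold SP at hq
  induction hq using Submodule.span_induction with
  | mem q hq =>
    obtain ⟨U, y, hU, hm, rfl⟩ := hq
    apply Submodule.subset_span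
    refine ⟨U ++ [n], y, by simp; omega, ?_, ?_⟩
    · rw [← hm, ← Multiset.coe_add, Multiset.coe_singleton]
      abel
    · rw [List.map_append, List.map_singleton, wL_append F (by simpa using hU)]
  | zero => rw [zero_mul]; exact Submodule.zero_mem _
  | add p q _ _ hp hq => rw [add_mul]; exact Submodule.add_mem _ hp hq
  | smul r q _ hq => rw [smul_mul_assoc]; exact Submodule.smul_mem _ r hq

variable (h : IsA5 A) (h5 : (5 : F) = 0)

/-- the content of a tuple -/
def tc (n : Fin 7 → ℕ) : Multiset ℕ := {n 0} + {n 1} + {n 2} + {n 3} + {n 4} + {n 5} + {n 6}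

theorem tc_eq (n : Fin 7 → ℕ) : tc n = (univ : Finset (Fin 7)).val.map n := by
  have h1 : (univ : Finset (Fin 7)).val = {0, 1, 2, 3, 4, 5, 6} := by decide
  rw [h1]
  rfl

theorem tc_perm (n : Fin 7 → ℕ) (s : Perm (Fin 7)) : tc (n ∘ s) = tc n := by
  rw [tc_eq, tc_eq, ← Multiset.map_map]
  congr 1
  have h1 : (univ : Finset (Fin 7)).map s.toEmbedding = univ := by
    rw [Finset.map_univ_equiv]
  exact congrArg Finset.val h1

theorem W7_SP (z : ℕ → A) (n : Fin 7 → ℕ) : W7 F (z ∘ n) ∈ SP F z (tc n) := by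
  apply Submodule.subset_span
  refine ⟨[n 1, n 2, n 3, n 4, n 5, n 6], n 0, by simp, ?_, ?_⟩
  · unfold tc
    have e : (([n 1, n 2, n 3, n 4, n 5, n 6] : List ℕ) : Multiset ℕ) =
      {n 1} + {n 2} + {n 3} + {n 4} + {n 5} + {n 6} := rfl
    rw [e]
    abel
  · show W7 F (z ∘ n) = W7 F ![z (n 0), z (n 1), z (n 2), z (n 3), z (n 4), z (n 5), z (n 6)]
    congr 1
    funext k
    fin_cases k <;> rfl

include h h5

theorem om_SP (z : ℕ → A) (n : Fin 7 → ℕ) (i : Fin 7) : om F (z ∘ n) i ∈ SP F z (tc n) := by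
  have e1 := om_W7 h h5 (z ∘ n) (swap 0 i)
  rw [swap_apply_left] at e1
  rw [e1]
  have e2 : W7 F ((z ∘ n) ∘ swap 0 i) ∈ SP F z (tc n) := by
    have := W7_SP (F := F) z (n ∘ swap 0 i)
    rw [tc_perm] at this
    exact this
  rcases Int.units_eq_one_or (Perm.sign (swap 0 i)) with h1 | h1
  · rw [h1, one_smul]
    exact e2
  · rw [h1, Units.neg_smul, one_smul]
    exact Submodule.neg_mem _ e2

theorem G1_SP (z : ℕ → A) (n0 n1 n2 n3 n4 n5 n6 : ℕ) :
    fv (z n0) (z n1) (z n2) (z n3) (z n4) (z n5) * z n6 ∈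
      SP F z ({n0} + {n1} + {n2} + {n3} + {n4} + {n5} + {n6}) := by
  have e1 := G1_om h h5 (z ∘ ![n0, n1, n2, n3, n4, n5, n6])
  have e2 : G1 (z ∘ ![n0, n1, n2, n3, n4, n5, n6]) =
      fv (z n0) (z n1) (z n2) (z n3) (z n4) (z n5) * z n6 := rfl
  have e3 := om_SP h h5 z ![n0, n1, n2, n3, n4, n5, n6]
  rw [← e2, e1]
  exact Submodule.add_mem _ (Submodule.add_mem _ (Submodule.add_mem _ (Submodule.add_mem _
    (e3 0) (e3 1)) (e3 2)) (e3 3)) (e3 4)

theorem G2_SP (z : ℕ → A) (n0 n1 n2 n3 n4 n5 n6 : ℕ) :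
    fv (z n0 * z n1) (z n2) (z n3) (z n4) (z n5) (z n6) ∈
      SP F z ({n0} + {n1} + {n2} + {n3} + {n4} + {n5} + {n6}) := by
  have e1 := G2_om h h5 (z ∘ ![n0, n1, n2, n3, n4, n5, n6])
  have e2 : G2 (z ∘ ![n0, n1, n2, n3, n4, n5, n6]) =
      fv (z n0 * z n1) (z n2) (z n3) (z n4) (z n5) (z n6) := rfl
  have e3 := om_SP h h5 z ![n0, n1, n2, n3, n4, n5, n6]
  rw [← e2, e1]
  exact Submodule.add_mem _ (e3 0) (e3 1)

variable [IsScalarTower F A A]

/-- one argument is a product -/
theorem L3 (z : ℕ → A) (n1 n2 n3 n4 n5 : ℕ) : ∀ (k : ℕ) (a b : FreeMagma ℕ),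
    Multiset.card (content a) + Multiset.card (content b) ≤ k →
    fv (evw z a * evw z b) (z n1) (z n2) (z n3) (z n4) (z n5) ∈
      SP F z (content a + content b + {n1} + {n2} + {n3} + {n4} + {n5}) := by
  have hpos : ∀ w : FreeMagma ℕ, 1 ≤ Multiset.card (content w) := by
    intro w
    induction w with
    | ih1 i => show 1 ≤ Multiset.card ({i} : Multiset ℕ); simp
    | ih2 a b iha ihb =>
      show 1 ≤ Multiset.card (content a + content b)
      rw [Multiset.card_add]
      omega
  intro k
  induction k with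
  | zero =>
    intro a b hk
    have := hpos a
    omega
  | succ k ih =>
    -- the case in which `a` is a product
    have key : ∀ (c d b : FreeMagma ℕ), Multiset.card (content (FreeMagma.mul c d)) +
        Multiset.card (content b) ≤ k + 1 →
        fv (evw z (FreeMagma.mul c d) * evw z b) (z n1) (z n2) (z n3) (z n4) (z n5) ∈
          SP F z (content (FreeMagma.mul c d) + content b + {n1} + {n2} + {n3} + {n4} + {n5}) := by
      intro c d b hk
      have e1 : evw z (FreeMagma.mul c d) = evw z c * evw z d := rfl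
      have e2 : content (FreeMagma.mul c d) = content c + content d := rfl
      rw [e1, fv_prod_mul h h5]
      apply Submodule.neg_mem
      rcases word_cases b with ⟨n, rfl⟩ | ⟨u, v, rfl⟩
      · have h1 := SP_mul (ih c d (by
          rw [e2, Multiset.card_add] at hk
          have e3 : Multiset.card (content (FreeMagma.of n)) = 1 := Multiset.card_singleton n
          omega)) n
        have e3 : content (FreeMagma.mul c d) + content (FreeMagma.of n) + {n1} + {n2} + {n3} +
            {n4} + {n5} = content c + content d + {n1} + {n2} + {n3} + {n4} + {n5} + {n} := by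
          have e4 : content (FreeMagma.of n) = {n} := rfl
          rw [e2, e4]
          abel
        rw [e3]
        exact h1
      · have e3 : evw z (FreeMagma.mul u v) = evw z u * evw z v := rfl
        rw [e3, fv_mul_prod h h5]
        exact Submodule.zero_mem _
    intro a b hk
    rcases word_cases a with ⟨n, rfl⟩ | ⟨c, d, rfl⟩
    · rcases word_cases b with ⟨n', rfl⟩ | ⟨c, d, rfl⟩
      · exact G2_SP h h5 z n n' n1 n2 n3 n4 n5
      · rw [h.toIsMalcev.anti, fv_neg0, add_comm (content (FreeMagma.of n))]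
        exact Submodule.neg_mem _ (key c d (FreeMagma.of n) (by omega))
    · exact key c d b hk

/-- the arguments are words, one of the first arguments is a product -/
theorem L4a (z : ℕ → A) (a b w1 w2 w3 w4 w5 : FreeMagma ℕ) :
    fv (evw z (FreeMagma.mul a b)) (evw z w1) (evw z w2) (evw z w3) (evw z w4) (evw z w5) ∈
      SP F z (content (FreeMagma.mul a b) + content w1 + content w2 + content w3 + content w4 +
        content w5) := by
  have e0 : evw z (FreeMagma.mul a b) = evw z a * evw z b := rfl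
  rw [e0]
  rcases word_cases w5 with ⟨n5, rfl⟩ | ⟨u, v, rfl⟩
  swap
  · have e1 : evw z (FreeMagma.mul u v) = evw z u * evw z v := rfl
    rw [e1, h.w1]
    exact Submodule.zero_mem _
  rcases word_cases w4 with ⟨n4, rfl⟩ | ⟨u, v, rfl⟩
  swap
  · have e1 : evw z (FreeMagma.mul u v) = evw z u * evw z v := rfl
    rw [e1, ← neg_neg (fv _ _ _ _ _ _), ← h.sw34, ← neg_neg (fv _ _ _ _ _ _), ← h.sw23,
      ← neg_neg (fv _ _ _ _ _ _), ← h.sw12, fv_prod2 h]
    simp
  rcases word_cases w3 with ⟨n3, rfl⟩ | ⟨u, v, rfl⟩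
  swap
  · have e1 : evw z (FreeMagma.mul u v) = evw z u * evw z v := rfl
    rw [e1, ← neg_neg (fv _ _ _ _ _ _), ← h.sw23,
      ← neg_neg (fv _ _ _ _ _ _), ← h.sw12, fv_prod2 h]
    simp
  rcases word_cases w2 with ⟨n2, rfl⟩ | ⟨u, v, rfl⟩
  swap
  · have e1 : evw z (FreeMagma.mul u v) = evw z u * evw z v := rfl
    rw [e1, ← neg_neg (fv _ _ _ _ _ _), ← h.sw12, fv_prod2 h]
    simp
  rcases word_cases w1 with ⟨n1, rfl⟩ | ⟨u, v, rfl⟩
  swap
  · have e1 : evw z (FreeMagma.mul u v) = evw z u * evw z v := rfl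
    rw [e1, fv_prod2 h]
    exact Submodule.zero_mem _
  exact L3 h h5 z n1 n2 n3 n4 n5 _ a b le_rfl

/-- words as arguments: `fv` is in the span or all arguments are letters -/
theorem L4 (z : ℕ → A) (w0 w1 w2 w3 w4 w5 : FreeMagma ℕ) :
    fv (evw z w0) (evw z w1) (evw z w2) (evw z w3) (evw z w4) (evw z w5) ∈
      SP F z (content w0 + content w1 + content w2 + content w3 + content w4 + content w5) ∨
    ∃ n0 n1 n2 n3 n4 n5 : ℕ, w0 = FreeMagma.of n0 ∧ w1 = FreeMagma.of n1 ∧ w2 = FreeMagma.of n2 ∧
      w3 = FreeMagma.of n3 ∧ w4 = FreeMagma.of n4 ∧ w5 = FreeMagma.of n5 := by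
  rcases word_cases w5 with ⟨n5, rfl⟩ | ⟨u, v, rfl⟩
  swap
  · left
    have e1 : evw z (FreeMagma.mul u v) = evw z u * evw z v := rfl
    rw [e1, h.w1]
    exact Submodule.zero_mem _
  rcases word_cases w0 with ⟨n0, rfl⟩ | ⟨u, v, rfl⟩
  swap
  · left
    exact L4a h h5 z u v w1 w2 w3 w4 _
  rcases word_cases w1 with ⟨n1, rfl⟩ | ⟨u, v, rfl⟩
  swap
  · left
    have := Submodule.neg_mem _ (L4a h h5 z u v (.of n0) w2 w3 w4 (.of n5))
    rw [← h.sw01] at this
    have e : content (FreeMagma.of n0) + content (FreeMagma.mul u v) + content w2 + content w3 +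
      content w4 + content (FreeMagma.of n5) = content (FreeMagma.mul u v) +
      content (FreeMagma.of n0) + content w2 + content w3 + content w4 +
      content (FreeMagma.of n5) := by abel
    rw [e]
    exact this
  rcases word_cases w2 with ⟨n2, rfl⟩ | ⟨u, v, rfl⟩
  swap
  · left
    have := Submodule.neg_mem _ (L4a h h5 z u v (.of n1) (.of n0) w3 w4 (.of n5))
    rw [← h.sw02] at this
    have e : content (FreeMagma.of n0) + content (FreeMagma.of n1) + content (FreeMagma.mul u v) +
      content w3 + content w4 + content (FreeMagma.of n5) = content (FreeMagma.mul u v) +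
      content (FreeMagma.of n1) + content (FreeMagma.of n0) + content w3 + content w4 +
      content (FreeMagma.of n5) := by abel
    rw [e]
    exact this
  rcases word_cases w3 with ⟨n3, rfl⟩ | ⟨u, v, rfl⟩
  swap
  · left
    have := Submodule.neg_mem _ (L4a h h5 z u v (.of n1) (.of n2) (.of n0) w4 (.of n5))
    rw [← h.sw03] at this
    have e : content (FreeMagma.of n0) + content (FreeMagma.of n1) + content (FreeMagma.of n2) +
      content (FreeMagma.mul u v) + content w4 + content (FreeMagma.of n5) =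
      content (FreeMagma.mul u v) + content (FreeMagma.of n1) + content (FreeMagma.of n2) +
      content (FreeMagma.of n0) + content w4 + content (FreeMagma.of n5) := by abel
    rw [e]
    exact this
  rcases word_cases w4 with ⟨n4, rfl⟩ | ⟨u, v, rfl⟩
  swap
  · left
    have := Submodule.neg_mem _ (L4a h h5 z u v (.of n1) (.of n2) (.of n3) (.of n0) (.of n5))
    rw [← h.sw04] at this
    have e : content (FreeMagma.of n0) + content (FreeMagma.of n1) + content (FreeMagma.of n2) +
      content (FreeMagma.of n3) + content (FreeMagma.mul u v) + content (FreeMagma.of n5) =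
      content (FreeMagma.mul u v) + content (FreeMagma.of n1) + content (FreeMagma.of n2) +
      content (FreeMagma.of n3) + content (FreeMagma.of n0) + content (FreeMagma.of n5) := by abel
    rw [e]
    exact this
  right
  exact ⟨n0, n1, n2, n3, n4, n5, rfl, rfl, rfl, rfl, rfl, rfl⟩

/-- words as arguments, at least one further factor -/
theorem L5 (z : ℕ → A) (w0 w1 w2 w3 w4 w5 : FreeMagma ℕ) (t : List (FreeMagma ℕ)) (ht : t ≠ []) :
    (t.map (evw z)).foldl (· * ·) (fv (evw z w0) (evw z w1) (evw z w2) (evw z w3) (evw z w4)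
      (evw z w5)) ∈
      SP F z (content w0 + content w1 + content w2 + content w3 + content w4 + content w5 +
        (t.map content).sum) := by
  -- one factor
  have h1 : ∀ w6 : FreeMagma ℕ, fv (evw z w0) (evw z w1) (evw z w2) (evw z w3) (evw z w4)
      (evw z w5) * evw z w6 ∈
      SP F z (content w0 + content w1 + content w2 + content w3 + content w4 + content w5 +
        content w6) := by
    intro w6
    rcases word_cases w6 with ⟨n6, rfl⟩ | ⟨u, v, rfl⟩
    · rcases L4 h h5 z w0 w1 w2 w3 w4 w5 with h2 | ⟨n0, n1, n2, n3, n4, n5, rfl, rfl, rfl, rfl, rfl, rfl⟩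
      · exact SP_mul h2 n6
      · exact G1_SP h h5 z n0 n1 n2 n3 n4 n5 n6
    · have e1 : evw z (FreeMagma.mul u v) = evw z u * evw z v := rfl
      rw [e1, fv_mul_prod h h5]
      exact Submodule.zero_mem _
  -- further factors
  have h2 : ∀ (t : List (FreeMagma ℕ)) (q : A) (m : Multiset ℕ), PP q → q ∈ SP F z m →
      (t.map (evw z)).foldl (· * ·) q ∈ SP F z (m + (t.map content).sum) := by
    intro t
    induction t with
    | nil =>
      intro q m _ hq
      simpa using hq
    | cons b t ih =>
      intro q m hp hq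
      have h3 : q * evw z b ∈ SP F z (m + content b) := by
        rcases word_cases b with ⟨n, rfl⟩ | ⟨u, v, rfl⟩
        · exact SP_mul hq n
        · have e1 : evw z (FreeMagma.mul u v) = evw z u * evw z v := rfl
          rw [e1, hp.1]
          exact Submodule.zero_mem _
      have h4 := ih (q * evw z b) (m + content b) (PP_mul F (two_ne h5) h.toIsMalcev hp _) h3
      simp only [List.map_cons, List.foldl_cons, List.sum_cons]
      rw [← add_assoc]
      exact h4
  rcases t with _ | ⟨w6, t⟩
  · exact absurd rfl ht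
  simp only [List.map_cons, List.foldl_cons, List.sum_cons]
  rw [← add_assoc]
  exact h2 t _ _ (PP_mul F (two_ne h5) h.toIsMalcev (PP_fv h h5 _ _ _ _ _ _) _) (h1 w6)

end Pool.Agent.MalP.W5
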